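import Pool.Agent.Y745.LD.DefsA
import Pool.Agent.Y745.SW.DefsB

set_option autoImplicit false

/-!
LD project (helper745, MP_6bc78b_nt). Part B: statements about zeta and its zeros.
-/

namespace Pool.Agent.Y745.LD

open Filter Topology MeasureTheory Complex H370 Pool.Agent.Y745.SW

noncomputable section

/-- the heights `t` such that all zeros at vertical distance `≤ r log T` are near the critical line -/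
def G1 (r D T : ℝ) : Set ℝ := {t : ℝ | ∀ s : ℂ, riemannZeta s = 0 → 0 < s.re → s.re < 1 →
  |s.im - t| ≤ r * Real.log T → |s.re - 1 / 2| ≤ D * LL T / Real.log T}

/-- G1M: almost all heights are of this kind -/
def P_G1M : Prop := ∀ r A' : ℝ, 0 < r → 0 < A' → ∃ D0 : ℝ, 0 < D0 ∧ ∀ D : ℝ, D0 ≤ D → ∀ᶠ T : ℝ in atTop,
  MeasurableSet (G1 r D T) ∧ volume.real (Set.Icc T (2 * T) \ G1 r D T) ≤ T / Real.log T ^ A'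

/-- EFU: the explicit formula for the local sums, uniformly in the window function and in `a` -/
def P_EFU : Prop := ∀ ε : ℝ, 0 < ε → ε < 1 / 2 → ∃ C1 : ℝ, 0 < C1 ∧ ∀ (cc : ℕ → ℂ) (C0 : ℝ), ∀ᶠ T : ℝ in atTop,
  ∀ U1 U2 : ℝ, EFD cc C0 T U1 U2 → ∀ (B : ℝ → ℝ) (K a : ℝ), Continuous B → (∀ ξ, B (-ξ) = B ξ) →
    (∀ ξ, |B ξ| ≤ K) → 1 ≤ a → a ≤ ε / 4 * Real.log T →
    ∀ t u : ℝ, T + Real.log T ≤ t → t ≤ 2 * T - Real.log T → 0 ≤ u → u ≤ (1 - ε) * Real.log T →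
      ‖St B a U1 U2 u t - cexp (I * u * t) * ((Mu B a (Real.log T) u : ℝ) -
        DPp cc B a u (XT ε T) t - DPm cc B a u (XT ε T) t)‖ ≤ C1 * (1 + |C0|) * K / a

/-- VSM: the weighted mean square of the difference from the main term -/
def P_VSM : Prop := ∀ κ c : ℝ, 0 < c → c < 1 → ∃ A0 : ℝ, ∀ A : ℝ, A0 ≤ A → ∀ ε : ℝ, 0 < ε → ε < 1 / 2 →
  ∃ C : ℝ, 1 ≤ C ∧ ∀ (cc : ℕ → ℂ) (C0 : ℝ), ∀ᶠ T : ℝ in atTop, ∀ U1 U2 : ℝ, EFD cc C0 T U1 U2 →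
  ∀ (B : ℝ → ℝ) (K a u x : ℝ), Continuous B → (∀ ξ, B (-ξ) = B ξ) → (∀ ξ, |B ξ| ≤ K) → 1 ≤ a →
    a ≤ ε / 4 * Real.log T → 0 ≤ u → u ≤ (1 - ε) * Real.log T → |x| ≤ 1 →
    ∫ t in (T + 2 * Real.log T)..(2 * T - 2 * Real.log T), V κ c A T t *
        ‖St B a U1 U2 u (t + x) - cexp (I * u * (t + x : ℝ)) * (Mu B a (Real.log T) u : ℝ)‖ ^ 2 ≤
      C * IV κ c A T * ((1 + u / a) * (∫ ξ in (-1:ℝ)..1, B ξ ^ 2) + (K * Real.log T ^ c / a) ^ 2)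

open Classical in
/-- the number of zeros in `(U1, U2]` with ordinates in `[α, β]`, with multiplicity -/
def nz (U1 U2 α β : ℝ) : ℝ :=
  ∑ s ∈ (Zf riemannZeta U1 U2).filter (fun s => α ≤ s.im ∧ s.im ≤ β), (mult riemannZeta s : ℝ)

/-- CNT: the weighted mean number of zeros in intervals of length `2 (log T)^(e-1)` -/
def P_CNT : Prop := ∀ κ c : ℝ, 0 < c → c < 1 → ∃ A0 : ℝ, ∀ A : ℝ, A0 ≤ A → ∀ e : ℝ, 0 < e → e < 1 - c →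
  ∃ C : ℝ, 1 ≤ C ∧ ∀ (D : ℝ) (cc : ℕ → ℂ) (C0 : ℝ), 0 < D → ∀ᶠ T : ℝ in atTop, MeasurableSet (G1 1 D T) →
  ∀ U1 U2 : ℝ, EFD cc C0 T U1 U2 → ∀ x : ℝ, |x| ≤ 1 →
    ∫ t in G1 1 D T ∩ Set.Icc (T + 2 * Real.log T) (2 * T - 2 * Real.log T), V κ c A T t *
        nz U1 U2 (t + x - Real.log T ^ (e - 1)) (t + x + Real.log T ^ (e - 1)) ≤
      C * Real.log T ^ e * IV κ c A T

/-- the cost of a zero, for a zone of half length `th` -/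
def cost (B : ℝ → ℝ) (a th d η1 L t : ℝ) (z : ℂ) : ℝ :=
  (if |z.re - t| ≤ th + 2 * d then 2 * ‖1 - vt B a t z‖ + η1 else 0) +
  (if |z.re - t| ≤ th - 2 * d then 0 else 2 * ‖vt B a t z‖ * Real.exp (|z.im| * L))

/-- COST: the total cost of the zeros, at the heights where all zeros are near the line -/
def P_COST : Prop := ∀ D e : ℝ, 0 < D → 0 < e → e ≤ 1 / 8 → ∃ (j : ℕ) (τ0 : ℝ), 0 < τ0 ∧ τ0 ≤ 1 ∧
  ∀ C τ : ℝ, 1 ≤ C → 0 < τ → τ ≤ τ0 → ∀ᶠ T : ℝ in atTop, ∀ B : ℝ → ℝ, Wf j C (Real.log T ^ e) B →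
  ∀ d η1 : ℝ, 0 ≤ d → d ≤ 1 / Real.log T → 0 ≤ η1 → η1 ≤ 1 → ∀ U1 U2 : ℝ, T ≤ U1 → U2 ≤ 2 * T →
  ∀ t ∈ G1 1 D T ∩ Set.Icc (T + 2 * Real.log T) (2 * T - 2 * Real.log T),
    ∑ s ∈ Zf riemannZeta U1 U2, (mult riemannZeta s : ℝ) *
        cost B (τ * Real.log T) ((Real.log T ^ e + Real.log T ^ (e / 2)) / (τ * Real.log T)) d η1 (Real.log T) t
          (zz s) ≤
      η1 * nz U1 U2 (t - 2 * Real.log T ^ e / (τ * Real.log T)) (t + 2 * Real.log T ^ e / (τ * Real.log T)) +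
      Real.log T ^ (e / 4) *
        (nz U1 U2 (t - (Real.log T ^ e + 2 * Real.log T ^ (e / 2)) / (τ * Real.log T))
          (t - (Real.log T ^ e - 2 * Real.log T ^ (e / 2)) / (τ * Real.log T)) +
        nz U1 U2 (t + (Real.log T ^ e - 2 * Real.log T ^ (e / 2)) / (τ * Real.log T))
          (t + (Real.log T ^ e + 2 * Real.log T ^ (e / 2)) / (τ * Real.log T))) + 1

/-- Z1: approximation of `log |ζ|` at distance `k (log T)^(e-1)` from the critical line by a Dirichlet polynomial -/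
def P_Z1 : Prop := ∀ e D : ℝ, 0 < e → e < 1 → 0 < D → ∀ᶠ T : ℝ in atTop, ∀ k : ℝ, 1 ≤ k → k ≤ 2 → ∃ w : ℕ → ℝ,
  (∀ n, 0 ≤ w n ∧ w n ≤ 1) ∧
  (∀ n : ℕ, (n : ℝ) ≤ Real.exp (Real.log T ^ (1 - 2 * e / 3)) → 1 - w n ≤ 1 / Real.log T ^ 2) ∧
  ∀ t ∈ G1 1 D T ∩ Set.Icc (T + 2 * Real.log T) (2 * T - 2 * Real.log T),
    |Real.log ‖riemannZeta (1 / 2 + (k * Real.log T ^ (e - 1) : ℝ) + t * I)‖ -
      (∑ n ∈ Finset.Icc 2 ⌊Real.exp (Real.log T ^ (1 - e / 3))⌋₊,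
        ((ArithmeticFunction.vonMangoldt n / Real.log n * w n : ℝ) : ℂ) *
          (n : ℂ) ^ (-(1 / 2 + (k * Real.log T ^ (e - 1) : ℝ) + t * I))).re| ≤ 1

/-- ZL2: `log |ζ|` at distance `k (log T)^(e-1)` from the critical line is near `Re P`, in weighted mean square -/
def P_ZL2 : Prop := ∀ κ c : ℝ, 0 < c → c < 1 → ∃ A0 : ℝ, ∀ A : ℝ, A0 ≤ A → ∀ e D δ : ℝ, 0 < e → e < 1 - c →
  0 < D → 0 < δ → ∀ᶠ T : ℝ in atTop, MeasurableSet (G1 1 D T) → ∀ k : ℝ, 1 ≤ k → k ≤ 2 →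
    ∫ t in G1 1 D T ∩ Set.Icc (T + 4 * Real.log T) (2 * T - 4 * Real.log T), V κ c A T t *
        (Real.log ‖riemannZeta (1 / 2 + (k * Real.log T ^ (e - 1) : ℝ) + t * I)‖ - (Pc c T t).re) ^ 2 ≤
      (2 * (1 - c) + δ) * LL T * IV κ c A T

/-- Z3: the twisted second moment of zeta -/
def P_Z3 : Prop := ∀ κ c : ℝ, 0 < c → c < 1 → ∃ A0 : ℝ, ∀ A : ℝ, A0 ≤ A → ∀ ε : ℝ, 0 < ε → ∀ᶠ T : ℝ in atTop,
  ∫ t in T..(2 * T), V κ c A T t * ‖riemannZeta (1 / 2 + t * I)‖ ^ 2 ≤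
    T * Real.log T ^ (1 + ε) * Real.exp ((2 * κ + κ ^ 2) * sc c T)

/-- ZUP: crude upper bound for zeta near the critical line -/
def P_ZUP : Prop := ∀ A' : ℝ, 0 < A' → ∃ A1 : ℝ, 0 < A1 ∧ ∀ᶠ T : ℝ in atTop, ∃ E : Set ℝ, MeasurableSet E ∧
  E ⊆ Set.Icc T (2 * T) ∧ volume.real E ≤ T / Real.log T ^ A' ∧ ∀ t ∈ Set.Icc (T + 1) (2 * T - 1), t ∉ E →
    ∀ z : ℂ, ‖z - (1 / 2 + t * I)‖ ≤ 1 / Real.log T → ‖riemannZeta z‖ ≤ Real.log T ^ A1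

/-- LOW: on the critical line `log |ζ|` is near `Re P` for most `t` with the weight -/
def P_LOW : Prop := ∀ κ δ : ℝ, 0 < δ → ∃ c0 : ℝ, 0 < c0 ∧ c0 < 1 ∧ ∀ c : ℝ, c0 ≤ c → c < 1 → ∃ A0 : ℝ,
  ∀ A : ℝ, A0 ≤ A → ∀ᶠ T : ℝ in atTop, ∃ E : Set ℝ, MeasurableSet E ∧ E ⊆ Set.Icc T (2 * T) ∧
    (∫ t in E, V κ c A T t) ≤ δ * IV κ c A T ∧
    ∀ t ∈ Set.Icc T (2 * T), t ∉ E →
      |Real.log ‖riemannZeta (1 / 2 + t * I)‖ - (Pc c T t).re| ≤ δ * LL T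

open Classical in
/-- DERV: the derivative at almost all isolated zeros, with the weight -/
def P_DERV : Prop := ∀ κ δ ε : ℝ, 0 < δ → δ ≤ 1 / 10 → 0 < ε → ∃ c0 : ℝ, 0 < c0 ∧ c0 < 1 ∧ ∀ c : ℝ, c0 ≤ c →
  c < 1 → ∀ A2 : ℝ, 0 < A2 → ∃ A0 : ℝ, ∀ A : ℝ, A0 ≤ A → ∀ e : ℝ, 0 < e → e < 1 - c → ∀ᶠ T : ℝ in atTop,
  MeasurableSet (G2 A2 c e T) → ∀ U1 U2 r : ℝ, T ≤ U1 → U1 ≤ T + 1 → 2 * T - 1 ≤ U2 → U2 ≤ 2 * T →
  1 / Real.log T ≤ r → r ≤ 1 / 2 * Real.log T ^ (e - 1) →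
  ∑ s ∈ (isoS U1 U2 (δ / Real.log T)).filter (fun s => T + 5 * Real.log T ≤ s.im ∧ s.im ≤ 2 * T - 5 * Real.log T ∧
      ε * LL T < |Real.log ‖deriv riemannZeta s‖ - LL T - (Pc c T s.im).re|),
    ∫ t in G2 A2 c e T ∩ Set.Icc (s.im - r) (s.im + r), V κ c A T t ≤ ε * (r * Real.log T * IV κ c A T)

end

end Pool.Agent.Y745.LD
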