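import Pool.Agent.Y745.LD.DefsB
import Pool.Agent.Y745.SW.DefsC

set_option autoImplicit false

/-!
LD project (helper745, MP_6bc78b_nt). Part C: the weighted count of isolated simple zeros.
-/

namespace Pool.Agent.Y745.LD

open Filter Topology MeasureTheory Complex H370 Pool.Agent.Y745.SW

noncomputable section

/-- CNT2: the weighted mean number of zeros in intervals of length `2 (log T)^(e-1)`, absolute constant -/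
def P_CNT2 : Prop := ∃ C : ℝ, 1 ≤ C ∧ ∀ κ c : ℝ, 0 < c → c < 1 → ∃ A0 : ℝ, ∀ A : ℝ, A0 ≤ A →
  ∀ (e D : ℝ) (cc : ℕ → ℂ) (C0 : ℝ), 0 < e → e < 1 - c → 0 < D → ∀ᶠ T : ℝ in atTop, MeasurableSet (G1 1 D T) →
  ∀ U1 U2 : ℝ, EFD cc C0 T U1 U2 → ∀ x : ℝ, |x| ≤ 1 →
    ∫ t in G1 1 D T ∩ Set.Icc (T + 2 * Real.log T) (2 * T - 2 * Real.log T), V κ c A T t *
        nz U1 U2 (t + x - Real.log T ^ (e - 1)) (t + x + Real.log T ^ (e - 1)) ≤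
      C * Real.log T ^ e * IV κ c A T

/-- the half length of the windows -/
def rad (e τ T : ℝ) : ℝ := (Real.log T ^ e + Real.log T ^ (e / 2)) / (τ * Real.log T)

/-- VBLK: weighted count of the isolated simple zeros -/
def P_VBLK : Prop := ∀ ε : ℝ, 0 < ε → ε ≤ 1 → ∃ δ : ℝ, 0 < δ ∧ δ ≤ 1 / 10 ∧ ∀ κ c : ℝ, 0 < c → c < 1 →
  ∃ A0 : ℝ, ∀ A : ℝ, A0 ≤ A → ∀ e D : ℝ, 0 < e → e ≤ 1 / 8 → e < 1 - c → 0 < D → ∃ τ : ℝ, 0 < τ ∧ τ ≤ 1 ∧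
  ∀ (cc : ℕ → ℂ) (C0 : ℝ), (∀ n, ‖cc n‖ ≤ ArithmeticFunction.vonMangoldt n) → ∀ᶠ T : ℝ in atTop,
  MeasurableSet (G1 1 D T) → ∀ U1 U2 : ℝ, EFD cc C0 T U1 U2 → ∀ G : Set ℝ, MeasurableSet G →
    G ⊆ G1 1 D T ∩ Set.Icc (T + 2 * Real.log T) (2 * T - 2 * Real.log T) →
    (1 - ε / 8) * IV κ c A T ≤ ∫ t in G, V κ c A T t →
    (2 - cMTinv - ε) * (2 * rad e τ T * (Real.log T / (2 * Real.pi)) * IV κ c A T) ≤
      ∑ s ∈ isoS U1 U2 (δ / Real.log T), ∫ t in G ∩ Set.Icc (s.im - rad e τ T) (s.im + rad e τ T), V κ c A T t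

end

end Pool.Agent.Y745.LD
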