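import Pool.Agent.Y745.LD.DefsB
import Pool.Agent.H370R2.DirGood
import Pool.Agent.TH803.UC.Dyad

set_option autoImplicit false

/-! Zeros far from the critical line are rare. -/

namespace Pool.Agent.Y745.LD

open Filter Topology MeasureTheory Complex H370 Pool.Agent.Y745.SW

noncomputable section

/-- the zeros in the strip are countable -/
lemma strip_countable : {s : ℂ | riemannZeta s = 0 ∧ 0 < s.re ∧ s.re < 1}.Countable := by
  have han : AnalyticOnNhd ℂ riemannZeta ({1}ᶜ : Set ℂ) := by
    refine DifferentiableOn.analyticOnNhd (fun z hz => ?_) isOpen_compl_singleton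
    exact (differentiableAt_riemannZeta hz).differentiableWithinAt
  refine (HereditarilyLindelofSpace.isLindelof _).countable_of_isDiscrete ?_
  rw [isDiscrete_iff_nhdsNE]
  intro z hz
  obtain ⟨hz0, hz1, hz2⟩ := hz
  have hzne : z ≠ 1 := by
    rintro rfl
    simp at hz2
  rw [← disjoint_iff, Filter.disjoint_principal_right]
  rcases (han z hzne).eventually_eq_zero_or_eventually_ne_zero with h | h
  · exfalso
    have hc : IsPreconnected ({1}ᶜ : Set ℂ) := by
      refine (isConnected_compl_singleton_of_one_lt_rank ?_ 1).isPreconnected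
      rw [Complex.rank_real_complex]
      norm_num
    have h2 : riemannZeta 2 = 0 := han.eqOn_zero_of_preconnected_of_eventuallyEq_zero hc hzne h
      (show (2:ℂ) ∈ ({1}ᶜ : Set ℂ) by simp)
    exact riemannZeta_ne_zero_of_one_lt_re (by norm_num) h2
  · filter_upwards [h] with w hw hw2
    exact hw hw2.1

lemma G1_meas (r D T : ℝ) : MeasurableSet (G1 r D T) := by
  have h1 : G1 r D T = ⋂ s ∈ {s : ℂ | riemannZeta s = 0 ∧ 0 < s.re ∧ s.re < 1},
      {t : ℝ | |s.im - t| ≤ r * Real.log T → |s.re - 1 / 2| ≤ D * LL T / Real.log T} := by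
    ext t
    simp only [G1, Set.mem_ofPred_eq, Set.mem_iInter]
    constructor
    · intro h s hs hst
      exact h s hs.1 hs.2.1 hs.2.2 hst
    · intro h s a1 a2 a3 a4
      exact h s ⟨a1, a2, a3⟩ a4
  rw [h1]
  refine MeasurableSet.biInter strip_countable fun s _ => ?_
  by_cases hs : |s.re - 1 / 2| ≤ D * LL T / Real.log T
  · have : {t : ℝ | |s.im - t| ≤ r * Real.log T → |s.re - 1 / 2| ≤ D * LL T / Real.log T} = Set.univ :=
      Set.eq_univ_of_forall fun t _ => hs
    rw [this]
    exact MeasurableSet.univ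
  · have : {t : ℝ | |s.im - t| ≤ r * Real.log T → |s.re - 1 / 2| ≤ D * LL T / Real.log T} =
        {t : ℝ | |s.im - t| ≤ r * Real.log T}ᶜ := by
      ext t
      simp only [Set.mem_ofPred_eq, Set.mem_compl_iff]
      constructor
      · intro h h2; exact hs (h h2)
      · intro h h2; exact absurd h2 h
    rw [this]
    refine MeasurableSet.compl ?_
    exact (isClosed_le (by fun_prop) continuous_const).measurableSet

open Classical in
/-- the zeros far from the line -/
def farZ (D T T' : ℝ) : Finset ℂ :=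
  (Zf riemannZeta T' (2 * T')).filter (fun s => D * LL T / Real.log T < |s.re - 1 / 2|)

lemma far_card {κ C : ℝ} (hκ : 0 < κ) {D T T' : ℝ} (hT' : 1 ≤ T') (hL : 0 < Real.log T) (hD : 0 < D)
    (hLL : 0 ≤ LL T) (hT : Real.log T / 2 ≤ Real.log T')
    (h : ∑ s ∈ Zf riemannZeta T' (2 * T'), (mult riemannZeta s : ℝ) *
      Real.exp (κ * (|(zz s).im| * Real.log T')) ≤ C * (T' * Real.log T')) :
    ((farZ D T T').card : ℝ) * Real.exp (κ * D * LL T / 2) ≤ C * (T' * Real.log T') := by
  classical
  refine le_trans ?_ h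
  calc ((farZ D T T').card : ℝ) * Real.exp (κ * D * LL T / 2) =
      ∑ s ∈ farZ D T T', Real.exp (κ * D * LL T / 2) := by rw [Finset.sum_const, nsmul_eq_mul]
    _ ≤ ∑ s ∈ farZ D T T', (mult riemannZeta s : ℝ) * Real.exp (κ * (|(zz s).im| * Real.log T')) := by
        refine Finset.sum_le_sum fun s hs => ?_
        unfold farZ at hs
        rw [Finset.mem_filter, mem_Zf good_zeta hT'] at hs
        obtain ⟨⟨a1, a2, a3, a4, a5⟩, hs2⟩ := hs
        have hm : (1:ℝ) ≤ mult riemannZeta s := by
          exact_mod_cast Loc.mult_pos' good_zeta (by linarith) a5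
        have h1 : κ * D * LL T / 2 ≤ κ * (|(zz s).im| * Real.log T') := by
          rw [zz_im, abs_neg]
          have h2 : D * LL T / Real.log T * (Real.log T / 2) ≤ |s.re - 1 / 2| * Real.log T' :=
            mul_le_mul hs2.le hT (by linarith) (abs_nonneg _)
          have e : D * LL T / Real.log T * (Real.log T / 2) = D * LL T / 2 := by field_simp
          rw [e] at h2
          have h3 := mul_le_mul_of_nonneg_left h2 hκ.le
          calc κ * D * LL T / 2 = κ * (D * LL T / 2) := by ring
            _ ≤ _ := h3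
        calc Real.exp (κ * D * LL T / 2) ≤ Real.exp (κ * (|(zz s).im| * Real.log T')) := Real.exp_le_exp.2 h1
          _ ≤ _ := le_mul_of_one_le_left (Real.exp_pos _).le hm
    _ ≤ _ := Finset.sum_le_sum_of_subset_of_nonneg (Finset.filter_subset _ _) fun s _ _ => by positivity

theorem t_G1M : P_G1M := by
  classical
  intro r A' hr hA'
  obtain ⟨κ, C, T0, hκ, hC, hT0, hdens⟩ := TH803UC.dens_zeta
  refine ⟨2 * (A' + 3) / κ, by positivity, fun D hD => ?_⟩
  have hD0 : 0 < D := lt_of_lt_of_le (by positivity) hD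
  have hκD : A' + 3 ≤ κ * D / 2 := by
    rw [div_le_iff₀ hκ] at hD
    linarith
  have hlogT : ∀ᶠ T : ℝ in atTop, r * Real.log T ≤ T / 4 := by
    have h1 := Real.isLittleO_log_id_atTop.def (c := 1 / (4 * r)) (by positivity)
    filter_upwards [h1, eventually_ge_atTop 1] with T hT hT1
    rw [Real.norm_eq_abs, Real.norm_eq_abs, id, abs_of_pos (by linarith : 0 < T)] at hT
    have h2 := (le_abs_self (Real.log T)).trans hT
    calc r * Real.log T ≤ r * (1 / (4 * r) * T) := mul_le_mul_of_nonneg_left h2 hr.le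
      _ = T / 4 := by field_simp
  filter_upwards [hlogT, eventually_ge_atTop (2 * T0), Real.tendsto_log_atTop.eventually_ge_atTop (24 * r * C),
    Real.tendsto_log_atTop.eventually_ge_atTop 2] with T hrL hT hL1 hL2
  refine ⟨G1_meas r D T, ?_⟩
  have hT20 : 20 ≤ T := by linarith
  have hT0' : 0 < T := by linarith
  set L := Real.log T with hL
  have hL0 : 0 < L := by linarith
  have hlog2 : Real.log 2 ≤ 1 := by linarith [Real.log_two_lt_d9]
  have hLL0 : 0 ≤ LL T := Real.log_nonneg (by rw [← hL]; linarith)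
  -- the three blocks
  have hlh : Real.log (T / 2) = L - Real.log 2 := Real.log_div hT0'.ne' (by norm_num)
  have hl2 : Real.log (2 * T) = Real.log 2 + L := Real.log_mul (by norm_num) hT0'.ne'
  have hl20 : 0 ≤ Real.log 2 := Real.log_nonneg (by norm_num)
  have c1 := far_card hκ (D := D) (T := T) (T' := T / 2) (by linarith) hL0 hD0 hLL0
    (by rw [hlh, ← hL]; linarith) (hdens (T / 2) (by linarith))
  have c2 := far_card hκ (D := D) (T := T) (T' := T) (by linarith) hL0 hD0 hLL0
    (by rw [← hL]; linarith) (hdens T (by linarith))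
  have c3 := far_card hκ (D := D) (T := T) (T' := 2 * T) (by linarith) hL0 hD0 hLL0
    (by rw [hl2, ← hL]; linarith) (hdens (2 * T) (by linarith))
  set Ex := Real.exp (κ * D * LL T / 2) with hEx
  have hEx0 : 0 < Ex := Real.exp_pos _
  have b1 : C * (T / 2 * Real.log (T / 2)) ≤ 4 * (C * (T * L)) := by
    rw [hlh]
    have : T / 2 * (L - Real.log 2) ≤ T * L := by nlinarith
    have h0 : 0 ≤ C * (T * L) := by positivity
    nlinarith
  have b2 : C * (T * Real.log T) ≤ 4 * (C * (T * L)) := by
    rw [← hL]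
    have h0 : 0 ≤ C * (T * L) := by positivity
    linarith
  have b3 : C * (2 * T * Real.log (2 * T)) ≤ 4 * (C * (T * L)) := by
    rw [hl2]
    have : 2 * T * (Real.log 2 + L) ≤ 4 * (T * L) := by nlinarith
    nlinarith
  set Bz := (farZ D T (T / 2) ∪ farZ D T T) ∪ farZ D T (2 * T) with hBz
  have hcard : (Bz.card : ℝ) * Ex ≤ 12 * (C * (T * L)) := by
    have h1 : (Bz.card : ℝ) ≤ (farZ D T (T / 2)).card + (farZ D T T).card + (farZ D T (2 * T)).card := by
      have h2 := Finset.card_union_le (farZ D T (T / 2) ∪ farZ D T T) (farZ D T (2 * T))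
      have h3 := Finset.card_union_le (farZ D T (T / 2)) (farZ D T T)
      exact_mod_cast h2.trans (by omega)
    calc (Bz.card : ℝ) * Ex ≤ ((farZ D T (T / 2)).card + (farZ D T T).card + (farZ D T (2 * T)).card) * Ex :=
          mul_le_mul_of_nonneg_right h1 hEx0.le
      _ = (farZ D T (T / 2)).card * Ex + (farZ D T T).card * Ex + (farZ D T (2 * T)).card * Ex := by ring
      _ ≤ _ := by linarith
  -- covering
  have hcov : Set.Icc T (2 * T) \ G1 r D T ⊆ ⋃ s ∈ Bz, Set.Icc (s.im - r * L) (s.im + r * L) := by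
    intro t ht
    obtain ⟨⟨ht1, ht2⟩, ht3⟩ := ht
    simp only [G1, Set.mem_ofPred_eq, not_forall] at ht3
    obtain ⟨s, hs0, hs1, hs2, hs3, hs4⟩ := ht3
    push Not at hs4
    rw [← hL] at hs3 hs4
    have hs5 := abs_le.1 hs3
    rw [Set.mem_iUnion₂]
    refine ⟨s, ?_, ⟨by linarith [hs5.2], by linarith [hs5.1]⟩⟩
    rw [hBz, Finset.mem_union, Finset.mem_union]
    unfold farZ
    simp only [Finset.mem_filter]
    rw [mem_Zf good_zeta (by linarith), mem_Zf good_zeta (by linarith), mem_Zf good_zeta (by linarith)]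
    rcases le_or_gt s.im T with h | h
    · left; left
      exact ⟨⟨hs1, hs2, by linarith [hs5.1], by linarith, hs0⟩, hs4⟩
    · rcases le_or_gt s.im (2 * T) with h' | h'
      · left; right
        exact ⟨⟨hs1, hs2, h, h', hs0⟩, hs4⟩
      · right
        exact ⟨⟨hs1, hs2, h', by linarith [hs5.2], hs0⟩, hs4⟩
  have hmeas : volume.real (Set.Icc T (2 * T) \ G1 r D T) ≤ Bz.card * (2 * (r * L)) := by
    refine (measureReal_mono hcov ?_).trans ?_
    · refine (measure_biUnion_lt_top Bz.finite_toSet fun s _ => ?_).ne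
      simp
    · refine (measureReal_biUnion_finset_le Bz _).trans ?_
      refine le_of_eq ?_
      rw [Finset.sum_congr rfl fun s _ => ?_, Finset.sum_const, nsmul_eq_mul]
      rw [Real.volume_real_Icc_of_le (by nlinarith)]
      ring
  refine hmeas.trans ?_
  have hLA : 0 < L ^ A' := Real.rpow_pos_of_pos hL0 _
  rw [le_div_iff₀ hLA]
  -- the exponential
  have hE1 : L ^ (A' + 3) ≤ Ex := by
    rw [hEx, Real.rpow_def_of_pos hL0, Real.exp_le_exp]
    have h1 : Real.log L = LL T := rfl
    rw [h1]
    calc LL T * (A' + 3) ≤ LL T * (κ * D / 2) := mul_le_mul_of_nonneg_left hκD hLL0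
      _ = _ := by ring
  have hE2 : L ^ (A' + 3) = L ^ A' * L ^ 3 := by
    rw [Real.rpow_add hL0]
    norm_cast
  have h1 : Bz.card * (2 * (r * L)) * L ^ A' * Ex ≤ T * Ex := by
    calc Bz.card * (2 * (r * L)) * L ^ A' * Ex = (Bz.card * Ex) * (2 * (r * L) * L ^ A') := by ring
      _ ≤ (12 * (C * (T * L))) * (2 * (r * L) * L ^ A') :=
          mul_le_mul_of_nonneg_right hcard (by positivity)
      _ = T * ((24 * r * C) * (L ^ A' * L ^ 2)) := by ring
      _ ≤ T * (L * (L ^ A' * L ^ 2)) := by gcongr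
      _ = T * (L ^ A' * L ^ 3) := by ring
      _ ≤ T * Ex := by
          rw [← hE2]
          exact mul_le_mul_of_nonneg_left hE1 hT0'.le
  exact le_of_mul_le_mul_right h1 hEx0

end

end Pool.Agent.Y745.LD
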