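import Pool.Agent.Y745.SW.DefsA

set_option autoImplicit false

/-!
LD project (helper745, MP_6bc78b_nt): large deviations of the derivative at the simple zeros of Hardy's function.
Part A: the weight and statements that need only Mathlib.

Goal: for every real `κ` and `ε > 0` at least `T (log T)^(1 - κ² - ε)` simple zeros `t` of `Z` in `[T, 2T]` satisfy
`(log T)^(1 + κ - ε) ≤ |Z'(t)| ≤ (log T)^(1 + κ + ε)`. The measure `dt` is replaced by `V(t) dt`, where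
`V = |exp (κ P)|²` (truncated exponential series) and `P` is the sum of `p^{-1/2-it}` over the primes
`p ≤ exp((log T)^c)`, `c < 1` near `1`. `V` is almost constant on intervals of length `(log T)^(-c-)`, which contain
many zeros.
-/

namespace Pool.Agent.Y745.LD

open Filter Topology MeasureTheory Complex Pool.Agent.Y745.SW

noncomputable section

/-- `log log T` -/
def LL (T : ℝ) : ℝ := Real.log (Real.log T)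

/-- the bound for the primes, `exp ((log T)^c)` -/
def yc (c T : ℝ) : ℝ := Real.exp (Real.log T ^ c)

/-- the primes `p ≤ exp ((log T)^c)` -/
def Pr (c T : ℝ) : Finset ℕ := (Finset.Icc 1 ⌊yc c T⌋₊).filter Nat.Prime

/-- the sum of `p^{-1/2-it}` over these primes -/
def Pc (c T t : ℝ) : ℂ := Py (yc c T) t

/-- the sum of `1/p` over these primes -/
def sc (c T : ℝ) : ℝ := ∑ p ∈ Pr c T, (1 / (p : ℝ))

/-- truncated exponential series -/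
def tex (K : ℕ) (z : ℂ) : ℂ := ∑ j ∈ Finset.range (K + 1), z ^ j / (j.factorial : ℂ)

/-- the number of terms -/
def KA (A T : ℝ) : ℕ := ⌈A * LL T⌉₊

/-- the Dirichlet polynomial for `exp (κ P)` -/
def Qk (κ c A T t : ℝ) : ℂ := tex (KA A T) ((κ : ℂ) * Pc c T t)

/-- the weight -/
def V (κ c A T t : ℝ) : ℝ := ‖Qk κ c A T t‖ ^ 2

/-- the total weight -/
def IV (κ c A T : ℝ) : ℝ := ∫ t in T..(2 * T), V κ c A T t

/-- VM1: the total weight, the mean square of the weight, the weight near the ends -/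
def P_VM1 : Prop := ∀ κ c : ℝ, 0 < c → c < 1 → ∃ A0 : ℝ, ∀ A : ℝ, A0 ≤ A → ∃ C : ℝ, 1 ≤ C ∧ ∀ᶠ T : ℝ in atTop,
  |sc c T - c * LL T| ≤ C ∧
  T * Real.exp (κ ^ 2 * sc c T) ≤ C * IV κ c A T ∧
  ∫ t in T..(2 * T), V κ c A T t ^ 2 ≤ C * (T * Real.exp (4 * κ ^ 2 * sc c T)) ∧
  ∀ t ∈ Set.Icc T (2 * T), V κ c A T t ≤ T ^ (1 / 4 : ℝ)

/-- VMR: mean squares of Dirichlet polynomials supported on integers without prime factors `≤ yc` -/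
def P_VMR : Prop := ∀ κ c A ε δ : ℝ, 0 < c → c < 1 → 0 < ε → 0 < δ → ∀ᶠ T : ℝ in atTop,
  ∀ X : ℕ, (X : ℝ) ≤ T ^ (1 - ε) → ∀ b : ℕ → ℂ, (∀ n p : ℕ, b n ≠ 0 → p.Prime → p ∣ n → yc c T < p) →
    ∫ t in T..(2 * T), V κ c A T t * ‖∑ n ∈ Finset.Icc 1 X, b n * (n : ℂ) ^ (-(t : ℂ) * I)‖ ^ 2 ≤
      (1 + δ) * IV κ c A T * ∑ n ∈ Finset.Icc 1 X, ‖b n‖ ^ 2

/-- VMS: mean squares of sums over the small primes -/
def P_VMS : Prop := ∀ κ c : ℝ, 0 < c → c < 1 → ∃ A0 : ℝ, ∀ A : ℝ, A0 ≤ A → ∃ C : ℝ, 1 ≤ C ∧ ∀ᶠ T : ℝ in atTop,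
  ∀ b : ℕ → ℂ, ∫ t in T..(2 * T), V κ c A T t * ‖∑ p ∈ Pr c T, b p * (p : ℂ) ^ (-(t : ℂ) * I)‖ ^ 2 ≤
    C * IV κ c A T * ((∑ p ∈ Pr c T, ‖b p‖ / Real.sqrt p) ^ 2 + ∑ p ∈ Pr c T, ‖b p‖ ^ 2)

/-- VMT: with the weight, the sum over the small primes is near `κ Σ 1/p` -/
def P_VMT : Prop := ∀ κ c : ℝ, 0 < c → c < 1 → ∃ A0 : ℝ, ∀ A : ℝ, A0 ≤ A → ∃ C : ℝ, 1 ≤ C ∧ ∀ᶠ T : ℝ in atTop,
  ∫ t in T..(2 * T), V κ c A T t * ‖Pc c T t - ((κ * sc c T : ℝ) : ℂ)‖ ^ 2 ≤ C * LL T * IV κ c A T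

/-- PW: the truncated exponential is accurate where `P` is not extremely large -/
def P_PW : Prop := ∀ κ A0 : ℝ, 0 < A0 → ∃ A1 : ℝ, ∀ A : ℝ, A1 ≤ A → ∀ᶠ T : ℝ in atTop, ∀ z : ℂ, ‖z‖ ≤ A0 * LL T →
  ‖tex (KA A T) ((κ : ℂ) * z) - cexp ((κ : ℂ) * z)‖ ≤ 1 / 2 * Real.exp (κ * z.re)

/-- the points near which `P` is not extremely large and is almost constant -/
def G2 (A0 c e T : ℝ) : Set ℝ := {t : ℝ | ∀ u : ℝ, |u| ≤ Real.log T ^ (e - 1) →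
  ‖Pc c T (t + u)‖ ≤ A0 * LL T ∧ ‖Pc c T (t + u) - Pc c T t‖ ≤ 1}

/-- G2M: almost all points are of this kind -/
def P_G2M : Prop := ∀ c e A' : ℝ, 0 < c → c < 1 → 0 < e → e < 1 - c → 0 < A' → ∃ A0 : ℝ, 0 < A0 ∧
  ∀ A1 : ℝ, A0 ≤ A1 → ∀ᶠ T : ℝ in atTop, MeasurableSet (G2 A1 c e T) ∧
    volume.real (Set.Icc T (2 * T) \ G2 A1 c e T) ≤ T / Real.log T ^ A'

/-- KER2: window functions with a Lipschitz condition -/
def P_KER2 : Prop := ∀ j : ℕ, ∃ C : ℝ, 1 ≤ C ∧ ∀ N : ℝ, 1 ≤ N → ∃ B : ℝ → ℝ, Wf j C N B ∧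
  ∀ ξ ξ' : ℝ, |B ξ - B ξ'| ≤ C * N ^ 2 * |ξ - ξ'|

/-- DFU: the sum of the squares of the coefficients, uniformly in the window function -/
def P_DFU : Prop := ∀ R : ℝ → ℝ, Continuous R → (∀ x ∈ Set.Icc (0:ℝ) 1, 0 ≤ R x) →
  (∃ K : ℝ, ∀ x y : ℝ, |R x - R y| ≤ K * |x - y|) → ∃ C : ℝ, 0 < C ∧
  ∀ ε τ η1 CB e : ℝ, 0 < ε → ε < 1 / 2 → 0 < τ → τ ≤ ε / 4 → 4 * τ ≤ η1 → η1 ≤ 1 → 1 ≤ CB → 0 < e → e ≤ 1 / 8 →
  ∀ᶠ T : ℝ in atTop, ∀ (B : ℝ → ℝ) (N : ℝ), Continuous B → (∀ ξ, B (-ξ) = B ξ) → 1 ≤ N → N ≤ Real.log T ^ e →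
    (∀ ξ, |B ξ| ≤ CB * N) → (∀ ξ ξ', |B ξ - B ξ'| ≤ CB * N ^ 2 * |ξ - ξ'|) →
    (∫ ξ in (-1:ℝ)..1, B ξ ^ 2) ≤ N / Real.pi →
    2 * ∫ y in η1..1, R y * ∑ n ∈ Finset.Icc 1 (XT ε T), (ArithmeticFunction.vonMangoldt n *
        ((Real.sqrt n)⁻¹ * Gp B (τ * Real.log T) ((1 - ε) * Real.log T * y) (Real.log n))) ^ 2 ≤
      2 * (1 - ε) / (Real.pi * τ) * (∫ x in (0:ℝ)..1, x * R x) * N + C * N

/-- VDQ: the weighted mean of the prime sums of large frequency -/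
def P_VDQ : Prop := ∀ R : ℝ → ℝ, Continuous R → (∀ x ∈ Set.Icc (0:ℝ) 1, 0 ≤ R x) → ∀ κ c A ε τ δ : ℝ,
  0 < c → c < 1 → 0 < ε → ε < 1 / 2 → 0 < τ → τ ≤ ε / 4 → 0 < δ → ∀ᶠ T : ℝ in atTop,
  ∀ (B : ℝ → ℝ) (cc : ℕ → ℂ), Continuous B → (∀ ξ, |B ξ| ≤ Real.log T) →
    (∀ n, ‖cc n‖ ≤ ArithmeticFunction.vonMangoldt n) →
    ∫ t in T..(2 * T), V κ c A T t * Dq R cc B ε τ (4 * τ) T t ≤
      (1 + δ) * IV κ c A T * (1 + 2 * ∫ y in (4 * τ)..1, R y * ∑ n ∈ Finset.Icc 1 (XT ε T),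
        (ArithmeticFunction.vonMangoldt n *
          ((Real.sqrt n)⁻¹ * Gp B (τ * Real.log T) ((1 - ε) * Real.log T * y) (Real.log n))) ^ 2)

end

end Pool.Agent.Y745.LD
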