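import Pool.Agent.Y745.LD.Asm2
import Pool.Agent.Y745.LD.CNT2
import Pool.Agent.Y745.LD.G1M
import Pool.Agent.Y363.LD.PW
import Pool.Agent.Y786.LD.KER2
import Pool.Agent.Y210.LD.EFU
import Pool.Agent.Y290.LD.DFU
import Pool.Agent.Y447.LD.VMR
import Pool.Agent.Y931.LD.VM1
import Pool.Agent.Y665.LD.VMS
import Pool.Agent.Y949.LD.G2M
import Pool.Agent.Y811.LD.VDQ
import Pool.Agent.Y732.LD.VSM
import Pool.Agent.Y871.LD.COST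
import Pool.Agent.Y179.LD.Z1
import Pool.Agent.Y363.LD.ZL2
import Pool.Agent.Y674.LD.Z3
import Pool.Agent.Y914.LD.ZUP
import Pool.Agent.Y448.LD.LOW
import Pool.Agent.Y954.LD.DERV
import Pool.Agent.Y840.SW.MVB
import Pool.Agent.Y655.SW.Har
import Pool.Agent.Y655.SW.Trk
import Pool.Agent.Y833.SW.Di
import Pool.Agent.Y627.SW.MN

set_option autoImplicit false

/-! LD project: assembly. -/

namespace Pool.Agent.Y745.LD

open Filter Topology MeasureTheory Complex H370 Pool.Agent.Y745.SW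

noncomputable section

theorem a_MVB : P_MVB := Pool.Agent.Y840.SW.t_MVB

theorem a_VM1 : P_VM1 := Pool.Agent.Y931.LD.t_VM1 a_MVB

theorem a_VMR : P_VMR := Pool.Agent.Y447.LD.t_VMR a_MVB

theorem a_VMS : P_VMS := Pool.Agent.Y665.LD.t_VMS a_MVB a_VM1

theorem a_VMT : P_VMT := Pool.Agent.Y665.LD.t_VMT a_MVB a_VM1

theorem a_G2M : P_G2M := Pool.Agent.Y949.LD.t_G2M a_MVB

theorem a_VDQ : P_VDQ := Pool.Agent.Y811.LD.t_VDQ a_VMR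

theorem a_EFU : P_EFU := Pool.Agent.Y210.LD.t_EFU

theorem a_VSM : P_VSM := Pool.Agent.Y732.LD.t_VSM a_VMR a_VMS a_EFU

theorem a_CNT2 : P_CNT2 := t_CNT2 a_VSM

theorem a_ZL2 : P_ZL2 := Pool.Agent.Y363.LD.t_ZL2 a_MVB a_VM1 a_VMR a_VMS Pool.Agent.Y179.LD.t_Z1

theorem a_LOW : P_LOW := Pool.Agent.Y448.LD.t_LOW a_VM1 a_VMT Pool.Agent.Y363.LD.t_PW a_G2M t_G1M a_ZL2
  Pool.Agent.Y674.LD.t_Z3

theorem a_DERV : P_DERV := Pool.Agent.Y954.LD.t_DERV a_VM1 a_VMT Pool.Agent.Y363.LD.t_PW a_LOW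
  Pool.Agent.Y914.LD.t_ZUP Pool.Agent.Y655.SW.t_HAR

theorem a_VBLK : P_VBLK := vblk Pool.Agent.Y833.SW.t_DI Pool.Agent.Y655.SW.t_TRK Pool.Agent.Y627.SW.t_MN good_zeta
  Pool.Agent.Y786.LD.t_KER2 Pool.Agent.Y290.LD.t_DFU a_VDQ a_EFU a_VSM a_CNT2 Pool.Agent.Y871.LD.t_COST

open Classical in
/-- **the number of isolated simple zeros with a derivative of exceptional size** -/
theorem final : ∃ δ : ℝ, 0 < δ ∧ δ ≤ 1 / 10 ∧ ∀ κ ε : ℝ, 0 < ε → ∀ᶠ T : ℝ in atTop,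
    ∃ U1 U2 : ℝ, T ≤ U1 ∧ U1 ≤ T + 1 ∧ 2 * T - 1 ≤ U2 ∧ U2 ≤ 2 * T ∧
    T * Real.log T ^ (1 - κ ^ 2 - ε) ≤
      (((isoS U1 U2 (δ / Real.log T)).filter (fun s => T + 2 ≤ s.im ∧ s.im ≤ 2 * T - 2 ∧
        |Real.log ‖deriv riemannZeta s‖ - (1 + κ) * LL T| ≤ ε * LL T)).card : ℝ) :=
  ld_count a_VBLK a_DERV t_G1M a_G2M a_VM1 a_VMT Pool.Agent.Y363.LD.t_PW

end

end Pool.Agent.Y745.LD
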