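import Pool.Agent.Y745.LD.VB5

set_option autoImplicit false

/-! Masses of exceptional sets. -/

namespace Pool.Agent.Y745.LD

open Filter Topology MeasureTheory Complex H370 Pool.Agent.Y745.SW

noncomputable section

/-- the points where the sum over the small primes is near its tilted mean -/
def GT (κ c ε T : ℝ) : Set ℝ := {t : ℝ | ‖Pc c T t - ((κ * sc c T : ℝ) : ℂ)‖ ≤ ε * LL T}

lemma GT_meas (κ c ε T : ℝ) : MeasurableSet (GT κ c ε T) :=
  (isClosed_le ((Pc_cont c T).sub continuous_const).norm continuous_const).measurableSet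

lemma LL_tendsto : Tendsto (fun T : ℝ => LL T) atTop atTop :=
  Real.tendsto_log_atTop.comp Real.tendsto_log_atTop

/-- the facts provided by VM1 -/
def F1 (κ c A C T : ℝ) : Prop := |sc c T - c * LL T| ≤ C ∧
  T * Real.exp (κ ^ 2 * sc c T) ≤ C * IV κ c A T ∧
  ∫ t in T..(2 * T), V κ c A T t ^ 2 ≤ C * (T * Real.exp (4 * κ ^ 2 * sc c T)) ∧
  ∀ t ∈ Set.Icc T (2 * T), V κ c A T t ≤ T ^ (1 / 4 : ℝ)

lemma mass_bad {κ c A C η A' : ℝ} (hc1 : c < 1) (hC : 1 ≤ C) (hη : 0 < η) (hA' : 3 * κ ^ 2 + 1 ≤ A')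
    (hv : ∀ᶠ T : ℝ in atTop, F1 κ c A C T) :
    ∀ᶠ T : ℝ in atTop, ∀ E : Set ℝ, E ⊆ Set.Icc T (2 * T) → volume.real E ≤ T / Real.log T ^ A' →
      ∫ t in E, V κ c A T t ≤ η * IV κ c A T := by
  have hC0 : 0 < C := by linarith
  set θ : ℝ := η / C ^ 2 with hθ
  have hθ0 : 0 < θ := by positivity
  filter_upwards [hv, Real.tendsto_log_atTop.eventually_ge_atTop (Real.exp (3 * κ ^ 2 * C) * C / (θ * η)),
    LL_tendsto.eventually_ge_atTop 0, Real.tendsto_log_atTop.eventually_ge_atTop 1, eventually_ge_atTop 1]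
    with T hv hL hLL hL1 hT
  intro E hE hvol
  obtain ⟨v1, v2, v3, -⟩ := hv
  set L := Real.log T with hLd
  set s := sc c T with hs
  have hT0 : 0 < T := by linarith
  have hL0 : 0 < L := by linarith
  have hI0 : 0 ≤ IV κ c A T := IV_nonneg κ c A hT0.le
  have hV := V_cont κ c A T
  set lam : ℝ := θ * Real.exp (-(3 * κ ^ 2 * s)) with hlam
  have hlam0 : 0 < lam := by positivity
  have hs0 : 0 ≤ s := by
    rw [hs]; unfold sc
    exact Finset.sum_nonneg fun p _ => by positivity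
  -- the pointwise inequality
  have hi1 : IntegrableOn (fun t => V κ c A T t) E :=
    (hV.continuousOn.integrableOn_compact isCompact_Icc).mono_set hE
  have hi2 : IntegrableOn (fun t => V κ c A T t ^ 2) E :=
    ((hV.pow 2).continuousOn.integrableOn_compact isCompact_Icc).mono_set hE
  have hEf : volume E ≠ ⊤ := ne_top_of_le_ne_top (by simp) (measure_mono hE)
  have hi3 : IntegrableOn (fun _ : ℝ => 1 / (2 * lam)) E := integrableOn_const hEf
  have hi4 : IntegrableOn (fun t => lam / 2 * V κ c A T t ^ 2) E := hi2.const_mul _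
  have hi5 : IntegrableOn (fun t => lam / 2 * V κ c A T t ^ 2 + 1 / (2 * lam)) E := hi4.add hi3
  have h1 : ∫ t in E, V κ c A T t ≤ ∫ t in E, (lam / 2 * V κ c A T t ^ 2 + 1 / (2 * lam)) := by
    refine integral_mono hi1 hi5 fun t => ?_
    simp only
    have h2 : 0 ≤ (lam * V κ c A T t - 1) ^ 2 / (2 * lam) := by positivity
    have h3 : (lam * V κ c A T t - 1) ^ 2 / (2 * lam) =
        lam / 2 * V κ c A T t ^ 2 + 1 / (2 * lam) - V κ c A T t := by
      field_simp
      ring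
    linarith
  rw [integral_add hi4 hi3, integral_const_mul, setIntegral_const, smul_eq_mul] at h1
  have h2 : ∫ t in E, V κ c A T t ^ 2 ≤ C * (T * Real.exp (4 * κ ^ 2 * s)) :=
    (setInt_le (f := fun t => V κ c A T t ^ 2) (hV.pow 2) (fun t => sq_nonneg _) (by linarith) hE).trans v3
  have h3 : lam / 2 * (∫ t in E, V κ c A T t ^ 2) ≤ η / 2 * IV κ c A T := by
    calc lam / 2 * (∫ t in E, V κ c A T t ^ 2) ≤ lam / 2 * (C * (T * Real.exp (4 * κ ^ 2 * s))) :=
          mul_le_mul_of_nonneg_left h2 (by positivity)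
      _ = θ * C / 2 * (T * (Real.exp (-(3 * κ ^ 2 * s)) * Real.exp (4 * κ ^ 2 * s))) := by
          rw [hlam]; ring
      _ = θ * C / 2 * (T * Real.exp (κ ^ 2 * s)) := by
          rw [← Real.exp_add]
          congr 3
          ring
      _ ≤ θ * C / 2 * (C * IV κ c A T) := mul_le_mul_of_nonneg_left v2 (by positivity)
      _ = _ := by rw [hθ]; field_simp
  have h4 : volume.real E * (1 / (2 * lam)) ≤ η / 2 * IV κ c A T := by
    have e1 : Real.exp (3 * κ ^ 2 * s) ≤ L ^ (3 * κ ^ 2) * Real.exp (3 * κ ^ 2 * C) := by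
      have h5 : s ≤ LL T + C := by
        have h6 := (abs_le.1 v1).2
        have h7 : c * LL T ≤ 1 * LL T := mul_le_mul_of_nonneg_right hc1.le hLL
        linarith
      rw [Real.rpow_def_of_pos hL0, ← Real.exp_add, Real.exp_le_exp]
      have h8 : Real.log L = LL T := rfl
      rw [h8]
      have h9 : 0 ≤ 3 * κ ^ 2 := by positivity
      nlinarith [mul_le_mul_of_nonneg_left h5 h9]
    have e2 : L ^ (3 * κ ^ 2) ≤ L ^ A' / L := by
      rw [le_div_iff₀ hL0]
      nth_rewrite 2 [← Real.rpow_one L]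
      rw [← Real.rpow_add hL0]
      exact Real.rpow_le_rpow_of_exponent_le hL1 hA'
    have e3 : T / C ≤ IV κ c A T := by
      rw [div_le_iff₀ hC0]
      have h5 : 1 ≤ Real.exp (κ ^ 2 * s) := Real.one_le_exp (by positivity)
      nlinarith
    have hLA : 0 < L ^ A' := Real.rpow_pos_of_pos hL0 _
    have e4 : 1 / (2 * lam) = Real.exp (3 * κ ^ 2 * s) / (2 * θ) := by
      rw [hlam, Real.exp_neg]
      field_simp
    rw [e4]
    calc volume.real E * (Real.exp (3 * κ ^ 2 * s) / (2 * θ)) ≤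
        (T / L ^ A') * ((L ^ A' / L * Real.exp (3 * κ ^ 2 * C)) / (2 * θ)) := by
          refine mul_le_mul hvol ?_ (by positivity) (by positivity)
          refine div_le_div_of_nonneg_right (e1.trans ?_) (by positivity)
          exact mul_le_mul_of_nonneg_right e2 (Real.exp_pos _).le
      _ = (Real.exp (3 * κ ^ 2 * C) * C / (θ * L)) / 2 * (T / C) := by
          field_simp
      _ ≤ (η / 2) * (T / C) := by
          refine mul_le_mul_of_nonneg_right ?_ (by positivity)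
          refine div_le_div_of_nonneg_right ?_ (by norm_num)
          rw [div_le_iff₀ (by positivity)]
          rw [div_le_iff₀ (by positivity)] at hL
          linarith
      _ ≤ _ := mul_le_mul_of_nonneg_left e3 (by positivity)
  linarith

lemma mass_tilt {κ c A C η ε' : ℝ} (hC : 1 ≤ C) (hη : 0 < η) (hε' : 0 < ε')
    (hv : ∀ᶠ T : ℝ in atTop, ∫ t in T..(2 * T), V κ c A T t * ‖Pc c T t - ((κ * sc c T : ℝ) : ℂ)‖ ^ 2 ≤
      C * LL T * IV κ c A T) :
    ∀ᶠ T : ℝ in atTop, ∫ t in Set.Icc T (2 * T) \ GT κ c ε' T, V κ c A T t ≤ η * IV κ c A T := by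
  filter_upwards [hv, LL_tendsto.eventually_ge_atTop (C / (ε' ^ 2 * η)), eventually_ge_atTop 1] with T hv hLL hT
  have hC0 : 0 < C := by linarith
  have hT0 : 0 < T := by linarith
  have hLL0 : 0 < LL T := lt_of_lt_of_le (by positivity) hLL
  have hI0 : 0 ≤ IV κ c A T := IV_nonneg κ c A hT0.le
  have hV := V_cont κ c A T
  have hPcont : Continuous fun t : ℝ => V κ c A T t * ‖Pc c T t - ((κ * sc c T : ℝ) : ℂ)‖ ^ 2 :=
    hV.mul (((Pc_cont c T).sub continuous_const).norm.pow 2)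
  set E := Set.Icc T (2 * T) \ GT κ c ε' T with hEd
  have hE : E ⊆ Set.Icc T (2 * T) := Set.sdiff_subset
  have hEm : MeasurableSet E := measurableSet_Icc.diff (GT_meas κ c ε' T)
  have hi1 : IntegrableOn (fun t => V κ c A T t) E :=
    (hV.continuousOn.integrableOn_compact isCompact_Icc).mono_set hE
  have hi2 : IntegrableOn (fun t => V κ c A T t * ‖Pc c T t - ((κ * sc c T : ℝ) : ℂ)‖ ^ 2) E :=
    (hPcont.continuousOn.integrableOn_compact isCompact_Icc).mono_set hE
  have hm0 : 0 < (ε' * LL T) ^ 2 := by positivity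
  have h1 : (ε' * LL T) ^ 2 * ∫ t in E, V κ c A T t ≤
      ∫ t in E, V κ c A T t * ‖Pc c T t - ((κ * sc c T : ℝ) : ℂ)‖ ^ 2 := by
    rw [← integral_const_mul]
    refine setIntegral_mono_on (hi1.const_mul _) hi2 hEm fun t ht => ?_
    have h2 : ε' * LL T ≤ ‖Pc c T t - ((κ * sc c T : ℝ) : ℂ)‖ := by
      by_contra hcon
      push Not at hcon
      exact ht.2 (show ‖Pc c T t - ((κ * sc c T : ℝ) : ℂ)‖ ≤ ε' * LL T from hcon.le)
    have h3 : (ε' * LL T) ^ 2 ≤ ‖Pc c T t - ((κ * sc c T : ℝ) : ℂ)‖ ^ 2 :=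
      pow_le_pow_left₀ (by positivity) h2 2
    rw [mul_comm]
    exact mul_le_mul_of_nonneg_left h3 (V_nonneg κ c A T t)
  have h2 : ∫ t in E, V κ c A T t * ‖Pc c T t - ((κ * sc c T : ℝ) : ℂ)‖ ^ 2 ≤ C * LL T * IV κ c A T :=
    (setInt_le hPcont (fun t => mul_nonneg (V_nonneg κ c A T t) (by positivity)) (by linarith) hE).trans hv
  have h3 : C * LL T * IV κ c A T ≤ (ε' * LL T) ^ 2 * (η * IV κ c A T) := by
    rw [div_le_iff₀ (by positivity)] at hLL
    calc C * LL T * IV κ c A T ≤ (LL T * (ε' ^ 2 * η)) * LL T * IV κ c A T := by gcongr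
      _ = _ := by ring
  exact le_of_mul_le_mul_left (h1.trans (h2.trans h3)) hm0

/-- powers of the logarithm are smaller than `T` -/
lemma ev_log_pow (K p : ℝ) : ∀ᶠ T : ℝ in atTop, K * Real.log T ^ p ≤ T := by
  have h1 := (isLittleO_log_rpow_rpow_atTop p (show (0:ℝ) < 1 by norm_num)).def (c := 1 / (|K| + 1)) (by positivity)
  filter_upwards [h1, eventually_ge_atTop 1, Real.tendsto_log_atTop.eventually_ge_atTop 1] with T h2 hT hL
  rw [Real.rpow_one, Real.norm_eq_abs, Real.norm_eq_abs, abs_of_pos (by linarith : 0 < T),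
    abs_of_nonneg (by positivity)] at h2
  have h3 : |K| * Real.log T ^ p ≤ T := by
    calc |K| * Real.log T ^ p ≤ (|K| + 1) * Real.log T ^ p := by
          gcongr; linarith
      _ ≤ (|K| + 1) * (1 / (|K| + 1) * T) := by gcongr
      _ = T := by field_simp
  have h4 : K * Real.log T ^ p ≤ |K| * Real.log T ^ p := by
    gcongr; exact le_abs_self K
  linarith

lemma int_union_le {f : ℝ → ℝ} (hf : Continuous f) (h0 : ∀ t, 0 ≤ f t) {A B : Set ℝ} (hA : MeasurableSet A)
    (hB : MeasurableSet B) {x y : ℝ} (hAB : A ∪ B ⊆ Set.Icc x y) :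
    ∫ t in A ∪ B, f t ≤ (∫ t in A, f t) + ∫ t in B, f t := by
  have hi : IntegrableOn f (Set.Icc x y) := hf.continuousOn.integrableOn_compact isCompact_Icc
  have h1 : A ∪ B = A ∪ (B \ A) := by rw [Set.union_sdiff_self]
  rw [h1, setIntegral_union disjoint_sdiff_self_right (hB.diff hA)
    (hi.mono_set (Set.subset_union_left.trans hAB))
    (hi.mono_set (Set.sdiff_subset.trans (Set.subset_union_right.trans hAB)))]
  have h2 : ∫ t in B \ A, f t ≤ ∫ t in B, f t :=
    setIntegral_mono_set (hi.mono_set (Set.subset_union_right.trans hAB))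
      (Filter.Eventually.of_forall fun t => h0 t) (Filter.Eventually.of_forall Set.sdiff_subset)
  linarith

/-- the size of the weight where the truncated exponential is accurate -/
lemma V_le_exp {κ c A T t A2 : ℝ} (hPW : ∀ z : ℂ, ‖z‖ ≤ A2 * LL T →
    ‖tex (KA A T) ((κ : ℂ) * z) - cexp ((κ : ℂ) * z)‖ ≤ 1 / 2 * Real.exp (κ * z.re))
    (ht : ‖Pc c T t‖ ≤ A2 * LL T) : V κ c A T t ≤ 9 / 4 * Real.exp (2 * (κ * (Pc c T t).re)) := by
  have h1 := hPW _ ht
  have h2 : ‖Qk κ c A T t‖ ≤ 3 / 2 * Real.exp (κ * (Pc c T t).re) := by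
    have h3 : ‖Qk κ c A T t‖ ≤ ‖cexp ((κ : ℂ) * Pc c T t)‖ +
        ‖tex (KA A T) ((κ : ℂ) * Pc c T t) - cexp ((κ : ℂ) * Pc c T t)‖ := by
      unfold Qk
      calc ‖tex (KA A T) ((κ : ℂ) * Pc c T t)‖ = ‖cexp ((κ : ℂ) * Pc c T t) +
          (tex (KA A T) ((κ : ℂ) * Pc c T t) - cexp ((κ : ℂ) * Pc c T t))‖ := by congr 1; ring
        _ ≤ _ := norm_add_le _ _
    have h4 : ‖cexp ((κ : ℂ) * Pc c T t)‖ = Real.exp (κ * (Pc c T t).re) := by
      rw [Complex.norm_exp]
      simp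
    rw [h4] at h3
    linarith
  unfold V
  calc ‖Qk κ c A T t‖ ^ 2 ≤ (3 / 2 * Real.exp (κ * (Pc c T t).re)) ^ 2 := pow_le_pow_left₀ (norm_nonneg _) h2 2
    _ = 9 / 4 * (Real.exp (κ * (Pc c T t).re) * Real.exp (κ * (Pc c T t).re)) := by ring
    _ = _ := by rw [← Real.exp_add]; congr 2; ring

end

end Pool.Agent.Y745.LD
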