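import Pool.Agent.Y745.LD.Asm1
import Pool.Agent.Y745.SW.Blk8

set_option autoImplicit false

/-! The count of simple zeros with a derivative of exceptional size. -/

namespace Pool.Agent.Y745.LD

open Filter Topology MeasureTheory Complex H370 Pool.Agent.Y745.SW

noncomputable section

/-- the mass of the good set -/
lemma good_mass {κ c A C C2 D A2 e2 ε' A' : ℝ} (hc1 : c < 1) (hC : 1 ≤ C) (hC2 : 1 ≤ C2) (hε' : 0 < ε')
    (hA' : 3 * κ ^ 2 + 1 ≤ A') (hv : ∀ᶠ T : ℝ in atTop, F1 κ c A C T)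
    (ht : ∀ᶠ T : ℝ in atTop, ∫ t in T..(2 * T), V κ c A T t * ‖Pc c T t - ((κ * sc c T : ℝ) : ℂ)‖ ^ 2 ≤
      C2 * LL T * IV κ c A T)
    (h1 : ∀ᶠ T : ℝ in atTop, MeasurableSet (G1 1 D T) ∧
      volume.real (Set.Icc T (2 * T) \ G1 1 D T) ≤ T / Real.log T ^ A')
    (h2 : ∀ᶠ T : ℝ in atTop, MeasurableSet (G2 A2 c e2 T) ∧
      volume.real (Set.Icc T (2 * T) \ G2 A2 c e2 T) ≤ T / Real.log T ^ A') :
    ∀ᶠ T : ℝ in atTop, (1 - 1 / 32) * IV κ c A T ≤
      ∫ t in G1 1 D T ∩ G2 A2 c e2 T ∩ GT κ c ε' T ∩ Set.Icc (T + 6 * Real.log T) (2 * T - 6 * Real.log T),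
        V κ c A T t := by
  filter_upwards [mass_bad (η := 1 / 160) hc1 hC (by norm_num) hA' hv,
    mass_tilt (η := 1 / 160) hC2 (by norm_num) hε' ht, h1, h2, ev_log_pow 6 (A' + 1), ev_log_pow 12 1,
    Real.tendsto_log_atTop.eventually_ge_atTop 1, eventually_ge_atTop 1] with T m1 m2 h1 h2 w1 w2 hL hT
  obtain ⟨g1, g1'⟩ := h1
  obtain ⟨g2, g2'⟩ := h2
  set L := Real.log T with hLd
  rw [Real.rpow_one] at w2
  have hL0 : 0 < L := by linarith
  have hT0 : 0 < T := by linarith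
  have hV := V_cont κ c A T
  have hV0 := V_nonneg κ c A T
  have hLA : 0 < L ^ A' := Real.rpow_pos_of_pos hL0 _
  have hvol : 6 * L ≤ T / L ^ A' := by
    rw [le_div_iff₀ hLA]
    rw [Real.rpow_add hL0, Real.rpow_one] at w1
    linarith
  set G := G1 1 D T ∩ G2 A2 c e2 T ∩ GT κ c ε' T ∩ Set.Icc (T + 6 * L) (2 * T - 6 * L) with hG
  have hGT := GT_meas κ c ε' T
  have hGm : MeasurableSet G := ((g1.inter g2).inter hGT).inter measurableSet_Icc
  set E1 := Set.Icc T (2 * T) \ G1 1 D T with hE1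
  set E2 := Set.Icc T (2 * T) \ G2 A2 c e2 T with hE2
  set E3 := Set.Icc T (2 * T) \ GT κ c ε' T with hE3
  set E4 := Set.Icc T (T + 6 * L) with hE4
  set E5 := Set.Icc (2 * T - 6 * L) (2 * T) with hE5
  have s1 : E1 ⊆ Set.Icc T (2 * T) := Set.sdiff_subset
  have s2 : E2 ⊆ Set.Icc T (2 * T) := Set.sdiff_subset
  have s3 : E3 ⊆ Set.Icc T (2 * T) := Set.sdiff_subset
  have s4 : E4 ⊆ Set.Icc T (2 * T) := Set.Icc_subset_Icc le_rfl (by linarith)
  have s5 : E5 ⊆ Set.Icc T (2 * T) := Set.Icc_subset_Icc (by linarith) le_rfl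
  have s0 : G ⊆ Set.Icc T (2 * T) := Set.inter_subset_right.trans (Set.Icc_subset_Icc (by linarith) (by linarith))
  have b1 : ∫ t in E1, V κ c A T t ≤ 1 / 160 * IV κ c A T := m1 E1 s1 g1'
  have b2 : ∫ t in E2, V κ c A T t ≤ 1 / 160 * IV κ c A T := m1 E2 s2 g2'
  have b3 : ∫ t in E3, V κ c A T t ≤ 1 / 160 * IV κ c A T := m2
  have b4 : ∫ t in E4, V κ c A T t ≤ 1 / 160 * IV κ c A T := m1 E4 s4 (by
    rw [hE4, Real.volume_real_Icc_of_le (by linarith)]
    linarith)
  have b5 : ∫ t in E5, V κ c A T t ≤ 1 / 160 * IV κ c A T := m1 E5 s5 (by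
    rw [hE5, Real.volume_real_Icc_of_le (by linarith)]
    linarith)
  have hm1 : MeasurableSet E1 := measurableSet_Icc.diff g1
  have hm2 : MeasurableSet E2 := measurableSet_Icc.diff g2
  have hm3 : MeasurableSet E3 := measurableSet_Icc.diff hGT
  have hm4 : MeasurableSet E4 := measurableSet_Icc
  have hm5 : MeasurableSet E5 := measurableSet_Icc
  have hcov : Set.Icc T (2 * T) = G ∪ (E1 ∪ (E2 ∪ (E3 ∪ (E4 ∪ E5)))) := by
    ext t
    constructor
    · intro ht
      by_cases a1 : t ∈ G1 1 D T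
      · by_cases a2 : t ∈ G2 A2 c e2 T
        · by_cases a3 : t ∈ GT κ c ε' T
          · by_cases a4 : t ≤ T + 6 * L
            · exact Or.inr (Or.inr (Or.inr (Or.inr (Or.inl ⟨ht.1, a4⟩))))
            · by_cases a5 : 2 * T - 6 * L ≤ t
              · exact Or.inr (Or.inr (Or.inr (Or.inr (Or.inr ⟨a5, ht.2⟩))))
              · push Not at a4 a5
                exact Or.inl ⟨⟨⟨a1, a2⟩, a3⟩, ⟨a4.le, a5.le⟩⟩
          · exact Or.inr (Or.inr (Or.inr (Or.inl ⟨ht, a3⟩)))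
        · exact Or.inr (Or.inr (Or.inl ⟨ht, a2⟩))
      · exact Or.inr (Or.inl ⟨ht, a1⟩)
    · rintro (h | h | h | h | h | h)
      · exact s0 h
      · exact s1 h
      · exact s2 h
      · exact s3 h
      · exact s4 h
      · exact s5 h
  have hIV : IV κ c A T = ∫ t in Set.Icc T (2 * T), V κ c A T t := by
    unfold IV
    rw [integral_Icc_eq_integral_Ioc, ← intervalIntegral.integral_of_le (by linarith)]
  have u5 : E4 ∪ E5 ⊆ Set.Icc T (2 * T) := Set.union_subset s4 s5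
  have u4 : E3 ∪ (E4 ∪ E5) ⊆ Set.Icc T (2 * T) := Set.union_subset s3 u5
  have u3 : E2 ∪ (E3 ∪ (E4 ∪ E5)) ⊆ Set.Icc T (2 * T) := Set.union_subset s2 u4
  have u2 : E1 ∪ (E2 ∪ (E3 ∪ (E4 ∪ E5))) ⊆ Set.Icc T (2 * T) := Set.union_subset s1 u3
  have u1 : G ∪ (E1 ∪ (E2 ∪ (E3 ∪ (E4 ∪ E5)))) ⊆ Set.Icc T (2 * T) := Set.union_subset s0 u2
  have n5 := hm4.union hm5
  have n4 := hm3.union n5
  have n3 := hm2.union n4
  have n2 := hm1.union n3
  have i1 := int_union_le hV hV0 hGm n2 u1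
  have i2 := int_union_le hV hV0 hm1 n3 u2
  have i3 := int_union_le hV hV0 hm2 n4 u3
  have i4 := int_union_le hV hV0 hm3 n5 u4
  have i5 := int_union_le hV hV0 hm4 hm5 u5
  rw [← hcov, ← hIV] at i1
  linarith

open Classical in
/-- **the number of isolated simple zeros with a derivative of exceptional size** -/
theorem ld_count (hVBLK : P_VBLK) (hDERV : P_DERV) (hG1M : P_G1M) (hG2M : P_G2M) (hVM1 : P_VM1) (hVMT : P_VMT)
    (hPW : P_PW) : ∃ δ : ℝ, 0 < δ ∧ δ ≤ 1 / 10 ∧ ∀ κ ε : ℝ, 0 < ε → ∀ᶠ T : ℝ in atTop,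
    ∃ U1 U2 : ℝ, T ≤ U1 ∧ U1 ≤ T + 1 ∧ 2 * T - 1 ≤ U2 ∧ U2 ≤ 2 * T ∧
    T * Real.log T ^ (1 - κ ^ 2 - ε) ≤
      (((isoS U1 U2 (δ / Real.log T)).filter (fun s => T + 2 ≤ s.im ∧ s.im ≤ 2 * T - 2 ∧
        |Real.log ‖deriv riemannZeta s‖ - (1 + κ) * LL T| ≤ ε * LL T)).card : ℝ) := by
  have hpi := Real.pi_pos
  obtain ⟨δ, hδ, hδ1, hVB⟩ := hVBLK (1 / 4) (by norm_num) (by norm_num)
  refine ⟨δ, hδ, hδ1, fun κ ε hε => ?_⟩
  set k1 : ℝ := |κ| + 1 with hk1
  have hk0 : 0 < k1 := by positivity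
  set ε' : ℝ := min (1 / 32) (min (ε / 8) (ε / (8 * k1))) with hε'
  have hε'0 : 0 < ε' := by positivity
  have hε'1 : ε' ≤ 1 / 32 := min_le_left _ _
  have hε'2 : ε' ≤ ε / 8 := (min_le_right _ _).trans (min_le_left _ _)
  have hε'3 : |κ| * ε' ≤ ε / 8 := by
    have h1 : ε' ≤ ε / (8 * k1) := (min_le_right _ _).trans (min_le_right _ _)
    calc |κ| * ε' ≤ k1 * (ε / (8 * k1)) := by
          refine mul_le_mul (by rw [hk1]; linarith) h1 hε'0.le hk0.le
      _ = ε / 8 := by field_simp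
  obtain ⟨c0, hc0, hc01, hD⟩ := hDERV κ δ ε' hδ hδ1 hε'0
  set m : ℝ := min (1 / 2) (ε / (8 * k1)) with hm
  have hm0 : 0 < m := by positivity
  have hm1 : m ≤ 1 / 2 := min_le_left _ _
  obtain ⟨c, hcc0, hc1, hcpos, hcκ⟩ : ∃ c : ℝ, c0 ≤ c ∧ c < 1 ∧ 0 < c ∧ |κ| * (1 - c) ≤ ε / 8 := by
    refine ⟨max c0 (1 - m), le_max_left _ _, max_lt hc01 (by linarith), lt_of_lt_of_le hc0 (le_max_left _ _), ?_⟩
    have h1 : 1 - max c0 (1 - m) ≤ m := by
      have := le_max_right c0 (1 - m)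
      linarith
    have h2 : m ≤ ε / (8 * k1) := min_le_right _ _
    have h3 : 0 ≤ 1 - max c0 (1 - m) := by
      have := max_lt hc01 (show 1 - m < 1 by linarith)
      linarith
    calc |κ| * (1 - max c0 (1 - m)) ≤ k1 * (ε / (8 * k1)) := by
          refine mul_le_mul (by rw [hk1]; linarith) (h1.trans h2) h3 hk0.le
      _ = ε / 8 := by field_simp
  set e2 : ℝ := (1 - c) / 2 with he2
  have he20 : 0 < e2 := by rw [he2]; linarith
  have he21 : e2 < 1 - c := by rw [he2]; linarith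
  set e : ℝ := min (1 / 8) ((1 - c) / 4) with he
  have he0 : 0 < e := by rw [he, lt_min_iff]; constructor <;> linarith
  have he8 : e ≤ 1 / 8 := min_le_left _ _
  have he4 : e ≤ (1 - c) / 4 := min_le_right _ _
  have hec : e < 1 - c := by linarith
  have hee : 0 < e2 - e := by rw [he2]; linarith
  set A' : ℝ := 3 * κ ^ 2 + 1 with hA'
  have hA'0 : 0 < A' := by positivity
  obtain ⟨A2, hA20, hG2⟩ := hG2M c e2 A' hcpos hc1 he20 he21 hA'0
  have hG2 := hG2 A2 le_rfl
  obtain ⟨D, hD0, hG1⟩ := hG1M 1 A' one_pos hA'0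
  have hG1 := hG1 D le_rfl
  obtain ⟨Ad, hDd⟩ := hD c hcc0 hc1 A2 hA20
  obtain ⟨Ap, hAp⟩ := hPW κ A2 hA20
  obtain ⟨Ab, hAb⟩ := hVB κ c hcpos hc1
  obtain ⟨Av, hAv⟩ := hVM1 κ c hcpos hc1
  obtain ⟨At, hAt⟩ := hVMT κ c hcpos hc1
  obtain ⟨A, h1, h2, h3, h4, h5⟩ : ∃ A : ℝ, Ad ≤ A ∧ Ap ≤ A ∧ Ab ≤ A ∧ Av ≤ A ∧ At ≤ A := by
    refine ⟨max (max (max Ad Ap) (max Ab Av)) At, ?_, ?_, ?_, ?_, ?_⟩
    · exact ((le_max_left Ad Ap).trans (le_max_left _ _)).trans (le_max_left _ _)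
    · exact ((le_max_right Ad Ap).trans (le_max_left _ _)).trans (le_max_left _ _)
    · exact ((le_max_left Ab Av).trans (le_max_right _ _)).trans (le_max_left _ _)
    · exact ((le_max_right Ab Av).trans (le_max_right _ _)).trans (le_max_left _ _)
    · exact le_max_right _ _
  have hDd := hDd A h1 e2 he20 he21
  have hAp := hAp A h2
  obtain ⟨τ, hτ, hτ1, hAb⟩ := hAb A h3 e D he0 he8 hec hD0
  obtain ⟨C1, hC1, hAv⟩ := hAv A h4
  obtain ⟨C2, hC2, hAt⟩ := hAt A h5
  obtain ⟨cc, hcc, C0, T0, hC0, hT0, hef⟩ := explicit_formula good_zeta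
  have hAb := hAb cc C0 hcc
  have hC10 : 0 < C1 := by linarith
  have hv : ∀ᶠ T : ℝ in atTop, F1 κ c A C1 T := hAv
  have hmass := good_mass hc1 hC1 hC2 hε'0 (le_refl A') hv hAt hG1 hG2
  have v1 := ev_pow_ge (4 / τ) (e2 - e) hee
  have v2 := ev_pow_ge (144 * C1 * Real.exp (κ ^ 2 * C1)) (3 / 4 * ε) (by positivity)
  filter_upwards [hmass, hG1, hG2, hDd, hAp, hAb, hAv, v1, v2,
    LL_tendsto.eventually_ge_atTop (2 * (1 + |κ| * C1) / ε), Real.tendsto_log_atTop.eventually_ge_atTop 1,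
    eventually_ge_atTop T0, eventually_ge_atTop 10]
    with T tm tG1 tG2 tD tP tB tV w1 w2 w3 tL tT0 tT1
  obtain ⟨U1, U2, hU1, hU1', hU2, hU2', heft⟩ := hef T tT0
  refine ⟨U1, U2, hU1, hU1', hU2, hU2', ?_⟩
  have hefd : EFD cc C0 T U1 U2 := ⟨hcc, hU1, hU1', hU2, hU2', heft⟩
  obtain ⟨g1, -⟩ := tG1
  obtain ⟨g2, -⟩ := tG2
  obtain ⟨y1, y2, -, -⟩ := tV
  set L := Real.log T with hL
  have hL0 : 0 < L := by linarith
  have hT0 : 0 < T := by linarith
  have hLLd : Real.log L = LL T := rfl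
  have hLL0 : 0 ≤ LL T := le_trans (by positivity) w3
  have hI0 : 0 ≤ IV κ c A T := IV_nonneg κ c A hT0.le
  have hV := V_cont κ c A T
  have hV0 := V_nonneg κ c A T
  set r := rad e τ T with hr
  have hLe : 1 ≤ L ^ e := Real.one_le_rpow tL he0.le
  have hLe2 : L ^ (e / 2) ≤ L ^ e := Real.rpow_le_rpow_of_exponent_le tL (by linarith)
  have hLe20 : 0 ≤ L ^ (e / 2) := Real.rpow_nonneg hL0.le _
  have hr1 : 1 / L ≤ r := by
    rw [hr]; unfold rad
    rw [div_le_div_iff₀ hL0 (by positivity)]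
    have h6 : τ * L ≤ 1 * L := mul_le_mul_of_nonneg_right hτ1 hL0.le
    have h7 : 1 * L ≤ (L ^ e + L ^ (e / 2)) * L := mul_le_mul_of_nonneg_right (by linarith) hL0.le
    linarith
  have hr0 : 0 < r := lt_of_lt_of_le (by positivity) hr1
  have hr2 : r ≤ 1 / 2 * L ^ (e2 - 1) := by
    rw [hr]; unfold rad
    rw [Real.rpow_sub hL0, Real.rpow_one]
    have h6 : 4 / τ * L ^ e ≤ L ^ e2 := by
      calc 4 / τ * L ^ e ≤ L ^ (e2 - e) * L ^ e := by gcongr
        _ = L ^ e2 := by rw [← Real.rpow_add hL0, sub_add_cancel]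
    rw [div_mul_eq_mul_div, div_le_iff₀ hτ] at h6
    rw [div_le_iff₀ (by positivity)]
    have e1 : 1 / 2 * (L ^ e2 / L) * (τ * L) = L ^ e2 * τ / 2 := by field_simp
    rw [e1]
    linarith
  have hr3 : r ≤ L ^ (e2 - 1) := by
    have : 0 ≤ L ^ (e2 - 1) := Real.rpow_nonneg hL0.le _
    linarith
  have hr4 : r ≤ 1 := hr3.trans (Real.rpow_le_one_of_one_le_of_nonpos tL (by linarith))
  set G := G1 1 D T ∩ G2 A2 c e2 T ∩ GT κ c ε' T ∩ Set.Icc (T + 6 * L) (2 * T - 6 * L) with hG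
  have hGm : MeasurableSet G := ((g1.inter g2).inter (GT_meas κ c ε' T)).inter measurableSet_Icc
  -- the weighted count
  have hblk := tB g1 U1 U2 hefd G hGm (by
    intro t ht
    exact ⟨ht.1.1.1, ⟨by linarith [ht.2.1], by linarith [ht.2.2]⟩⟩) (by
      have e1 : (1:ℝ) - 1 / 4 / 8 = 1 - 1 / 32 := by norm_num
      rw [e1]; exact tm)
  have hbad := tD g2 U1 U2 r hU1 hU1' hU2 hU2' hr1 hr2
  set iso := isoS U1 U2 (δ / L) with hiso
  set bad := iso.filter (fun s => T + 5 * L ≤ s.im ∧ s.im ≤ 2 * T - 5 * L ∧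
      ε' * LL T < |Real.log ‖deriv riemannZeta s‖ - LL T - (Pc c T s.im).re|) with hbadd
  set good := iso.filter (fun s => T + 2 ≤ s.im ∧ s.im ≤ 2 * T - 2 ∧
        |Real.log ‖deriv riemannZeta s‖ - (1 + κ) * LL T| ≤ ε * LL T) with hgood
  set B0 : ℝ := 9 / 2 * r * Real.exp (2 * κ ^ 2 * sc c T + 2 * (|κ| * ε') * LL T) with hB0
  have hB00 : 0 ≤ B0 := by positivity
  have hW : ∀ s ∈ iso, ∫ t in G ∩ Set.Icc (s.im - r) (s.im + r), V κ c A T t ≤
      (if s ∈ bad then ∫ t in G2 A2 c e2 T ∩ Set.Icc (s.im - r) (s.im + r), V κ c A T t else 0) +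
      (if s ∈ good then B0 else 0) := by
    intro s hs
    have hii : IntegrableOn (fun t => V κ c A T t) (Set.Icc (s.im - r) (s.im + r)) :=
      hV.continuousOn.integrableOn_compact isCompact_Icc
    by_cases hsb : s ∈ bad
    · rw [if_pos hsb]
      have h6 : ∫ t in G ∩ Set.Icc (s.im - r) (s.im + r), V κ c A T t ≤
          ∫ t in G2 A2 c e2 T ∩ Set.Icc (s.im - r) (s.im + r), V κ c A T t := by
        refine setIntegral_mono_set (hii.mono_set Set.inter_subset_right)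
          (Filter.Eventually.of_forall fun t => hV0 t) (Filter.Eventually.of_forall ?_)
        intro t ht
        exact ⟨ht.1.1.1.2, ht.2⟩
      have h7 : 0 ≤ (if s ∈ good then B0 else 0) := by split_ifs <;> linarith
      linarith
    · rw [if_neg hsb, zero_add]
      by_cases hne : (G ∩ Set.Icc (s.im - r) (s.im + r)).Nonempty
      · obtain ⟨t0, ⟨⟨⟨a1, a2⟩, a3⟩, a4⟩, a5⟩ := hne
        have hu : |s.im - t0| ≤ r := by rw [abs_le]; constructor <;> linarith [a5.1, a5.2]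
        have hs1 : T + 5 * L ≤ s.im := by linarith [a4.1, a5.2]
        have hs2 : s.im ≤ 2 * T - 5 * L := by linarith [a4.2, a5.1]
        have hs3 : |Real.log ‖deriv riemannZeta s‖ - LL T - (Pc c T s.im).re| ≤ ε' * LL T := by
          by_contra hcon
          push Not at hcon
          exact hsb (by rw [hbadd, Finset.mem_filter]; exact ⟨hs, hs1, hs2, hcon⟩)
        have hP1 := (a2 (s.im - t0) (hu.trans hr3)).2
        rw [show ((t0 : ℝ) + (s.im - t0)) = s.im by ring] at hP1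
        have hP2 : |(Pc c T s.im).re - (Pc c T t0).re| ≤ 1 := by
          have := Complex.abs_re_le_norm (Pc c T s.im - Pc c T t0)
          rw [Complex.sub_re] at this
          exact this.trans hP1
        have hP3 : |(Pc c T t0).re - κ * sc c T| ≤ ε' * LL T := by
          have := Complex.abs_re_le_norm (Pc c T t0 - ((κ * sc c T : ℝ) : ℂ))
          rw [Complex.sub_re, Complex.ofReal_re] at this
          exact this.trans a3
        have hP4 : |κ * sc c T - κ * (c * LL T)| ≤ |κ| * C1 := by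
          rw [← mul_sub, abs_mul]
          exact mul_le_mul_of_nonneg_left y1 (abs_nonneg _)
        have hP5 : |κ * (c * LL T) - κ * LL T| ≤ ε / 8 * LL T := by
          have e1 : κ * (c * LL T) - κ * LL T = -(κ * ((1 - c) * LL T)) := by ring
          rw [e1, abs_neg, abs_mul, abs_of_nonneg (mul_nonneg (by linarith) hLL0)]
          calc |κ| * ((1 - c) * LL T) = (|κ| * (1 - c)) * LL T := by ring
            _ ≤ _ := mul_le_mul_of_nonneg_right hcκ hLL0
        have hsg : s ∈ good := by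
          rw [hgood, Finset.mem_filter]
          refine ⟨hs, by linarith, by linarith, ?_⟩
          rw [div_le_iff₀ hε] at w3
          have q1 := abs_le.1 hs3
          have q2 := abs_le.1 hP2
          have q3 := abs_le.1 hP3
          have q4 := abs_le.1 hP4
          have q5 := abs_le.1 hP5
          have q6 : ε' * LL T ≤ ε / 8 * LL T := mul_le_mul_of_nonneg_right hε'2 hLL0
          rw [abs_le]
          constructor
          · linarith [q1.1, q2.1, q3.1, q4.1, q5.1]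
          · linarith [q1.2, q2.2, q3.2, q4.2, q5.2]
        rw [if_pos hsg]
        -- the size of the weight
        have hbd : ∀ t ∈ G ∩ Set.Icc (s.im - r) (s.im + r), V κ c A T t ≤
            9 / 4 * Real.exp (2 * κ ^ 2 * sc c T + 2 * (|κ| * ε') * LL T) := by
          rintro t ⟨⟨⟨⟨b1, b2⟩, b3⟩, b4⟩, b5⟩
          have h6 := (b2 0 (by rw [abs_zero]; exact Real.rpow_nonneg hL0.le _)).1
          rw [add_zero] at h6
          refine (V_le_exp tP h6).trans ?_
          refine mul_le_mul_of_nonneg_left ?_ (by norm_num)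
          rw [Real.exp_le_exp]
          have h7 : |(Pc c T t).re - κ * sc c T| ≤ ε' * LL T := by
            have := Complex.abs_re_le_norm (Pc c T t - ((κ * sc c T : ℝ) : ℂ))
            rw [Complex.sub_re, Complex.ofReal_re] at this
            exact this.trans b3
          have h8 : κ * ((Pc c T t).re - κ * sc c T) ≤ |κ| * (ε' * LL T) := by
            refine (le_abs_self _).trans ?_
            rw [abs_mul]
            exact mul_le_mul_of_nonneg_left h7 (abs_nonneg _)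
          have e1 : 2 * (κ * (Pc c T t).re) = 2 * κ ^ 2 * sc c T + 2 * (κ * ((Pc c T t).re - κ * sc c T)) := by ring
          rw [e1]
          have e3 : 2 * (|κ| * ε') * LL T = 2 * (|κ| * (ε' * LL T)) := by ring
          rw [e3]
          linarith
        have hGmm : MeasurableSet (G ∩ Set.Icc (s.im - r) (s.im + r)) := hGm.inter measurableSet_Icc
        have hfin : volume (G ∩ Set.Icc (s.im - r) (s.im + r)) ≠ ⊤ :=
          ne_top_of_le_ne_top (by simp) (measure_mono Set.inter_subset_right)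
        calc ∫ t in G ∩ Set.Icc (s.im - r) (s.im + r), V κ c A T t ≤
            ∫ _t in G ∩ Set.Icc (s.im - r) (s.im + r),
              9 / 4 * Real.exp (2 * κ ^ 2 * sc c T + 2 * (|κ| * ε') * LL T) :=
              setIntegral_mono_on (hii.mono_set Set.inter_subset_right) (integrableOn_const hfin) hGmm hbd
          _ = volume.real (G ∩ Set.Icc (s.im - r) (s.im + r)) *
              (9 / 4 * Real.exp (2 * κ ^ 2 * sc c T + 2 * (|κ| * ε') * LL T)) := by
              rw [setIntegral_const, smul_eq_mul]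
          _ ≤ (2 * r) * (9 / 4 * Real.exp (2 * κ ^ 2 * sc c T + 2 * (|κ| * ε') * LL T)) := by
              refine mul_le_mul_of_nonneg_right ?_ (by positivity)
              refine (measureReal_mono Set.inter_subset_right (by simp)).trans ?_
              rw [Real.volume_real_Icc_of_le (by linarith)]
              linarith
          _ = B0 := by rw [hB0]; ring
      · rw [Set.not_nonempty_iff_eq_empty] at hne
        rw [hne, setIntegral_empty]
        split_ifs <;> linarith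
  have hsum := Finset.sum_le_sum hW
  rw [Finset.sum_add_distrib, ← Finset.sum_filter, ← Finset.sum_filter] at hsum
  have hf1 : iso.filter (fun s => s ∈ bad) = bad := by
    rw [hbadd]; ext s; simp only [Finset.mem_filter]; tauto
  have hf2 : iso.filter (fun s => s ∈ good) = good := by
    rw [hgood]; ext s; simp only [Finset.mem_filter]; tauto
  rw [hf1, hf2, Finset.sum_const, nsmul_eq_mul] at hsum
  -- comparison
  have hcM := cMTinv_lt
  have hlow : 1 / 16 * (r * L * IV κ c A T) ≤ (2 - cMTinv - 1 / 4) * (2 * r * (L / (2 * Real.pi)) * IV κ c A T) := by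
    have h6 : 0 ≤ r * L * IV κ c A T := by positivity
    have e1 : (2 - cMTinv - 1 / 4) * (2 * r * (L / (2 * Real.pi)) * IV κ c A T) =
        ((2 - cMTinv - 1 / 4) / Real.pi) * (r * L * IV κ c A T) := by field_simp
    rw [e1]
    refine mul_le_mul_of_nonneg_right ?_ h6
    rw [le_div_iff₀ hpi]
    have := Real.pi_lt_four
    linarith
  have hkey : 1 / 32 * (r * L * IV κ c A T) ≤ good.card * B0 := by
    have h6 : 0 ≤ r * L * IV κ c A T := by positivity
    have h7 : ε' * (r * L * IV κ c A T) ≤ 1 / 32 * (r * L * IV κ c A T) := mul_le_mul_of_nonneg_right hε'1 h6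
    linarith
  -- division by `r`
  have hkey2 : L * IV κ c A T ≤ 144 * good.card * Real.exp (2 * κ ^ 2 * sc c T + 2 * (|κ| * ε') * LL T) := by
    have e1 : 1 / 32 * (r * L * IV κ c A T) = r * (L * IV κ c A T / 32) := by ring
    have e3 : good.card * B0 = r * (9 / 2 * good.card * Real.exp (2 * κ ^ 2 * sc c T + 2 * (|κ| * ε') * LL T)) := by
      rw [hB0]; ring
    rw [e1, e3] at hkey
    have := le_of_mul_le_mul_left hkey hr0
    linarith
  have hkey3 : T * L ≤ 144 * C1 * good.card * Real.exp (κ ^ 2 * sc c T + 2 * (|κ| * ε') * LL T) := by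
    have hE : 0 < Real.exp (κ ^ 2 * sc c T) := Real.exp_pos _
    refine le_of_mul_le_mul_left ?_ hE
    calc Real.exp (κ ^ 2 * sc c T) * (T * L) = L * (T * Real.exp (κ ^ 2 * sc c T)) := by ring
      _ ≤ L * (C1 * IV κ c A T) := mul_le_mul_of_nonneg_left y2 hL0.le
      _ = C1 * (L * IV κ c A T) := by ring
      _ ≤ C1 * (144 * good.card * Real.exp (2 * κ ^ 2 * sc c T + 2 * (|κ| * ε') * LL T)) :=
          mul_le_mul_of_nonneg_left hkey2 hC10.le
      _ = 144 * C1 * good.card * Real.exp (κ ^ 2 * sc c T + (κ ^ 2 * sc c T + 2 * (|κ| * ε') * LL T)) := by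
          rw [show κ ^ 2 * sc c T + (κ ^ 2 * sc c T + 2 * (|κ| * ε') * LL T) =
            2 * κ ^ 2 * sc c T + 2 * (|κ| * ε') * LL T by ring]
          ring
      _ = _ := by rw [Real.exp_add (κ ^ 2 * sc c T)]; ring
  have hexp : Real.exp (κ ^ 2 * sc c T + 2 * (|κ| * ε') * LL T) ≤
      Real.exp (κ ^ 2 * C1) * L ^ (κ ^ 2 + ε / 4) := by
    rw [Real.rpow_def_of_pos hL0, ← Real.exp_add, Real.exp_le_exp, hLLd]
    have h6 : sc c T ≤ LL T + C1 := by
      have h7 := (abs_le.1 y1).2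
      have h8 : c * LL T ≤ 1 * LL T := mul_le_mul_of_nonneg_right hc1.le hLL0
      linarith
    have h7 : κ ^ 2 * sc c T ≤ κ ^ 2 * (LL T + C1) := mul_le_mul_of_nonneg_left h6 (sq_nonneg _)
    have h8 : 2 * (|κ| * ε') * LL T ≤ ε / 4 * LL T := mul_le_mul_of_nonneg_right (by linarith) hLL0
    linarith
  have hkey4 : T * L ≤ (144 * C1 * Real.exp (κ ^ 2 * C1)) * (good.card * L ^ (κ ^ 2 + ε / 4)) := by
    calc T * L ≤ 144 * C1 * good.card * Real.exp (κ ^ 2 * sc c T + 2 * (|κ| * ε') * LL T) := hkey3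
      _ ≤ 144 * C1 * good.card * (Real.exp (κ ^ 2 * C1) * L ^ (κ ^ 2 + ε / 4)) :=
          mul_le_mul_of_nonneg_left hexp (by positivity)
      _ = _ := by ring
  have hkey5 : T * L ≤ L ^ (3 / 4 * ε) * (good.card * L ^ (κ ^ 2 + ε / 4)) := by
    refine hkey4.trans (mul_le_mul_of_nonneg_right w2 ?_)
    have : 0 ≤ L ^ (κ ^ 2 + ε / 4) := Real.rpow_nonneg hL0.le _
    positivity
  have hfin : T * L ^ (1 - κ ^ 2 - ε) * L ^ (κ ^ 2 + ε) ≤ good.card * L ^ (κ ^ 2 + ε) := by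
    calc T * L ^ (1 - κ ^ 2 - ε) * L ^ (κ ^ 2 + ε) = T * (L ^ (1 - κ ^ 2 - ε) * L ^ (κ ^ 2 + ε)) := by ring
      _ = T * L := by
          rw [← Real.rpow_add hL0, show 1 - κ ^ 2 - ε + (κ ^ 2 + ε) = 1 by ring, Real.rpow_one]
      _ ≤ L ^ (3 / 4 * ε) * (good.card * L ^ (κ ^ 2 + ε / 4)) := hkey5
      _ = good.card * (L ^ (3 / 4 * ε) * L ^ (κ ^ 2 + ε / 4)) := by ring
      _ = _ := by rw [← Real.rpow_add hL0]; congr 2; ring
  exact le_of_mul_le_mul_right hfin (Real.rpow_pos_of_pos hL0 _)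

end

end Pool.Agent.Y745.LD
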