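import Pool.Agent.Y745.LD.DefsC
import Pool.Agent.Y745.SW.Blk5

set_option autoImplicit false

/-! The pointwise inequality with a constant zone, measurability, cells. -/

namespace Pool.Agent.Y745.LD

open Filter Topology MeasureTheory Complex H370 TH803UC TH803CL Pool.Agent.Y745.SW

noncomputable section

/-- the pointwise inequality -/
lemma pointwiseV (hDI : P_DI) (hTRK : P_TRK) (hζ : GoodL riemannZeta) {j : ℕ} {C N : ℝ} {B : ℝ → ℝ}
    (hW : Wf j C N B) {a L Λ d η1 th t U1 U2 : ℝ} (hU : 1 ≤ U1) (hΛ : 0 ≤ Λ) (hΛL : Λ ≤ L)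
    (hL : 10 ≤ L) (hd : 0 < d) (hdL : d * L ≤ 1 / 10) (hη0 : 0 ≤ η1) (hη1 : η1 ≤ 1)
    (hker : ∀ u : ℂ, ‖u‖ ≤ 6 * d → ‖kap (Λ * u) - 1‖ ≤ η1) :
    2 * (St B a U1 U2 0 t).re - 2 * ∫ x in (0:ℝ)..1, Rf x * ‖St B a U1 U2 (Λ * x) t‖ ^ 2 ≤
      (((isoS U1 U2 d).filter (fun s => |s.im - t| ≤ th)).card : ℝ) +
      10 * ∑ s ∈ Zf riemannZeta U1 U2, (mult riemannZeta s : ℝ) * cost B a th d η1 L t (zz s) := by
  classical
  set Z := (Zf riemannZeta U1 U2).image zz with hZ
  set m : ℂ → ℕ := fun z => mult riemannZeta (1 / 2 + I * z) with hm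
  have hLpos : 0 < L := by linarith
  have hconj := Zconj' hζ (A := U1) (B := U2) hU
  have hmc := Zmc' hζ (A := U1) (B := U2) hU
  have hmain := hDI Z m (vt B a t) (fun _ => th) Λ L d η1 t hconj (Zpos' hζ hU) hmc
    (fun z => vt_conj hW.cont hW.even a t z) (fun z hz => vt_real hW a t z hz) hΛ hΛL hL hd hdL hη0 hη1 hker
    (fun y h0 hy => rfl)
  -- (1)
  have e1 : ∑ z ∈ Z.filter (fun z => 0 ≤ z.im), cw m z * (vt B a t z).re = (St B a U1 U2 0 t).re := by
    have h := split_real' Z hconj m hmc (fun z => (vt B a t z).re) (fun z => by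
      rw [vt_conj hW.cont hW.even, Complex.conj_re])
    rw [← h]
    unfold St
    rw [hZ, Finset.sum_image (fun s _ s' _ h => zz_inj h), Complex.re_sum]
    refine Finset.sum_congr rfl fun s _ => ?_
    simp only [hm]
    rw [zz_back']
    simp
  -- (2)
  have e2 : ∑ z ∈ Z, ∑ w ∈ Z, (m z : ℂ) * (m w : ℂ) * (vt B a t z * vt B a t w * kap (Λ * (z - w)) ^ 2) =
      ∑ s ∈ Zf riemannZeta U1 U2, ∑ s' ∈ Zf riemannZeta U1 U2, (mult riemannZeta s : ℂ) * (mult riemannZeta s' : ℂ) *
      (vt B a t (zz s) * vt B a t (zz s') * kap (Λ * (zz s - zz s')) ^ 2) := by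
    rw [hZ, Finset.sum_image (fun s _ s' _ h => zz_inj h)]
    refine Finset.sum_congr rfl fun s _ => ?_
    rw [Finset.sum_image (fun s _ s' _ h => zz_inj h)]
    refine Finset.sum_congr rfl fun s' _ => ?_
    simp only [hm]
    rw [zz_back', zz_back']
  -- (3)
  have e3 : ∑ z ∈ Z.filter (fun z => 0 ≤ z.im), cw m z *
      ((if |z.re - t| ≤ (fun _ : ℝ => th) |z.im| + 2 * d then 2 * ‖1 - vt B a t z‖ + η1 else 0) +
        (if |z.re - t| ≤ (fun _ : ℝ => th) |z.im| - 2 * d then 0 else 2 * ‖vt B a t z‖ * Real.exp (|z.im| * L))) =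
      ∑ s ∈ Zf riemannZeta U1 U2, (mult riemannZeta s : ℝ) * cost B a th d η1 L t (zz s) := by
    have h := split_real' Z hconj m hmc (fun z => cost B a th d η1 L t z) (fun z => by
      have h1 : ‖1 - vt B a t ((starRingEnd ℂ) z)‖ = ‖1 - vt B a t z‖ := by
        rw [vt_conj hW.cont hW.even, ← map_one (starRingEnd ℂ), ← map_sub, RCLike.norm_conj, map_one]
      have h2 : ‖vt B a t ((starRingEnd ℂ) z)‖ = ‖vt B a t z‖ := by
        rw [vt_conj hW.cont hW.even, RCLike.norm_conj]
      simp only [cost, Complex.conj_re, Complex.conj_im, abs_neg]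
      rw [h1, h2])
    have h' : ∑ z ∈ Z, (m z : ℝ) * cost B a th d η1 L t z =
        ∑ s ∈ Zf riemannZeta U1 U2, (mult riemannZeta s : ℝ) * cost B a th d η1 L t (zz s) := by
      rw [hZ, Finset.sum_image (fun s _ s' _ h => zz_inj h)]
      refine Finset.sum_congr rfl fun s _ => ?_
      simp only [hm]
      rw [zz_back']
    rw [← h', h]
    rfl
  -- (4)
  have e4 : (((isoP Z m d).filter (fun z => |z.re - t| ≤ (fun _ : ℝ => th) 0)).card : ℝ) ≤
      (((isoS U1 U2 d).filter (fun s => |s.im - t| ≤ th)).card : ℝ) := by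
    have hsub : (isoP Z m d).filter (fun z => |z.re - t| ≤ (fun _ : ℝ => th) 0) ⊆
        ((isoS U1 U2 d).filter (fun s => |s.im - t| ≤ th)).image zz := by
      intro z hz
      rw [Finset.mem_filter] at hz
      obtain ⟨hz1, hz2⟩ := hz
      unfold isoP at hz1
      rw [Finset.mem_filter, hZ, Finset.mem_image] at hz1
      obtain ⟨⟨s, hs, rfl⟩, h1, h2, h3⟩ := hz1
      have h2' : mult riemannZeta (1 / 2 + I * zz s) = 1 := h2
      rw [zz_back'] at h2'
      rw [zz_im] at h1
      refine Finset.mem_image_of_mem _ ?_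
      rw [Finset.mem_filter]
      constructor
      · unfold isoS
        rw [Finset.mem_filter]
        refine ⟨hs, by linarith, h2', fun s' hs' hne => ?_⟩
        have := h3 (zz s') (Finset.mem_image_of_mem _ hs') (fun h => hne (zz_inj h))
        rwa [zz_dist'] at this
      · rwa [zz_re] at hz2
    exact_mod_cast (Finset.card_le_card hsub).trans Finset.card_image_le
  rw [e1, e2, e3, hTRK B a t Λ U1 U2 hW.cont hW.even hU] at hmain
  linarith

/-! ### the weight -/

lemma Pc_cont (c T : ℝ) : Continuous (fun t : ℝ => Pc c T t) := by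
  unfold Pc Py
  refine continuous_finsetSum _ fun p hp => ?_
  have hp0 : (p : ℂ) ≠ 0 := by
    have := (Finset.mem_filter.1 hp).2.ne_zero
    exact_mod_cast this
  exact Continuous.const_cpow (by fun_prop) (Or.inl hp0)

lemma tex_cont (K : ℕ) : Continuous (tex K) := by
  unfold tex
  fun_prop

lemma V_cont (κ c A T : ℝ) : Continuous (fun t : ℝ => V κ c A T t) := by
  unfold V Qk
  exact ((tex_cont _).comp (continuous_const.mul (Pc_cont c T))).norm.pow 2

lemma V_nonneg (κ c A T t : ℝ) : 0 ≤ V κ c A T t := by unfold V; positivity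

lemma IV_nonneg (κ c A : ℝ) {T : ℝ} (hT : 0 ≤ T) : 0 ≤ IV κ c A T :=
  intervalIntegral.integral_nonneg (by linarith) fun t _ => V_nonneg κ c A T t

/-- the integral over a set is at most the total weight -/
lemma setInt_le_IV (κ c A : ℝ) {T : ℝ} (hT : 0 ≤ T) {G : Set ℝ} (hG : G ⊆ Set.Icc T (2 * T)) :
    ∫ t in G, V κ c A T t ≤ IV κ c A T := by
  have h1 : ∫ t in G, V κ c A T t ≤ ∫ t in Set.Icc T (2 * T), V κ c A T t :=
    setIntegral_mono_set ((V_cont κ c A T).continuousOn.integrableOn_compact isCompact_Icc)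
      (Filter.Eventually.of_forall fun t => V_nonneg κ c A T t) (Filter.Eventually.of_forall hG)
  rwa [integral_Icc_eq_integral_Ioc, ← intervalIntegral.integral_of_le (by linarith)] at h1

/-- for a nonnegative continuous function the integral over a subset is at most the integral over the interval -/
lemma setInt_le {f : ℝ → ℝ} (hf : Continuous f) (h0 : ∀ t, 0 ≤ f t) {G : Set ℝ} {x y : ℝ} (hxy : x ≤ y)
    (hG : G ⊆ Set.Icc x y) : ∫ t in G, f t ≤ ∫ t in x..y, f t := by
  have h1 : ∫ t in G, f t ≤ ∫ t in Set.Icc x y, f t :=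
    setIntegral_mono_set (hf.continuousOn.integrableOn_compact isCompact_Icc)
      (Filter.Eventually.of_forall fun t => h0 t) (Filter.Eventually.of_forall hG)
  rwa [integral_Icc_eq_integral_Ioc, ← intervalIntegral.integral_of_le hxy] at h1

/-! ### counting -/

lemma filt_meas (s : ℂ) (α β : ℝ) : MeasurableSet {t : ℝ | t + α ≤ s.im ∧ s.im ≤ t + β} := by
  have h1 : MeasurableSet {t : ℝ | t + α ≤ s.im} := measurableSet_le (by fun_prop) (by fun_prop)
  have h2 : MeasurableSet {t : ℝ | s.im ≤ t + β} := measurableSet_le (by fun_prop) (by fun_prop)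
  exact h1.inter h2

lemma nz_eq (U1 U2 α β t : ℝ) : nz U1 U2 (t + α) (t + β) = ∑ s ∈ Zf riemannZeta U1 U2,
    (mult riemannZeta s : ℝ) * {t : ℝ | t + α ≤ s.im ∧ s.im ≤ t + β}.indicator (fun _ => (1:ℝ)) t := by
  classical
  unfold nz
  rw [Finset.sum_filter]
  refine Finset.sum_congr rfl fun s _ => ?_
  by_cases h : t + α ≤ s.im ∧ s.im ≤ t + β
  · rw [if_pos h, Set.indicator_of_mem (by exact h), mul_one]
  · rw [if_neg h, Set.indicator_of_notMem (by exact h), mul_zero]

lemma nz_nonneg (U1 U2 α β : ℝ) : 0 ≤ nz U1 U2 α β := Finset.sum_nonneg fun _ _ => Nat.cast_nonneg _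

lemma nz_mono {U1 U2 α β α' β' : ℝ} (h1 : α' ≤ α) (h2 : β ≤ β') : nz U1 U2 α β ≤ nz U1 U2 α' β' := by
  classical
  unfold nz
  refine Finset.sum_le_sum_of_subset_of_nonneg ?_ fun _ _ _ => Nat.cast_nonneg _
  intro s hs
  rw [Finset.mem_filter] at hs ⊢
  exact ⟨hs.1, h1.trans hs.2.1, hs.2.2.trans h2⟩

/-- the product with the weight is integrable -/
lemma nz_int {f : ℝ → ℝ} (hf : Continuous f) (U1 U2 α β : ℝ) {G : Set ℝ} {x y : ℝ} (hG : G ⊆ Set.Icc x y) :
    IntegrableOn (fun t => f t * nz U1 U2 (t + α) (t + β)) G := by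
  refine IntegrableOn.mono_set ?_ hG
  have e : (fun t => f t * nz U1 U2 (t + α) (t + β)) = fun t => ∑ s ∈ Zf riemannZeta U1 U2,
      {t : ℝ | t + α ≤ s.im ∧ s.im ≤ t + β}.indicator (fun t => f t * (mult riemannZeta s : ℝ)) t := by
    funext t
    rw [nz_eq, Finset.mul_sum]
    refine Finset.sum_congr rfl fun s _ => ?_
    by_cases h : t ∈ {t : ℝ | t + α ≤ s.im ∧ s.im ≤ t + β}
    · rw [Set.indicator_of_mem h, Set.indicator_of_mem h, mul_one]
    · rw [Set.indicator_of_notMem h, Set.indicator_of_notMem h, mul_zero, mul_zero]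
  rw [e]
  refine integrable_finsetSum _ fun s _ => ?_
  refine Integrable.indicator ?_ (filt_meas s α β)
  exact (hf.mul continuous_const).continuousOn.integrableOn_compact isCompact_Icc

/-- covering by cells -/
lemma nz_cells {U1 U2 α β h t : ℝ} (hh : 0 < h) {n : ℕ} (hn1 : 1 ≤ n) (hn : β - α ≤ 2 * h * n) :
    nz U1 U2 (t + α) (t + β) ≤ ∑ i ∈ Finset.range n, nz U1 U2 (t + (α + (2 * i + 1) * h) - h)
      (t + (α + (2 * i + 1) * h) + h) := by
  classical
  unfold nz
  simp only [Finset.sum_filter]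
  rw [Finset.sum_comm]
  refine Finset.sum_le_sum fun s _ => ?_
  by_cases hs : t + α ≤ s.im ∧ s.im ≤ t + β
  · rw [if_pos hs]
    -- the cell of `s`
    set x := (s.im - t - α) / (2 * h) with hx
    have hx0 : 0 ≤ x := div_nonneg (by linarith [hs.1]) (by linarith)
    have hxs : s.im = t + α + 2 * h * x := by
      rw [hx]; field_simp; ring
    have hxn : x ≤ n := by
      rw [hx, div_le_iff₀ (by linarith)]
      nlinarith [hs.2]
    set i := min ⌊x⌋₊ (n - 1) with hi
    have hin : i ∈ Finset.range n := by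
      rw [Finset.mem_range]
      have : i ≤ n - 1 := min_le_right _ _
      omega
    have h1 : (i : ℝ) ≤ x := by
      have : (i : ℝ) ≤ ⌊x⌋₊ := by exact_mod_cast min_le_left _ _
      exact this.trans (Nat.floor_le hx0)
    have h2 : x ≤ i + 1 := by
      rcases le_total ⌊x⌋₊ (n - 1) with h | h
      · rw [hi, min_eq_left h]
        exact (Nat.lt_floor_add_one x).le
      · rw [hi, min_eq_right h]
        have : ((n - 1 : ℕ) : ℝ) + 1 = n := by
          rw [Nat.cast_sub hn1]; simp
        rw [this]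
        exact hxn
    refine le_trans ?_ (Finset.single_le_sum (f := fun i : ℕ =>
      if t + (α + (2 * (i:ℝ) + 1) * h) - h ≤ s.im ∧ s.im ≤ t + (α + (2 * (i:ℝ) + 1) * h) + h then
        (mult riemannZeta s : ℝ) else 0) (fun i _ => by split_ifs <;> positivity) hin)
    rw [if_pos]
    constructor
    · rw [hxs]; nlinarith
    · rw [hxs]; nlinarith
  · rw [if_neg hs]
    exact Finset.sum_nonneg fun i _ => by split_ifs <;> positivity

/-- the number of isolated points near `t`, integrated -/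
lemma iso_int {f : ℝ → ℝ} (hf : Continuous f) (J : Finset ℂ) (r : ℝ) {G : Set ℝ} {x y : ℝ}
    (hG : G ⊆ Set.Icc x y) :
    IntegrableOn (fun t => f t * ((J.filter (fun s => |s.im - t| ≤ r)).card : ℝ)) G ∧
    ∫ t in G, f t * ((J.filter (fun s => |s.im - t| ≤ r)).card : ℝ) =
      ∑ s ∈ J, ∫ t in G ∩ Set.Icc (s.im - r) (s.im + r), f t := by
  classical
  have e : (fun t => f t * ((J.filter (fun s => |s.im - t| ≤ r)).card : ℝ)) = fun t => ∑ s ∈ J,
      (Set.Icc (s.im - r) (s.im + r)).indicator f t := by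
    funext t
    rw [Finset.card_filter]
    push_cast
    rw [Finset.mul_sum]
    refine Finset.sum_congr rfl fun s _ => ?_
    by_cases h : |s.im - t| ≤ r
    · rw [if_pos h, mul_one, Set.indicator_of_mem]
      rw [abs_le] at h
      exact ⟨by linarith [h.2], by linarith [h.1]⟩
    · rw [if_neg h, mul_zero, Set.indicator_of_notMem]
      rintro ⟨h1, h2⟩
      exact h (abs_le.2 ⟨by linarith, by linarith⟩)
  have hi : ∀ s ∈ J, IntegrableOn (fun t => (Set.Icc (s.im - r) (s.im + r)).indicator f t) G := by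
    intro s _
    refine IntegrableOn.mono_set ?_ hG
    refine Integrable.indicator ?_ measurableSet_Icc
    exact hf.continuousOn.integrableOn_compact isCompact_Icc
  refine ⟨by rw [e]; exact integrable_finsetSum _ hi, ?_⟩
  rw [e, integral_finsetSum _ hi]
  refine Finset.sum_congr rfl fun s _ => ?_
  rw [integral_indicator measurableSet_Icc, Measure.restrict_restrict measurableSet_Icc, Set.inter_comm]

end

end Pool.Agent.Y745.LD
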