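import Pool.Agent.Y745.LD.VB1

set_option autoImplicit false

/-! The main term from below; the average of the cost. -/

namespace Pool.Agent.Y745.LD

open Filter Topology MeasureTheory Complex H370 TH803UC TH803CL Pool.Agent.Y745.SW

noncomputable section

/-- the main term at `0` from below -/
lemma Mu_lower {j : ℕ} {C N : ℝ} {B : ℝ → ℝ} (hW : Wf j C N B) (hC : 1 ≤ C) (hN : 1 ≤ N)
    (hlip : ∀ ξ ξ' : ℝ, |B ξ - B ξ'| ≤ C * N ^ 2 * |ξ - ξ'|) {a L : ℝ} (ha : 1 ≤ a) (hL : 0 < L) :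
    N / Real.pi * (L / a) - (N / Real.pi * (L / a) * Real.exp (-a ^ 2 / 4) * 2 + C * N ^ 2 * (L / a ^ 2)) ≤
      Mu B a L 0 := by
  have hpi := Real.pi_pos
  have ha0 : 0 < a := by linarith
  have hs : 0 < Real.sqrt (2 * Real.pi) := Real.sqrt_pos.2 (by positivity)
  have hs1 : 1 ≤ Real.sqrt (2 * Real.pi) := by
    rw [Real.one_le_sqrt]
    linarith [Real.pi_gt_three]
  -- the Gaussian integral over `[-1, 1]`
  have hg : Real.sqrt (2 * Real.pi) / a - 2 * (Real.sqrt (2 * Real.pi) / a * Real.exp (-a ^ 2 / 4)) ≤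
      ∫ ξ in (-1:ℝ)..1, Real.exp (-(ξ * a) ^ 2 / 2) := by
    have hint : Integrable (fun ξ : ℝ => Real.exp (-(ξ * a) ^ 2 / 2)) := by
      refine (integrable_exp_neg_mul_sq (b := a ^ 2 / 2) (by positivity)).congr
        (Filter.Eventually.of_forall fun y => ?_)
      simp only
      congr 1; ring
    have htot : ∫ ξ : ℝ, Real.exp (-(ξ * a) ^ 2 / 2) = Real.sqrt (2 * Real.pi) / a := by
      have h1 := integral_gaussian (a ^ 2 / 2)
      have h2 : Real.sqrt (Real.pi / (a ^ 2 / 2)) = Real.sqrt (2 * Real.pi) / a := by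
        rw [show Real.pi / (a ^ 2 / 2) = (2 * Real.pi) / a ^ 2 by field_simp, Real.sqrt_div' _ (by positivity),
          Real.sqrt_sq ha0.le]
      rw [h2] at h1
      rw [← h1]
      refine integral_congr_ae (Filter.Eventually.of_forall fun y => ?_)
      simp only
      congr 1; ring
    -- the tail
    have hint2 : Integrable (fun ξ : ℝ => Real.exp (-a ^ 2 / 4) * Real.exp (-(ξ * a) ^ 2 / 4)) := by
      refine ((integrable_exp_neg_mul_sq (b := a ^ 2 / 4) (by positivity)).const_mul (Real.exp (-a ^ 2 / 4))).congr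
        (Filter.Eventually.of_forall fun y => ?_)
      simp only
      congr 2; ring
    have htot2 : ∫ ξ : ℝ, Real.exp (-a ^ 2 / 4) * Real.exp (-(ξ * a) ^ 2 / 4) =
        Real.exp (-a ^ 2 / 4) * (Real.sqrt 2 * (Real.sqrt (2 * Real.pi) / a)) := by
      rw [integral_const_mul]
      congr 1
      have h1 := integral_gaussian (a ^ 2 / 4)
      have h2 : Real.sqrt (Real.pi / (a ^ 2 / 4)) = Real.sqrt 2 * (Real.sqrt (2 * Real.pi) / a) := by
        rw [show Real.pi / (a ^ 2 / 4) = (2 * (2 * Real.pi)) / a ^ 2 by field_simp; ring, Real.sqrt_div' _ (by positivity),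
          Real.sqrt_sq ha0.le, Real.sqrt_mul (by norm_num)]
        ring
      rw [h2] at h1
      rw [← h1]
      refine integral_congr_ae (Filter.Eventually.of_forall fun y => ?_)
      simp only
      congr 1; ring
    have h2 : Real.sqrt 2 ≤ 2 := by
      rw [Real.sqrt_le_left (by norm_num)]
      norm_num
    rw [intervalIntegral.integral_of_le (by norm_num)]
    have h3 := integral_add_compl (μ := volume) (measurableSet_Ioc (a := (-1:ℝ)) (b := 1)) hint
    rw [htot] at h3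
    have h4 : ∫ ξ in (Set.Ioc (-1:ℝ) 1)ᶜ, Real.exp (-(ξ * a) ^ 2 / 2) ≤
        Real.exp (-a ^ 2 / 4) * (Real.sqrt 2 * (Real.sqrt (2 * Real.pi) / a)) := by
      rw [← htot2]
      refine le_trans (setIntegral_mono_on hint.integrableOn hint2.integrableOn measurableSet_Ioc.compl ?_)
        (setIntegral_le_integral hint2 (Filter.Eventually.of_forall fun ξ => by positivity))
      intro ξ hξ
      have h5 : 1 ≤ ξ ^ 2 := by
        simp only [Set.mem_compl_iff, Set.mem_Ioc, not_and_or, not_lt, not_le] at hξ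
        rcases hξ with h | h <;> nlinarith
      rw [← Real.exp_add, Real.exp_le_exp]
      nlinarith [sq_nonneg a, mul_nonneg (sub_nonneg.2 h5) (sq_nonneg a)]
    have h5 : Real.exp (-a ^ 2 / 4) * (Real.sqrt 2 * (Real.sqrt (2 * Real.pi) / a)) ≤
        2 * (Real.sqrt (2 * Real.pi) / a * Real.exp (-a ^ 2 / 4)) := by
      have h6 : 0 ≤ Real.sqrt (2 * Real.pi) / a * Real.exp (-a ^ 2 / 4) := by positivity
      nlinarith
    linarith
  -- the first absolute moment
  have hm : ∫ ξ in (-1:ℝ)..1, |ξ| * Real.exp (-(ξ * a) ^ 2 / 2) ≤ 2 / a ^ 2 := by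
    have e1 : ∫ ξ in (-1:ℝ)..1, |ξ| * Real.exp (-(ξ * a) ^ 2 / 2) =
        2 * ∫ ξ in (0:ℝ)..1, ξ * Real.exp (-(ξ * a) ^ 2 / 2) := by
      have hc : Continuous (fun ξ : ℝ => |ξ| * Real.exp (-(ξ * a) ^ 2 / 2)) := by fun_prop
      rw [← intervalIntegral.integral_add_adjacent_intervals (b := 0) (hc.intervalIntegrable _ _)
        (hc.intervalIntegrable _ _)]
      have h1 : ∫ ξ in (-1:ℝ)..0, |ξ| * Real.exp (-(ξ * a) ^ 2 / 2) =
          ∫ ξ in (0:ℝ)..1, |ξ| * Real.exp (-(ξ * a) ^ 2 / 2) := by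
        have := intervalIntegral.integral_comp_neg (a := (-1:ℝ)) (b := 0)
          (fun ξ : ℝ => |ξ| * Real.exp (-(ξ * a) ^ 2 / 2))
        simp only [abs_neg, neg_mul, neg_neg, neg_zero] at this
        rw [← this]
        refine intervalIntegral.integral_congr fun ξ _ => ?_
        show |ξ| * Real.exp (-(ξ * a) ^ 2 / 2) = |ξ| * Real.exp (-(-(ξ * a)) ^ 2 / 2)
        rw [neg_sq]
      rw [h1, two_mul]
      congr 1 <;>
      · refine intervalIntegral.integral_congr fun ξ hξ => ?_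
        rw [Set.uIcc_of_le (by norm_num)] at hξ
        show |ξ| * Real.exp (-(ξ * a) ^ 2 / 2) = ξ * Real.exp (-(ξ * a) ^ 2 / 2)
        rw [abs_of_nonneg hξ.1]
    rw [e1]
    have h2 : ∀ x ∈ Set.uIcc (0:ℝ) 1, HasDerivAt (fun ξ : ℝ => -(1 / a ^ 2) * Real.exp (-(ξ * a) ^ 2 / 2))
        (x * Real.exp (-(x * a) ^ 2 / 2)) x := by
      intro x _
      have h3 : HasDerivAt (fun ξ : ℝ => -(ξ * a) ^ 2 / 2) (-(x * a ^ 2)) x := by
        have h4 : HasDerivAt (fun ξ : ℝ => ξ * a) a x := by simpa using (hasDerivAt_id x).mul_const a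
        have h5 := ((h4.pow 2).neg).div_const 2
        refine h5.congr_deriv ?_
        simp
        ring
      have h6 := (h3.exp).const_mul (-(1 / a ^ 2))
      refine h6.congr_deriv ?_
      field_simp
    rw [intervalIntegral.integral_eq_sub_of_hasDerivAt h2
      (Continuous.intervalIntegrable (by fun_prop) _ _)]
    have h3 : 0 < Real.exp (-(1 * a) ^ 2 / 2) := Real.exp_pos _
    have h4 : Real.exp (-(0 * a) ^ 2 / 2) = 1 := by simp
    rw [h4]
    have h5 : 0 ≤ 1 / a ^ 2 * Real.exp (-(1 * a) ^ 2 / 2) := by positivity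
    have h6 : 2 / a ^ 2 = 2 * (1 / a ^ 2) := by ring
    rw [h6]
    linarith
  -- the integral
  have hmain : N / Real.pi * (∫ ξ in (-1:ℝ)..1, Real.exp (-(ξ * a) ^ 2 / 2)) - C * N ^ 2 *
      (∫ ξ in (-1:ℝ)..1, |ξ| * Real.exp (-(ξ * a) ^ 2 / 2)) ≤
      ∫ ξ in (-1:ℝ)..1, B ξ * Real.exp (-(0 + ξ * a) ^ 2 / 2) := by
    rw [← intervalIntegral.integral_const_mul, ← intervalIntegral.integral_const_mul,
      ← intervalIntegral.integral_sub (Continuous.intervalIntegrable (by fun_prop) _ _)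
        (Continuous.intervalIntegrable (by fun_prop) _ _)]
    refine intervalIntegral.integral_mono_on (by norm_num) (Continuous.intervalIntegrable (by fun_prop) _ _)
      (Continuous.intervalIntegrable (by have := hW.cont; fun_prop) _ _) fun ξ _ => ?_
    have h1 := hlip ξ 0
    rw [hW.zero, sub_zero, abs_le] at h1
    have h2 : 0 < Real.exp (-(ξ * a) ^ 2 / 2) := Real.exp_pos _
    rw [zero_add]
    have h3 : N / Real.pi - C * N ^ 2 * |ξ| ≤ B ξ := by linarith [h1.1]
    calc N / Real.pi * Real.exp (-(ξ * a) ^ 2 / 2) - C * N ^ 2 * (|ξ| * Real.exp (-(ξ * a) ^ 2 / 2))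
        = (N / Real.pi - C * N ^ 2 * |ξ|) * Real.exp (-(ξ * a) ^ 2 / 2) := by ring
      _ ≤ _ := mul_le_mul_of_nonneg_right h3 h2.le
  unfold Mu
  have h0 : 0 ≤ L / Real.sqrt (2 * Real.pi) := by positivity
  refine le_trans ?_ (mul_le_mul_of_nonneg_left hmain h0)
  have h1 : N / Real.pi * (Real.sqrt (2 * Real.pi) / a - 2 * (Real.sqrt (2 * Real.pi) / a * Real.exp (-a ^ 2 / 4))) ≤
      N / Real.pi * (∫ ξ in (-1:ℝ)..1, Real.exp (-(ξ * a) ^ 2 / 2)) :=
    mul_le_mul_of_nonneg_left hg (by positivity)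
  have h2 : C * N ^ 2 * (∫ ξ in (-1:ℝ)..1, |ξ| * Real.exp (-(ξ * a) ^ 2 / 2)) ≤ C * N ^ 2 * (2 / a ^ 2) :=
    mul_le_mul_of_nonneg_left hm (by positivity)
  have h3 : L / Real.sqrt (2 * Real.pi) * (N / Real.pi * (Real.sqrt (2 * Real.pi) / a - 2 *
      (Real.sqrt (2 * Real.pi) / a * Real.exp (-a ^ 2 / 4))) - C * N ^ 2 * (2 / a ^ 2)) =
      N / Real.pi * (L / a) - N / Real.pi * (L / a) * Real.exp (-a ^ 2 / 4) * 2 -
        2 / Real.sqrt (2 * Real.pi) * (C * N ^ 2 * (L / a ^ 2)) := by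
    field_simp
  have h4 : 2 / Real.sqrt (2 * Real.pi) ≤ 1 := by
    rw [div_le_one hs, Real.le_sqrt (by norm_num) (by positivity)]
    linarith [Real.pi_gt_three]
  have h5 : 2 / Real.sqrt (2 * Real.pi) * (C * N ^ 2 * (L / a ^ 2)) ≤ 1 * (C * N ^ 2 * (L / a ^ 2)) :=
    mul_le_mul_of_nonneg_right h4 (by positivity)
  have h6 : L / Real.sqrt (2 * Real.pi) * (N / Real.pi * (Real.sqrt (2 * Real.pi) / a - 2 *
      (Real.sqrt (2 * Real.pi) / a * Real.exp (-a ^ 2 / 4))) - C * N ^ 2 * (2 / a ^ 2)) ≤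
      L / Real.sqrt (2 * Real.pi) * (N / Real.pi * (∫ ξ in (-1:ℝ)..1, Real.exp (-(ξ * a) ^ 2 / 2)) - C * N ^ 2 *
        (∫ ξ in (-1:ℝ)..1, |ξ| * Real.exp (-(ξ * a) ^ 2 / 2))) :=
    mul_le_mul_of_nonneg_left (by linarith) h0
  rw [h3] at h6
  linarith

/-! ### the cost -/

lemma cost_nonneg (B : ℝ → ℝ) (a th d η1 L t : ℝ) (h : 0 ≤ η1) (z : ℂ) : 0 ≤ cost B a th d η1 L t z := by
  unfold cost
  have h1 : 0 ≤ 2 * ‖1 - vt B a t z‖ + η1 := by positivity
  have h2 : 0 ≤ 2 * ‖vt B a t z‖ * Real.exp (|z.im| * L) := by positivity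
  split_ifs <;> linarith

lemma cost_int {B : ℝ → ℝ} (hB : Continuous B) (a th d η1 L : ℝ) (h : 0 ≤ η1) (z : ℂ) {f : ℝ → ℝ}
    (hf : Continuous f) (hf0 : ∀ t, 0 ≤ f t) (t1 t2 : ℝ) :
    IntegrableOn (fun t : ℝ => f t * cost B a th d η1 L t z) (Set.Icc t1 t2) := by
  have hv := vt_cont hB a z
  have hc1 : Continuous (fun t : ℝ => 2 * ‖1 - vt B a t z‖ + η1) := by fun_prop
  have hc2 : Continuous (fun t : ℝ => 2 * ‖vt B a t z‖ * Real.exp (|z.im| * L)) := by fun_prop
  have hm : ∀ c : ℝ, MeasurableSet {t : ℝ | |z.re - t| ≤ c} := fun c =>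
    (isClosed_le (by fun_prop) continuous_const).measurableSet
  have hdom : IntegrableOn (fun t : ℝ => f t * ((2 * ‖1 - vt B a t z‖ + η1) + 2 * ‖vt B a t z‖ * Real.exp (|z.im| * L)))
      (Set.Icc t1 t2) := (hf.mul (hc1.add hc2)).continuousOn.integrableOn_compact isCompact_Icc
  refine Integrable.mono' hdom ?_ ?_
  · refine Measurable.aestronglyMeasurable ?_
    unfold cost
    exact hf.measurable.mul ((Measurable.ite (hm _) hc1.measurable measurable_const).add
      (Measurable.ite (hm _) measurable_const hc2.measurable))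
  · refine Filter.Eventually.of_forall fun t => ?_
    rw [Real.norm_eq_abs, abs_of_nonneg (mul_nonneg (hf0 t) (cost_nonneg B a th d η1 L t h z))]
    refine mul_le_mul_of_nonneg_left ?_ (hf0 t)
    unfold cost
    have h1 : 0 ≤ 2 * ‖1 - vt B a t z‖ + η1 := by positivity
    have h2 : 0 ≤ 2 * ‖vt B a t z‖ * Real.exp (|z.im| * L) := by positivity
    split_ifs <;> linarith

/-- averages of counts over longer intervals -/
lemma cells_int {κ c A T U1 U2 h M : ℝ} {S G : Set ℝ} {x y : ℝ} (hS : S ⊆ Set.Icc x y) (hh : 0 < h)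
    (hcell : ∀ w : ℝ, |w| ≤ 1 → ∫ t in S, V κ c A T t * nz U1 U2 (t + w - h) (t + w + h) ≤ M)
    (hG : G ⊆ S) {α β : ℝ} {n : ℕ} (hn1 : 1 ≤ n) (hn : β - α ≤ 2 * h * n)
    (hα : -1 ≤ α) (hβ : α + 2 * h * n ≤ 1) :
    ∫ t in G, V κ c A T t * nz U1 U2 (t + α) (t + β) ≤ n * M := by
  have hV := V_cont κ c A T
  have hGx : G ⊆ Set.Icc x y := hG.trans hS
  have hint : ∀ w : ℝ, IntegrableOn (fun t => V κ c A T t * nz U1 U2 (t + w - h) (t + w + h)) S := by
    intro w
    have := nz_int hV U1 U2 (w - h) (w + h) hS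
    refine this.congr_fun_ae (Filter.Eventually.of_forall fun t => ?_)
    simp only
    rw [show t + (w - h) = t + w - h by ring, show t + (w + h) = t + w + h by ring]
  have h1 : ∫ t in G, V κ c A T t * nz U1 U2 (t + α) (t + β) ≤
      ∫ t in G, ∑ i ∈ Finset.range n, V κ c A T t * nz U1 U2 (t + (α + (2 * i + 1) * h) - h)
        (t + (α + (2 * i + 1) * h) + h) := by
    refine integral_mono (nz_int hV U1 U2 α β hGx)
      (integrable_finsetSum _ fun i _ => (hint _).mono_set hG) fun t => ?_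
    simp only
    rw [← Finset.mul_sum]
    exact mul_le_mul_of_nonneg_left (nz_cells hh hn1 hn) (V_nonneg _ _ _ _ _)
  refine h1.trans ?_
  rw [integral_finsetSum _ fun i _ => (hint _).mono_set hG]
  have h2 : ∀ i ∈ Finset.range n, ∫ t in G, V κ c A T t * nz U1 U2 (t + (α + (2 * i + 1) * h) - h)
        (t + (α + (2 * i + 1) * h) + h) ≤ M := by
    intro i hi
    refine le_trans (setIntegral_mono_set (hint _) (Filter.Eventually.of_forall fun t =>
      mul_nonneg (V_nonneg _ _ _ _ _) (nz_nonneg _ _ _ _)) (Filter.Eventually.of_forall hG)) ?_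
    refine hcell _ ?_
    have hi' : (i : ℝ) + 1 ≤ n := by
      have := Finset.mem_range.1 hi
      exact_mod_cast this
    rw [abs_le]
    constructor
    · have : 0 ≤ (2 * (i:ℝ) + 1) * h := by positivity
      linarith
    · have : (2 * (i:ℝ) + 1) * h ≤ 2 * h * n := by nlinarith
      linarith
  calc _ ≤ ∑ i ∈ Finset.range n, M := Finset.sum_le_sum h2
    _ = n * M := by rw [Finset.sum_const, Finset.card_range, nsmul_eq_mul]

end

end Pool.Agent.Y745.LD
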