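import Pool.Agent.Y745.LD.VB2

set_option autoImplicit false

/-! The weighted block inequality at one height. -/

namespace Pool.Agent.Y745.LD

open Filter Topology MeasureTheory Complex H370 TH803UC TH803CL Pool.Agent.Y745.SW

noncomputable section

section

variable {B : ℝ → ℝ} {cc : ℕ → ℂ} {κ c A ε τ η K T U1 U2 : ℝ}

/-- the weighted block inequality -/
lemma blockV (hDI : P_DI) (hTRK : P_TRK) (hMN : P_MN) (hζ : GoodL riemannZeta) {j : ℕ} {C N : ℝ}
    (hW : Wf j C N B) (hN : 1 ≤ N) (hε : 0 < ε) (hε2 : ε < 1 / 2) (hτ : 0 < τ)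
    (hτε : τ ≤ ε / 4) (hη : 0 < η) {L δ η1 th CS ε2 ZZ δ' : ℝ} (hLd : L = Real.log T) (hL : 10 ≤ L)
    (hT : T + 2 * L ≤ 2 * T - 2 * L)
    (hU : 1 ≤ U1) (hδ : 0 < δ) (hδ1 : δ ≤ 1 / 10) (hη0 : 0 ≤ η1) (hη1 : η1 ≤ 1)
    (hker : ∀ u : ℂ, ‖u‖ ≤ 6 * (δ / L) → ‖kap (((1 - ε) * L : ℝ) * u) - 1‖ ≤ η1)
    (hEF : ∀ t u : ℝ, T + L ≤ t → t ≤ 2 * T - L → 0 ≤ u → u ≤ (1 - ε) * L →
      ‖St B (τ * L) U1 U2 u t - cexp (I * u * t) * ((Mu B (τ * L) L u : ℝ) -
        DPp cc B (τ * L) u (XT ε T) t - DPm cc B (τ * L) u (XT ε T) t)‖ ≤ 1 / 2)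
    (hMs : ∀ u : ℝ, 2 * (τ * L) ≤ u → |Mu B (τ * L) L u| ≤ 1 / 2) (hCS : 0 < CS)
    (hSM : ∀ u : ℝ, 0 ≤ u → u ≤ (1 - ε) * L →
      ∫ t in (T + 2 * L)..(2 * T - 2 * L), V κ c A T t * Gd B (τ * L) L U1 U2 u t ≤
      CS * N * (1 + u / (τ * L)) * IV κ c A T)
    (hDQ : ∫ t in T..(2 * T), V κ c A T t * Dq Rf cc B ε τ (4 * τ) T t ≤ (1 + δ') * IV κ c A T * (1 + ZZ))
    {G : Set ℝ} (hG : MeasurableSet G) (hGI : G ⊆ Set.Icc (T + 2 * L) (2 * T - 2 * L))
    (hE : ∫ t in G, V κ c A T t * ∑ s ∈ Zf riemannZeta U1 U2, (mult riemannZeta s : ℝ) *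
      cost B (τ * L) th (δ / L) η1 L t (zz s) ≤ ε2 * (N / τ) * IV κ c A T) :
    (∫ t in G, V κ c A T t) * (2 * Mu B (τ * L) L 0 - N -
        (1 + η) * (Rf 0 / ((1 - ε) * τ) * ∫ ξ in (-1:ℝ)..1, B ξ ^ 2) - (1 + 1 / η) * (2 * Rf 0)) -
      CS * IV κ c A T - (1 + 1 / η) * (2 * Rf 0) * (20 * τ * (CS * N)) * IV κ c A T -
      (1 + η) * ((1 + δ') * IV κ c A T * (1 + ZZ)) - 10 * (ε2 * (N / τ) * IV κ c A T) ≤
    ∑ s ∈ isoS U1 U2 (δ / L), ∫ t in G ∩ Set.Icc (s.im - th) (s.im + th), V κ c A T t := by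
  classical
  have hL0 : 0 < L := by linarith
  have hτL : 0 < τ * L := mul_pos hτ hL0
  have hT0 : 0 < T := by linarith
  have h4τ : 4 * τ ≤ 1 := by linarith
  have h4τ0 : 0 ≤ 4 * τ := by linarith
  have hVc := V_cont κ c A T
  have hV0 := V_nonneg κ c A T
  have hI0 : 0 ≤ IV κ c A T := IV_nonneg κ c A hT0.le
  obtain ⟨hni, hn⟩ := iso_int hVc (isoS U1 U2 (δ / L)) th hGI
  rw [← hn]
  set E : ℝ → ℝ := fun t => ∑ s ∈ Zf riemannZeta U1 U2, (mult riemannZeta s : ℝ) *
      cost B (τ * L) th (δ / L) η1 L t (zz s) with hEdef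
  have hEi : IntegrableOn (fun t => V κ c A T t * E t) G := by
    refine IntegrableOn.mono_set ?_ hGI
    have e : (fun t => V κ c A T t * E t) = fun t => ∑ s ∈ Zf riemannZeta U1 U2, (mult riemannZeta s : ℝ) *
        (V κ c A T t * cost B (τ * L) th (δ / L) η1 L t (zz s)) := by
      funext t
      rw [hEdef]
      simp only
      rw [Finset.mul_sum]
      refine Finset.sum_congr rfl fun s _ => ?_
      ring
    rw [e]
    refine integrable_finsetSum _ fun s _ => ?_
    exact (cost_int hW.cont _ _ _ _ _ hη0 _ hVc hV0 _ _).const_mul _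
  -- the functions
  set g1 : ℝ → ℝ := fun t => Gd B (τ * L) L U1 U2 0 t with hg1
  set g2 : ℝ → ℝ := fun t => ∫ x in (0:ℝ)..(4 * τ), Gd B (τ * L) L U1 U2 ((1 - ε) * L * x) t with hg2
  have hg1c : Continuous g1 := by
    have h1 := (Gd_cont hW.cont (τ * L) L U1 U2).comp (f := fun t : ℝ => ((0:ℝ), t)) (by fun_prop)
    simpa only [Function.comp_def] using h1
  have hGc2 : Continuous (Function.uncurry fun t x : ℝ => Gd B (τ * L) L U1 U2 ((1 - ε) * L * x) t) := by
    exact (Gd_cont hW.cont (τ * L) L U1 U2).comp (f := fun p : ℝ × ℝ => ((1 - ε) * L * p.2, p.1)) (by fun_prop)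
  have hg2c : Continuous g2 := by
    apply intervalIntegral.continuous_parametric_intervalIntegral_of_continuous'
    exact hGc2
  have hg10 : ∀ t, 0 ≤ g1 t := fun t => by simp only [hg1, Gd]; positivity
  have hg20 : ∀ t, 0 ≤ g2 t := fun t =>
    intervalIntegral.integral_nonneg h4τ0 fun x _ => by unfold Gd; positivity
  have hDc : Continuous (fun t : ℝ => Dq Rf cc B ε τ (4 * τ) T t) :=
    Dq_cont hW.cont hε hε2 hτ hτε le_rfl h4τ Rf_cont (by rw [← hLd]; exact hL0)
  have hD0 : ∀ t, 0 ≤ Dq Rf cc B ε τ (4 * τ) T t := fun t =>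
    Dq_nonneg hε hε2 hτ hτε le_rfl h4τ (fun x _ => Rf_nonneg x) t
  set Mb := Rf 0 / ((1 - ε) * τ) * ∫ ξ in (-1:ℝ)..1, B ξ ^ 2 with hMb
  set q := (1 + 1 / η) * (2 * Rf 0) with hq
  have hq0 : 0 ≤ q := mul_nonneg (by positivity) (mul_nonneg (by norm_num) (Rf_nonneg 0))
  -- the pointwise inequality
  have hpt : ∀ t ∈ G, (2 * Mu B (τ * L) L 0 - N - (1 + η) * Mb - q) - (1 / N) * g1 t - q * g2 t -
      (1 + η) * Dq Rf cc B ε τ (4 * τ) T t ≤
      (((isoS U1 U2 (δ / L)).filter (fun s => |s.im - t| ≤ th)).card : ℝ) + 10 * E t := by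
    intro t ht
    obtain ⟨ht1, ht2⟩ := hGI ht
    have h1 := pointwiseV hDI hTRK hζ hW (a := τ * L) (L := L) (Λ := (1 - ε) * L) (d := δ / L) (η1 := η1) (th := th)
      (t := t) (U1 := U1) (U2 := U2) hU (mul_nonneg (by linarith) hL0.le)
      (by nlinarith) hL (by positivity) (by rw [div_mul_cancel₀ _ hL0.ne']; exact hδ1) hη0 hη1 hker
    have h2 := pair_term (B := B) (c := cc) (ε := ε) (τ := τ) (η := η) (T := T) (U1 := U1) (U2 := U2) hW.cont hMN
      hW.even hε hε2 hτ hτε hη (by rw [← hLd]; exact hL0) (t := t)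
      (by rw [← hLd]; exact fun u h3 h4 => hEF t u (by linarith) (by linarith) h3 h4)
      (by rw [← hLd]; exact hMs)
    rw [← hLd] at h2
    have h3 : 2 * Mu B (τ * L) L 0 - N - (1 / N) * g1 t ≤ 2 * (St B (τ * L) U1 U2 0 t).re := by
      have h4 : g1 t = ‖St B (τ * L) U1 U2 0 t - (Mu B (τ * L) L 0 : ℝ)‖ ^ 2 := by
        simp only [hg1, Gd]
        congr 2
        simp
      have h5 : |(St B (τ * L) U1 U2 0 t - (Mu B (τ * L) L 0 : ℝ)).re| ≤
          ‖St B (τ * L) U1 U2 0 t - (Mu B (τ * L) L 0 : ℝ)‖ := Complex.abs_re_le_norm _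
      rw [Complex.sub_re, Complex.ofReal_re] at h5
      rw [h4]
      set y := ‖St B (τ * L) U1 U2 0 t - (Mu B (τ * L) L 0 : ℝ)‖
      have hNpos : 0 < N := by linarith
      have h6 : 2 * y ≤ N + 1 / N * y ^ 2 := by
        have : 0 ≤ (N - y) ^ 2 / N := by positivity
        have e : (N - y) ^ 2 / N = N - 2 * y + 1 / N * y ^ 2 := by
          field_simp
          ring
        rw [e] at this
        linarith
      linarith [(abs_le.1 h5).1]
    have h4 : q * g2 t = (1 + 1 / η) * (2 * Rf 0 * g2 t) := by rw [hq]; ring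
    rw [h4]
    linarith
  -- integration
  have hfG : ∀ {f : ℝ → ℝ}, Continuous f → IntegrableOn f G := fun hf =>
    (hf.continuousOn.integrableOn_compact isCompact_Icc).mono_set hGI
  have hint := setIntegral_mono_on (μ := volume) (s := G)
    (f := fun t => V κ c A T t * ((2 * Mu B (τ * L) L 0 - N - (1 + η) * Mb - q) - (1 / N) * g1 t - q * g2 t -
      (1 + η) * Dq Rf cc B ε τ (4 * τ) T t))
    (g := fun t => V κ c A T t * (((isoS U1 U2 (δ / L)).filter (fun s => |s.im - t| ≤ th)).card : ℝ) +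
      10 * (V κ c A T t * E t))
    (hfG (hVc.mul (((continuous_const.sub (continuous_const.mul hg1c)).sub (continuous_const.mul hg2c)).sub
      (continuous_const.mul hDc)))) (hni.add (hEi.const_mul 10)) hG (fun t ht => by
      have := mul_le_mul_of_nonneg_left (hpt t ht) (hV0 t)
      calc _ ≤ _ := this
        _ = _ := by ring)
  rw [integral_add hni (hEi.const_mul 10), integral_const_mul] at hint
  have hsplit : ∫ t in G, V κ c A T t * ((2 * Mu B (τ * L) L 0 - N - (1 + η) * Mb - q) - (1 / N) * g1 t -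
      q * g2 t - (1 + η) * Dq Rf cc B ε τ (4 * τ) T t) =
      (∫ t in G, V κ c A T t) * (2 * Mu B (τ * L) L 0 - N - (1 + η) * Mb - q) -
        (1 / N) * (∫ t in G, V κ c A T t * g1 t) - q * (∫ t in G, V κ c A T t * g2 t) -
        (1 + η) * (∫ t in G, V κ c A T t * Dq Rf cc B ε τ (4 * τ) T t) := by
    have i0 := hfG hVc
    have i1 := hfG (hVc.mul hg1c)
    have i2 := hfG (hVc.mul hg2c)
    have i3 := hfG (hVc.mul hDc)
    have e : (fun t => V κ c A T t * ((2 * Mu B (τ * L) L 0 - N - (1 + η) * Mb - q) - (1 / N) * g1 t -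
      q * g2 t - (1 + η) * Dq Rf cc B ε τ (4 * τ) T t)) =
      fun t => V κ c A T t * (2 * Mu B (τ * L) L 0 - N - (1 + η) * Mb - q) - (1 / N) * (V κ c A T t * g1 t) -
        q * (V κ c A T t * g2 t) - (1 + η) * (V κ c A T t * Dq Rf cc B ε τ (4 * τ) T t) := by
      funext t; ring
    rw [e]
    have j0 : IntegrableOn (fun t => V κ c A T t * (2 * Mu B (τ * L) L 0 - N - (1 + η) * Mb - q)) G :=
      i0.mul_const (2 * Mu B (τ * L) L 0 - N - (1 + η) * Mb - q)
    have j1 : IntegrableOn (fun t => (1 / N) * (V κ c A T t * g1 t)) G := i1.const_mul (1 / N)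
    have j2 : IntegrableOn (fun t => q * (V κ c A T t * g2 t)) G := i2.const_mul q
    have j3 : IntegrableOn (fun t => (1 + η) * (V κ c A T t * Dq Rf cc B ε τ (4 * τ) T t)) G :=
      i3.const_mul (1 + η)
    have j01 : IntegrableOn (fun t => V κ c A T t * (2 * Mu B (τ * L) L 0 - N - (1 + η) * Mb - q) -
      (1 / N) * (V κ c A T t * g1 t)) G := j0.sub j1
    have j012 : IntegrableOn (fun t => V κ c A T t * (2 * Mu B (τ * L) L 0 - N - (1 + η) * Mb - q) -
      (1 / N) * (V κ c A T t * g1 t) - q * (V κ c A T t * g2 t)) G := j01.sub j2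
    rw [integral_sub j012 j3, integral_sub j01 j2, integral_sub j0 j1,
      integral_mul_const, integral_const_mul, integral_const_mul, integral_const_mul]
  rw [hsplit] at hint
  -- the bounds
  have hb1 : ∫ t in G, V κ c A T t * g1 t ≤ CS * N * IV κ c A T := by
    have h1 : ∫ t in G, V κ c A T t * g1 t ≤ ∫ t in (T + 2 * L)..(2 * T - 2 * L), V κ c A T t * g1 t :=
      setInt_le (hVc.mul hg1c) (fun t => mul_nonneg (hV0 t) (hg10 t)) hT hGI
    have h2 := hSM 0 le_rfl (mul_nonneg (by linarith) hL0.le)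
    rw [zero_div, add_zero, mul_one] at h2
    exact h1.trans h2
  have hb2 : ∫ t in G, V κ c A T t * g2 t ≤ 20 * τ * (CS * N) * IV κ c A T := by
    have h1 : ∫ t in G, V κ c A T t * g2 t ≤ ∫ t in (T + 2 * L)..(2 * T - 2 * L), V κ c A T t * g2 t :=
      setInt_le (hVc.mul hg2c) (fun t => mul_nonneg (hV0 t) (hg20 t)) hT hGI
    have hGV : Continuous (Function.uncurry fun t x : ℝ =>
        V κ c A T t * Gd B (τ * L) L U1 U2 ((1 - ε) * L * x) t) :=
      (hVc.comp continuous_fst).mul hGc2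
    have h2 : ∫ t in (T + 2 * L)..(2 * T - 2 * L), V κ c A T t * g2 t =
        ∫ x in (0:ℝ)..(4 * τ), ∫ t in (T + 2 * L)..(2 * T - 2 * L),
          V κ c A T t * Gd B (τ * L) L U1 U2 ((1 - ε) * L * x) t := by
      have h3 : ∀ t, V κ c A T t * g2 t = ∫ x in (0:ℝ)..(4 * τ),
          V κ c A T t * Gd B (τ * L) L U1 U2 ((1 - ε) * L * x) t := by
        intro t
        rw [intervalIntegral.integral_const_mul]
      simp_rw [h3]
      refine MeasureTheory.intervalIntegral_intervalIntegral_swap ?_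
      refine (hGV.continuousOn.integrableOn_compact
        (K := Set.uIcc (T + 2 * L) (2 * T - 2 * L) ×ˢ Set.uIcc 0 (4 * τ)) ?_).mono_set ?_
      · exact isCompact_uIcc.prod isCompact_uIcc
      · exact Set.prod_mono Set.uIoc_subset_uIcc Set.uIoc_subset_uIcc
    have h3 : ∫ x in (0:ℝ)..(4 * τ), ∫ t in (T + 2 * L)..(2 * T - 2 * L),
        V κ c A T t * Gd B (τ * L) L U1 U2 ((1 - ε) * L * x) t ≤
        ∫ _x in (0:ℝ)..(4 * τ), 5 * (CS * N * IV κ c A T) := by
      refine intervalIntegral.integral_mono_on h4τ0 ?_ (by simp) fun x hx => ?_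
      · refine Continuous.intervalIntegrable ?_ _ _
        apply intervalIntegral.continuous_parametric_intervalIntegral_of_continuous'
        have h5 := hGV.comp (f := fun p : ℝ × ℝ => (p.2, p.1)) (by fun_prop)
        exact h5
      · have hx1 : x ≤ 1 := hx.2.trans h4τ
        have hΛ : 0 ≤ (1 - ε) * L := mul_nonneg (by linarith) hL0.le
        have h4 := hSM ((1 - ε) * L * x) (mul_nonneg hΛ hx.1) (by
          calc (1 - ε) * L * x ≤ (1 - ε) * L * 1 := mul_le_mul_of_nonneg_left hx1 hΛ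
            _ = _ := mul_one _)
        refine h4.trans ?_
        have h5 : (1 - ε) * L * x / (τ * L) ≤ 4 := by
          rw [div_le_iff₀ hτL]
          have h6 : (1 - ε) * L * x ≤ 1 * L * (4 * τ) := by
            have := hx.2
            have := hx.1
            gcongr
            linarith
          linarith
        calc CS * N * (1 + (1 - ε) * L * x / (τ * L)) * IV κ c A T ≤ CS * N * 5 * IV κ c A T := by
              gcongr
              linarith
          _ = _ := by ring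
    rw [intervalIntegral.integral_const, smul_eq_mul, sub_zero] at h3
    rw [h2] at h1
    refine h1.trans (h3.trans (le_of_eq ?_))
    ring
  have hb3 : ∫ t in G, V κ c A T t * Dq Rf cc B ε τ (4 * τ) T t ≤ (1 + δ') * IV κ c A T * (1 + ZZ) := by
    have h1 : ∫ t in G, V κ c A T t * Dq Rf cc B ε τ (4 * τ) T t ≤
        ∫ t in T..(2 * T), V κ c A T t * Dq Rf cc B ε τ (4 * τ) T t :=
      setInt_le (hVc.mul hDc) (fun t => mul_nonneg (hV0 t) (hD0 t)) (x := T) (y := 2 * T)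
      (by linarith) (hGI.trans (Set.Icc_subset_Icc (by linarith) (by linarith)))
    exact h1.trans hDQ
  have hN0 : 0 < N := by linarith
  have hc1 : (1 / N) * (∫ t in G, V κ c A T t * g1 t) ≤ CS * IV κ c A T := by
    calc (1 / N) * (∫ t in G, V κ c A T t * g1 t) ≤ (1 / N) * (CS * N * IV κ c A T) :=
          mul_le_mul_of_nonneg_left hb1 (by positivity)
      _ = _ := by field_simp
  have hc2 : q * (∫ t in G, V κ c A T t * g2 t) ≤ q * (20 * τ * (CS * N)) * IV κ c A T := by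
    calc q * (∫ t in G, V κ c A T t * g2 t) ≤ q * (20 * τ * (CS * N) * IV κ c A T) :=
          mul_le_mul_of_nonneg_left hb2 hq0
      _ = _ := by ring
  have hc3 : (1 + η) * (∫ t in G, V κ c A T t * Dq Rf cc B ε τ (4 * τ) T t) ≤
      (1 + η) * ((1 + δ') * IV κ c A T * (1 + ZZ)) := mul_le_mul_of_nonneg_left hb3 (by positivity)
  linarith

end

end

end Pool.Agent.Y745.LD
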