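import Pool.Agent.Y745.LD.VB3

set_option autoImplicit false

/-! The final computation and the average of the cost. -/

namespace Pool.Agent.Y745.LD

open Filter Topology MeasureTheory Complex H370 TH803UC TH803CL Pool.Agent.Y745.SW

noncomputable section

/-- the final computation -/
lemma final_calcV {IG IV' N τ ε c R0 R1 CD CS q η εs δ' ε2 M I2 Mu0 ZZ X : ℝ} (hI0 : 0 ≤ IV')
    (hG1 : (1 - ε / 8) * IV' ≤ IG) (hN : 1 ≤ N) (hτ : 0 < τ) (hτ1 : τ ≤ 1) (hε : 0 < ε) (hε1 : ε ≤ 1)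
    (hc : R0 + 2 * R1 = c) (hc2 : c ≤ 3 / 2) (hR0 : 0 ≤ R0) (hR1 : 0 ≤ R1) (hCS : 0 < CS)
    (hη : η = ε / 64) (hεs : εs = ε / 64) (hδ' : δ' = ε / 64)
    (hM : M = N / (Real.pi * τ)) (hI : I2 ≤ N / Real.pi) (hMu : (1 - ε / 64) * M ≤ Mu0)
    (hZ : ZZ ≤ 2 * (1 - εs) / (Real.pi * τ) * R1 * N + CD * N) (hq : 0 ≤ q)
    (h1 : τ * Real.pi ≤ ε / 512) (h2 : τ * (Real.pi * (CS + q + 2)) ≤ ε / 512)
    (h3 : τ * (20 * Real.pi * (q * CS)) ≤ ε / 512) (h4 : τ * (2 * Real.pi * CD) ≤ ε / 512)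
    (h5 : 10 * (Real.pi * ε2) ≤ ε / 64)
    (hmain : IG * (2 * Mu0 - N - (1 + η) * (R0 / ((1 - εs) * τ) * I2) - q) - CS * IV' -
      q * (20 * τ * (CS * N)) * IV' - (1 + η) * ((1 + δ') * IV' * (1 + ZZ)) - 10 * (ε2 * (N / τ) * IV') ≤ X) :
    (2 - c - ε / 2) * (M * IV') ≤ X := by
  have hpi := Real.pi_pos
  have hN0 : 0 < N := by linarith
  have hM0 : 0 < M := by rw [hM]; positivity
  have hMτ : M * (Real.pi * τ) = N := by rw [hM]; field_simp
  have hη0 : 0 < η := by rw [hη]; positivity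
  have hη1 : η ≤ 1 / 64 := by rw [hη]; linarith
  have hεs1 : εs ≤ 1 / 64 := by rw [hεs]; linarith
  have hεs0 : 0 < εs := by rw [hεs]; positivity
  have hP0 : 0 ≤ M * IV' := by positivity
  have hR0' : R0 ≤ 3 / 2 := by linarith
  have hR1' : 2 * R1 ≤ 3 / 2 := by linarith
  -- one as a multiple of `M`
  have hone : 1 ≤ M * (Real.pi * τ) := by rw [hMτ]; exact hN
  -- (a) the bracket
  have ha1 : (1 + η) * (R0 / ((1 - εs) * τ) * I2) ≤ (1 + 5 * ε / 64) * R0 * M := by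
    have e1 : R0 / ((1 - εs) * τ) * I2 ≤ R0 / ((1 - εs) * τ) * (N / Real.pi) := by
      have : 0 < 1 - εs := by linarith
      gcongr
    have e2 : R0 / ((1 - εs) * τ) * (N / Real.pi) = 1 / (1 - εs) * (R0 * M) := by
      rw [hM]
      have : (1 - εs) ≠ 0 := by linarith
      field_simp
    have e3 : 1 / (1 - εs) ≤ 1 + 2 * εs := by
      rw [div_le_iff₀ (by linarith)]
      nlinarith
    have e4 : 0 ≤ R0 * M := by positivity
    have k1 : (1 + η) * (1 + 2 * εs) ≤ 1 + 5 * ε / 64 := by rw [hη, hεs]; nlinarith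
    calc (1 + η) * (R0 / ((1 - εs) * τ) * I2) ≤ (1 + η) * ((1 + 2 * εs) * (R0 * M)) := by
          refine mul_le_mul_of_nonneg_left ?_ (by linarith)
          calc _ ≤ _ := e1
            _ = 1 / (1 - εs) * (R0 * M) := e2
            _ ≤ _ := mul_le_mul_of_nonneg_right e3 e4
      _ = ((1 + η) * (1 + 2 * εs)) * (R0 * M) := by ring
      _ ≤ (1 + 5 * ε / 64) * (R0 * M) := mul_le_mul_of_nonneg_right k1 e4
      _ = _ := by ring
  have hN' : N ≤ ε / 512 * M := by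
    have := mul_le_mul_of_nonneg_left h1 hM0.le
    calc N = M * (τ * Real.pi) := by rw [← hMτ]; ring
      _ ≤ M * (ε / 512) := this
      _ = _ := by ring
  have hsum : CS + q + 2 ≤ ε / 512 * M := by
    have h6 : (CS + q + 2) * 1 ≤ (CS + q + 2) * (M * (Real.pi * τ)) :=
      mul_le_mul_of_nonneg_left hone (by linarith)
    have h7 := mul_le_mul_of_nonneg_left h2 hM0.le
    calc CS + q + 2 = (CS + q + 2) * 1 := by ring
      _ ≤ (CS + q + 2) * (M * (Real.pi * τ)) := h6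
      _ = M * (τ * (Real.pi * (CS + q + 2))) := by ring
      _ ≤ M * (ε / 512) := h7
      _ = _ := by ring
  set a := 2 * (1 - ε / 64) - ε / 256 - (1 + 5 * ε / 64) * R0 with ha
  have ha0 : 0 ≤ a := by
    have : (1 + 5 * ε / 64) * R0 ≤ (1 + 5 / 64) * (3 / 2) := by
      refine mul_le_mul (by linarith) hR0' hR0 (by norm_num)
    rw [ha]
    linarith
  have hbr : M * a ≤ 2 * Mu0 - N - (1 + η) * (R0 / ((1 - εs) * τ) * I2) - q := by
    have h6 : q ≤ ε / 512 * M := by linarith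
    rw [ha]
    have e : M * (2 * (1 - ε / 64) - ε / 256 - (1 + 5 * ε / 64) * R0) =
      2 * ((1 - ε / 64) * M) - ε / 512 * M - ε / 512 * M - (1 + 5 * ε / 64) * R0 * M := by ring
    rw [e]
    linarith
  have hI1 : 0 ≤ IG := le_trans (mul_nonneg (by linarith) hI0) hG1
  have hb1 : (1 - ε / 8) * (M * IV') * a ≤
      IG * (2 * Mu0 - N - (1 + η) * (R0 / ((1 - εs) * τ) * I2) - q) := by
    calc (1 - ε / 8) * (M * IV') * a = ((1 - ε / 8) * IV') * (M * a) := by ring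
      _ ≤ IG * (M * a) := mul_le_mul_of_nonneg_right hG1 (by positivity)
      _ ≤ _ := mul_le_mul_of_nonneg_left hbr hI1
  -- (b) the other terms
  have hb2 : CS * IV' ≤ ε / 512 * (M * IV') := by
    have : CS ≤ ε / 512 * M := by linarith
    calc CS * IV' ≤ (ε / 512 * M) * IV' := mul_le_mul_of_nonneg_right this hI0
      _ = _ := by ring
  have hb3 : q * (20 * τ * (CS * N)) * IV' ≤ ε / 512 * (M * IV') := by
    have e1 : q * (20 * τ * (CS * N)) * IV' = τ * (τ * (20 * Real.pi * (q * CS))) * (M * IV') := by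
      rw [← hMτ]; ring
    rw [e1]
    refine mul_le_mul_of_nonneg_right ?_ hP0
    calc τ * (τ * (20 * Real.pi * (q * CS))) ≤ 1 * (ε / 512) :=
          mul_le_mul hτ1 h3 (by positivity) (by norm_num)
      _ = _ := one_mul _
  have hb4 : (1 + η) * ((1 + δ') * IV' * (1 + ZZ)) ≤
      ((1 + 3 * ε / 64) * (2 * R1) + ε / 128) * (M * IV') := by
    have k1 : (1 + η) * (1 + δ') ≤ 1 + 3 * ε / 64 := by rw [hη, hδ']; nlinarith
    have k0 : 0 ≤ (1 + η) * (1 + δ') := by rw [hη, hδ']; positivity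
    have k2 : 1 + ZZ ≤ (2 * R1 + ε / 256) * M := by
      have e1 : 2 * (1 - εs) / (Real.pi * τ) * R1 * N = 2 * (1 - εs) * R1 * M := by
        rw [hM]; field_simp
      have e2 : 2 * (1 - εs) * R1 * M ≤ 2 * R1 * M := by
        have : 0 ≤ R1 * M := by positivity
        nlinarith
      have e3 : CD * N ≤ ε / 512 * M := by
        have h6 := mul_le_mul_of_nonneg_left h4 hM0.le
        have e4 : CD * N = M * (τ * (2 * Real.pi * CD)) / 2 := by rw [← hMτ]; ring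
        rw [e4]
        have h7 : 0 ≤ M * (ε / 512) := by positivity
        linarith
      have e5 : 1 ≤ ε / 512 * M := by linarith
      rw [e1] at hZ
      have e6 : (2 * R1 + ε / 256) * M = 2 * R1 * M + ε / 512 * M + ε / 512 * M := by ring
      rw [e6]
      linarith
    have k3 : 0 ≤ (2 * R1 + ε / 256) * M := by positivity
    calc (1 + η) * ((1 + δ') * IV' * (1 + ZZ)) = ((1 + η) * (1 + δ')) * (IV' * (1 + ZZ)) := by ring
      _ ≤ ((1 + η) * (1 + δ')) * (IV' * ((2 * R1 + ε / 256) * M)) :=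
          mul_le_mul_of_nonneg_left (mul_le_mul_of_nonneg_left k2 hI0) k0
      _ ≤ (1 + 3 * ε / 64) * (IV' * ((2 * R1 + ε / 256) * M)) :=
          mul_le_mul_of_nonneg_right k1 (mul_nonneg hI0 k3)
      _ = ((1 + 3 * ε / 64) * (2 * R1) + (1 + 3 * ε / 64) * (ε / 256)) * (M * IV') := by ring
      _ ≤ _ := by
          refine mul_le_mul_of_nonneg_right ?_ hP0
          have : (1 + 3 * ε / 64) * (ε / 256) ≤ 2 * (ε / 256) :=
            mul_le_mul_of_nonneg_right (by linarith) (by positivity)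
          linarith
  have hb5 : 10 * (ε2 * (N / τ) * IV') ≤ ε / 64 * (M * IV') := by
    have e1 : 10 * (ε2 * (N / τ) * IV') = 10 * (Real.pi * ε2) * (M * IV') := by
      rw [hM]; field_simp
    rw [e1]
    exact mul_le_mul_of_nonneg_right h5 hP0
  -- conclusion
  refine le_trans ?_ hmain
  have hfin : 2 - c - ε / 2 ≤ (1 - ε / 8) * a - ε / 512 - ε / 512 - ((1 + 3 * ε / 64) * (2 * R1) + ε / 128) -
      ε / 64 := by
    have ha2 : a ≤ 2 := by
      have : 0 ≤ (1 + 5 * ε / 64) * R0 := by positivity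
      rw [ha]; linarith
    have h6 : a - ε / 4 ≤ (1 - ε / 8) * a := by nlinarith
    have h7 : (5 * ε / 64) * R0 ≤ (5 * ε / 64) * (3 / 2) := by gcongr
    have h8 : (3 * ε / 64) * (2 * R1) ≤ (3 * ε / 64) * (2 * R1) := le_rfl
    have h9 : (3 * ε / 64) * (2 * R1) ≤ (5 * ε / 64) * (2 * R1) := by gcongr; norm_num
    have h10 : (5 * ε / 64) * (R0 + 2 * R1) ≤ (5 * ε / 64) * (3 / 2) := by
      gcongr; linarith
    have e1 : (1 + 5 * ε / 64) * R0 = R0 + (5 * ε / 64) * R0 := by ring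
    have e2 : (1 + 3 * ε / 64) * (2 * R1) = 2 * R1 + (3 * ε / 64) * (2 * R1) := by ring
    have e3 : (5 * ε / 64) * (R0 + 2 * R1) = (5 * ε / 64) * R0 + (5 * ε / 64) * (2 * R1) := by ring
    rw [e2]
    have h11 : a = 2 * (1 - ε / 64) - ε / 256 - R0 - (5 * ε / 64) * R0 := by rw [ha]; ring
    linarith
  have hfin2 := mul_le_mul_of_nonneg_right hfin hP0
  have e4 : ((1 - ε / 8) * a - ε / 512 - ε / 512 - ((1 + 3 * ε / 64) * (2 * R1) + ε / 128) -
      ε / 64) * (M * IV') = (1 - ε / 8) * (M * IV') * a - ε / 512 * (M * IV') - ε / 512 * (M * IV') -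
      ((1 + 3 * ε / 64) * (2 * R1) + ε / 128) * (M * IV') - ε / 64 * (M * IV') := by ring
  rw [e4] at hfin2
  linarith

/-- integrability of the total cost -/
lemma costsum_int {B : ℝ → ℝ} (hB : Continuous B) (κ c A T a th d η1 L U1 U2 : ℝ) (h : 0 ≤ η1) {G : Set ℝ}
    {x y : ℝ} (hG : G ⊆ Set.Icc x y) :
    IntegrableOn (fun t => V κ c A T t * ∑ s ∈ Zf riemannZeta U1 U2, (mult riemannZeta s : ℝ) *
      cost B a th d η1 L t (zz s)) G := by
  refine IntegrableOn.mono_set ?_ hG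
  have e : (fun t => V κ c A T t * ∑ s ∈ Zf riemannZeta U1 U2, (mult riemannZeta s : ℝ) *
      cost B a th d η1 L t (zz s)) = fun t => ∑ s ∈ Zf riemannZeta U1 U2, (mult riemannZeta s : ℝ) *
      (V κ c A T t * cost B a th d η1 L t (zz s)) := by
    funext t
    rw [Finset.mul_sum]
    refine Finset.sum_congr rfl fun s _ => ?_
    ring
  rw [e]
  refine integrable_finsetSum _ fun s _ => ?_
  exact (cost_int hB _ _ _ _ _ h _ (V_cont κ c A T) (V_nonneg κ c A T) _ _).const_mul _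

/-- the average of the cost -/
lemma cost_avg {κ c A T U1 U2 τ L x Cc η1 : ℝ} {S G : Set ℝ} {y1 y2 : ℝ} (hS : S ⊆ Set.Icc y1 y2)
    (hx : 1 ≤ x) (hτ : 0 < τ) (hτ1 : τ ≤ 1) (hL : 0 < L) (hCc : 1 ≤ Cc) (hη : 0 < η1) (hT : 0 ≤ T)
    (hxL : 8 * x ^ 4 ≤ τ * L) (hbig : (6 * Cc + 1) / (Cc * η1) ≤ x)
    (hcell : ∀ w : ℝ, |w| ≤ 1 → ∫ t in S, V κ c A T t * nz U1 U2 (t + w - x / L) (t + w + x / L) ≤
      Cc * x * IV κ c A T) (hGm : MeasurableSet G) (hG : G ⊆ S) (hGT : G ⊆ Set.Icc T (2 * T)) {E : ℝ → ℝ}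
    (hE : IntegrableOn (fun t => V κ c A T t * E t) G)
    (hcost : ∀ t ∈ G, E t ≤ η1 * nz U1 U2 (t + -(2 * x ^ 4 / (τ * L))) (t + 2 * x ^ 4 / (τ * L)) +
      x * (nz U1 U2 (t + -((x ^ 4 + 2 * x ^ 2) / (τ * L))) (t + -((x ^ 4 - 2 * x ^ 2) / (τ * L))) +
        nz U1 U2 (t + (x ^ 4 - 2 * x ^ 2) / (τ * L)) (t + (x ^ 4 + 2 * x ^ 2) / (τ * L))) + 1) :
    ∫ t in G, V κ c A T t * E t ≤ 4 * Cc * η1 * (x ^ 4 / τ) * IV κ c A T := by
  have hV := V_cont κ c A T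
  have hV0 := V_nonneg κ c A T
  have hI0 : 0 ≤ IV κ c A T := IV_nonneg κ c A hT
  have hGx : G ⊆ Set.Icc y1 y2 := hG.trans hS
  have hx0 : 0 < x := by linarith
  have hτL : 0 < τ * L := mul_pos hτ hL
  have hx24 : x ^ 2 ≤ x ^ 4 := pow_le_pow_right₀ hx (by norm_num)
  have hx14 : x ≤ x ^ 4 := le_self_pow₀ hx (by norm_num)
  have hx34 : x ^ 3 ≤ x ^ 4 := pow_le_pow_right₀ hx (by norm_num)
  have hx3 : 1 ≤ x ^ 3 := one_le_pow₀ hx
  have hh : 0 < x / L := by positivity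
  have hhL : x / L ≤ 1 / 8 := by
    rw [div_le_iff₀ hL]
    have : τ * L ≤ 1 * L := mul_le_mul_of_nonneg_right hτ1 hL.le
    linarith
  have hq4 : x ^ 4 / (τ * L) ≤ 1 / 8 := by
    rw [div_le_iff₀ hτL]; linarith
  have hq2 : x ^ 2 / (τ * L) ≤ 1 / 8 := by
    rw [div_le_iff₀ hτL]; linarith
  have hq40 : 0 ≤ x ^ 4 / (τ * L) := by positivity
  have hq20 : 0 ≤ x ^ 2 / (τ * L) := by positivity
  -- the main zone
  have hceil : ∀ X : ℝ, 1 ≤ X → (1:ℝ) ≤ ⌈2 * X⌉₊ ∧ 2 * X ≤ (⌈2 * X⌉₊ : ℝ) ∧ (⌈2 * X⌉₊ : ℝ) ≤ 2 * X + 1 ∧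
      (⌈2 * X⌉₊ : ℝ) ≤ 3 * X := by
    intro X hX
    have h1 := Nat.le_ceil (2 * X)
    have h2 := (Nat.ceil_lt_add_one (by linarith : 0 ≤ 2 * X)).le
    exact ⟨by linarith, h1, h2, by linarith⟩
  have hM0 : 0 ≤ Cc * x * IV κ c A T := by positivity
  have hz1 : ∫ t in G, V κ c A T t * nz U1 U2 (t + -(2 * x ^ 4 / (τ * L))) (t + 2 * x ^ 4 / (τ * L)) ≤
      3 * Cc * (x ^ 4 / τ) * IV κ c A T := by
    have hX : 1 ≤ x ^ 3 / τ := by
      rw [le_div_iff₀ hτ]; linarith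
    obtain ⟨n1, n2, n3, n4⟩ := hceil _ hX
    have e1 : 2 * (x / L) * (2 * (x ^ 3 / τ)) = 4 * (x ^ 4 / (τ * L)) := by field_simp; norm_num
    have h1 := cells_int (κ := κ) (c := c) (A := A) (T := T) (U1 := U1) (U2 := U2) hS hh hcell hG
      (α := -(2 * x ^ 4 / (τ * L))) (β := 2 * x ^ 4 / (τ * L)) (n := ⌈2 * (x ^ 3 / τ)⌉₊)
      (by exact_mod_cast n1) (by
        have := mul_le_mul_of_nonneg_left n2 (by positivity : 0 ≤ 2 * (x / L))
        rw [e1] at this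
        have e2 : 2 * x ^ 4 / (τ * L) = 2 * (x ^ 4 / (τ * L)) := by ring
        rw [e2]; linarith) (by
        have e2 : 2 * x ^ 4 / (τ * L) = 2 * (x ^ 4 / (τ * L)) := by ring
        rw [e2]; linarith) (by
        have := mul_le_mul_of_nonneg_left n3 (by positivity : 0 ≤ 2 * (x / L))
        rw [mul_add, e1] at this
        have e2 : 2 * x ^ 4 / (τ * L) = 2 * (x ^ 4 / (τ * L)) := by ring
        rw [e2]; linarith)
    refine h1.trans ?_
    calc (⌈2 * (x ^ 3 / τ)⌉₊ : ℝ) * (Cc * x * IV κ c A T) ≤ 3 * (x ^ 3 / τ) * (Cc * x * IV κ c A T) :=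
          mul_le_mul_of_nonneg_right n4 hM0
      _ = _ := by ring
  -- the edge zones
  have hX : 1 ≤ x / τ := by
    rw [le_div_iff₀ hτ]; linarith
  obtain ⟨n1, n2, n3, n4⟩ := hceil _ hX
  have e1 : 2 * (x / L) * (2 * (x / τ)) = 4 * (x ^ 2 / (τ * L)) := by field_simp; norm_num
  have n2' := mul_le_mul_of_nonneg_left n2 (by positivity : 0 ≤ 2 * (x / L))
  rw [e1] at n2'
  have n3' := mul_le_mul_of_nonneg_left n3 (by positivity : 0 ≤ 2 * (x / L))
  rw [mul_add, e1] at n3'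
  have e5 : (x ^ 4 + 2 * x ^ 2) / (τ * L) = x ^ 4 / (τ * L) + 2 * (x ^ 2 / (τ * L)) := by ring
  have e6 : (x ^ 4 - 2 * x ^ 2) / (τ * L) = x ^ 4 / (τ * L) - 2 * (x ^ 2 / (τ * L)) := by ring
  have hfin : (⌈2 * (x / τ)⌉₊ : ℝ) * (Cc * x * IV κ c A T) ≤ 3 * Cc * (x ^ 2 / τ) * IV κ c A T := by
    calc (⌈2 * (x / τ)⌉₊ : ℝ) * (Cc * x * IV κ c A T) ≤ 3 * (x / τ) * (Cc * x * IV κ c A T) :=
          mul_le_mul_of_nonneg_right n4 hM0
      _ = _ := by ring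
  have hz2 : ∫ t in G, V κ c A T t * nz U1 U2 (t + -((x ^ 4 + 2 * x ^ 2) / (τ * L)))
      (t + -((x ^ 4 - 2 * x ^ 2) / (τ * L))) ≤ 3 * Cc * (x ^ 2 / τ) * IV κ c A T := by
    refine (cells_int (κ := κ) (c := c) (A := A) (T := T) (U1 := U1) (U2 := U2) hS hh hcell hG
      (n := ⌈2 * (x / τ)⌉₊) (by exact_mod_cast n1) ?_ ?_ ?_).trans hfin
    · rw [e5, e6]; linarith
    · rw [e5]; linarith
    · rw [e5]; linarith
  have hz3 : ∫ t in G, V κ c A T t * nz U1 U2 (t + (x ^ 4 - 2 * x ^ 2) / (τ * L))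
      (t + (x ^ 4 + 2 * x ^ 2) / (τ * L)) ≤ 3 * Cc * (x ^ 2 / τ) * IV κ c A T := by
    refine (cells_int (κ := κ) (c := c) (A := A) (T := T) (U1 := U1) (U2 := U2) hS hh hcell hG
      (n := ⌈2 * (x / τ)⌉₊) (by exact_mod_cast n1) ?_ ?_ ?_).trans hfin
    · rw [e5, e6]; linarith
    · rw [e6]; linarith
    · rw [e6]; linarith
  -- integration
  have i1 := nz_int hV U1 U2 (-(2 * x ^ 4 / (τ * L))) (2 * x ^ 4 / (τ * L)) hGx
  have i2 := nz_int hV U1 U2 (-((x ^ 4 + 2 * x ^ 2) / (τ * L))) (-((x ^ 4 - 2 * x ^ 2) / (τ * L))) hGx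
  have i3 := nz_int hV U1 U2 ((x ^ 4 - 2 * x ^ 2) / (τ * L)) ((x ^ 4 + 2 * x ^ 2) / (τ * L)) hGx
  have i4 : IntegrableOn (fun t => V κ c A T t) G :=
    (hV.continuousOn.integrableOn_compact isCompact_Icc).mono_set hGx
  set f1 : ℝ → ℝ := fun t => V κ c A T t * nz U1 U2 (t + -(2 * x ^ 4 / (τ * L))) (t + 2 * x ^ 4 / (τ * L)) with hf1
  set f2 : ℝ → ℝ := fun t => V κ c A T t * nz U1 U2 (t + -((x ^ 4 + 2 * x ^ 2) / (τ * L)))
      (t + -((x ^ 4 - 2 * x ^ 2) / (τ * L))) with hf2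
  set f3 : ℝ → ℝ := fun t => V κ c A T t * nz U1 U2 (t + (x ^ 4 - 2 * x ^ 2) / (τ * L))
      (t + (x ^ 4 + 2 * x ^ 2) / (τ * L)) with hf3
  have j1 : IntegrableOn (fun t => η1 * f1 t) G := i1.const_mul η1
  have j23 : IntegrableOn (fun t => f2 t + f3 t) G := i2.add i3
  have j2 : IntegrableOn (fun t => x * (f2 t + f3 t)) G := j23.const_mul x
  have j12 : IntegrableOn (fun t => η1 * f1 t + x * (f2 t + f3 t)) G := j1.add j2
  have j : IntegrableOn (fun t => η1 * f1 t + x * (f2 t + f3 t) + V κ c A T t) G := j12.add i4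
  have hle : ∫ t in G, V κ c A T t * E t ≤ ∫ t in G, (η1 * f1 t + x * (f2 t + f3 t) + V κ c A T t) := by
    refine setIntegral_mono_on hE j hGm fun t ht => ?_
    have h1 := mul_le_mul_of_nonneg_left (hcost t ht) (hV0 t)
    refine h1.trans (le_of_eq ?_)
    simp only [hf1, hf2, hf3]
    ring
  rw [integral_add j12 i4, integral_add j1 j2, integral_const_mul, integral_const_mul,
    integral_add i2 i3] at hle
  have hIG : ∫ t in G, V κ c A T t ≤ IV κ c A T := setInt_le_IV κ c A hT hGT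
  have hk1 : η1 * (∫ t in G, f1 t) ≤ η1 * (3 * Cc * (x ^ 4 / τ) * IV κ c A T) :=
    mul_le_mul_of_nonneg_left hz1 hη.le
  have hk2 : x * ((∫ t in G, f2 t) + ∫ t in G, f3 t) ≤ x * (6 * Cc * (x ^ 2 / τ) * IV κ c A T) := by
    refine mul_le_mul_of_nonneg_left ?_ hx0.le
    linarith
  refine hle.trans ?_
  have hk3 : x * (6 * Cc * (x ^ 2 / τ) * IV κ c A T) + IV κ c A T ≤ Cc * η1 * (x ^ 4 / τ) * IV κ c A T := by
    have h1 : (6 * Cc + 1) ≤ x * (Cc * η1) := by rwa [div_le_iff₀ (by positivity)] at hbig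
    have h2 : x ^ 3 * (6 * Cc + 1) ≤ x ^ 3 * (x * (Cc * η1)) := mul_le_mul_of_nonneg_left h1 (by positivity)
    have h3 : 6 * Cc * x ^ 3 + τ ≤ Cc * η1 * x ^ 4 := by nlinarith
    have h4 : 6 * Cc * (x ^ 3 / τ) + 1 ≤ Cc * η1 * (x ^ 4 / τ) := by
      have h5 := div_le_div_of_nonneg_right h3 hτ.le
      rw [add_div, div_self hτ.ne'] at h5
      calc _ = 6 * Cc * x ^ 3 / τ + 1 := by ring
        _ ≤ _ := h5
        _ = _ := by ring
    have h5 := mul_le_mul_of_nonneg_right h4 hI0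
    calc _ = (6 * Cc * (x ^ 3 / τ) + 1) * IV κ c A T := by ring
      _ ≤ _ := h5
  calc _ ≤ η1 * (3 * Cc * (x ^ 4 / τ) * IV κ c A T) + x * (6 * Cc * (x ^ 2 / τ) * IV κ c A T) + IV κ c A T := by
        linarith
    _ ≤ η1 * (3 * Cc * (x ^ 4 / τ) * IV κ c A T) + Cc * η1 * (x ^ 4 / τ) * IV κ c A T := by linarith
    _ = _ := by ring

end

end Pool.Agent.Y745.LD
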