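import Pool.Agent.Y745.LD.VB4

set_option autoImplicit false

/-! The weighted block theorem. -/

namespace Pool.Agent.Y745.LD

open Filter Topology MeasureTheory Complex H370 TH803UC TH803CL Pool.Agent.Y745.SW

noncomputable section

/-- `T + 2 log T ≤ 2 T - 2 log T` -/
lemma ev_int : ∀ᶠ T : ℝ in atTop, T + 2 * Real.log T ≤ 2 * T - 2 * Real.log T := by
  have h1 := Real.isLittleO_log_id_atTop.def (c := 1 / 4) (by norm_num)
  filter_upwards [h1, eventually_ge_atTop 1] with T hT hT1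
  rw [Real.norm_eq_abs, Real.norm_eq_abs, id, abs_of_pos (by linarith : 0 < T)] at hT
  have := le_abs_self (Real.log T)
  linarith

/-- powers of the logarithm: `K ≤ L^p` -/
lemma ev_pow_ge (K p : ℝ) (hp : 0 < p) : ∀ᶠ T : ℝ in atTop, K ≤ Real.log T ^ p :=
  Real.tendsto_log_atTop.eventually ((tendsto_rpow_atTop hp).eventually_ge_atTop K)

/-- smallness of the Gaussian tail with a factor `L ^ 2` -/
lemma tail_ev2 (K τ : ℝ) (hK : 0 ≤ K) (hτ : 0 < τ) :
    ∀ᶠ L : ℝ in atTop, 2 * (K * L) * (L * Real.exp (-(τ * L) ^ 2 / 2)) ≤ 1 / 2 := by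
  have h1 : Tendsto (fun L : ℝ => 2 * K * (L ^ 2 * Real.exp (-(τ ^ 2 / 2 * L)))) atTop (𝓝 (2 * K * 0)) := by
    refine Tendsto.const_mul _ ?_
    have h3 := (Real.tendsto_pow_mul_exp_neg_atTop_nhds_zero 2).comp
      (tendsto_id.const_mul_atTop (r := τ ^ 2 / 2) (by positivity))
    have h4 := h3.const_mul (((τ ^ 2 / 2) ^ 2)⁻¹)
    rw [mul_zero] at h4
    refine h4.congr fun L => ?_
    simp only [Function.comp, id]
    have : τ ^ 2 / 2 ≠ 0 := by positivity
    field_simp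
  rw [mul_zero] at h1
  filter_upwards [h1.eventually_le_const (show (0:ℝ) < 1 / 2 by norm_num), eventually_ge_atTop 1] with L h2 hL
  refine le_trans ?_ h2
  have h5 : Real.exp (-(τ * L) ^ 2 / 2) ≤ Real.exp (-(τ ^ 2 / 2 * L)) := by
    rw [Real.exp_le_exp]
    have : 0 ≤ τ ^ 2 := sq_nonneg _
    nlinarith [mul_nonneg this (by nlinarith : (0:ℝ) ≤ L ^ 2 - L)]
  calc 2 * (K * L) * (L * Real.exp (-(τ * L) ^ 2 / 2)) = 2 * K * L ^ 2 * Real.exp (-(τ * L) ^ 2 / 2) := by ring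
    _ ≤ 2 * K * L ^ 2 * Real.exp (-(τ ^ 2 / 2 * L)) := mul_le_mul_of_nonneg_left h5 (by positivity)
    _ = _ := by ring

theorem vblk (hDI : P_DI) (hTRK : P_TRK) (hMN : P_MN) (hζ : GoodL riemannZeta) (hKER2 : P_KER2) (hDFU : P_DFU)
    (hVDQ : P_VDQ) (hEFU : P_EFU) (hVSM : P_VSM) (hCNT2 : P_CNT2) (hCOST : P_COST) : P_VBLK := by
  classical
  intro ε hε hε1
  have hpi := Real.pi_pos
  obtain ⟨Cc, hCc, hCNT⟩ := hCNT2
  have hCc0 : 0 < Cc := by linarith
  set η1 : ℝ := ε / (2560 * Real.pi * Cc) with hη1d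
  have hη10 : 0 < η1 := by positivity
  have hη11 : η1 ≤ 1 := by
    rw [hη1d, div_le_one (by positivity)]
    have h1 : 1 ≤ Real.pi * Cc := by nlinarith [Real.pi_gt_three]
    nlinarith
  obtain ⟨δ, hδ, hδ1, hker⟩ := kap_near hη10
  refine ⟨δ, hδ, hδ1, fun κ c hc0 hc1 => ?_⟩
  obtain ⟨A0, hA0⟩ := hVSM κ c hc0 hc1
  obtain ⟨A0', hA0'⟩ := hCNT κ c hc0 hc1
  refine ⟨max A0 A0', fun A hA e D he0 he8 hec hD => ?_⟩
  have hSM0 := hA0 A ((le_max_left _ _).trans hA)
  have hCNT1 := hA0' A ((le_max_right _ _).trans hA)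
  obtain ⟨j, τ0, hτ0, hτ01, hCOST1⟩ := hCOST D e hD he0 he8
  obtain ⟨C, hC, hB⟩ := hKER2 j
  have hC0 : 0 < C := by linarith
  have hRl : ∃ K : ℝ, ∀ x y : ℝ, |Rf x - Rf y| ≤ K * |x - y| := by
    obtain ⟨K, -, hK⟩ := Rf_lip
    exact ⟨K, hK⟩
  obtain ⟨CD, hCD, hDFR⟩ := hDFU Rf Rf_cont (fun x _ => Rf_nonneg x) hRl
  set η : ℝ := ε / 64 with hη
  set εs : ℝ := ε / 64 with hεs
  have hεs0 : 0 < εs := by positivity
  have hεs2 : εs < 1 / 2 := by rw [hεs]; linarith
  obtain ⟨CV, hCV, hSM⟩ := hSM0 εs hεs0 hεs2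
  set CS : ℝ := 2 * CV with hCS
  have hCS0 : 0 < CS := by rw [hCS]; linarith
  set q : ℝ := (1 + 1 / η) * (2 * Rf 0) with hq
  have hη0 : 0 < η := by positivity
  have hq0 : 0 ≤ q := mul_nonneg (by positivity) (mul_nonneg (by norm_num) (Rf_nonneg 0))
  -- the choice of `τ`
  obtain ⟨τ, hτ, hτa, hτb, hτ1, hτ2, hτ3, hτ4⟩ : ∃ τ : ℝ, 0 < τ ∧ τ ≤ τ0 ∧ τ ≤ εs / 4 ∧
      τ * Real.pi ≤ ε / 512 ∧ τ * (Real.pi * (CS + q + 2)) ≤ ε / 512 ∧
      τ * (20 * Real.pi * (q * CS)) ≤ ε / 512 ∧ τ * (2 * Real.pi * CD) ≤ ε / 512 := by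
    set W := Real.pi + Real.pi * (CS + q + 2) + 20 * Real.pi * (q * CS) + 2 * Real.pi * CD with hWd
    have w1 : 0 ≤ Real.pi * (CS + q + 2) := by positivity
    have w3 : 0 ≤ 20 * Real.pi * (q * CS) := by positivity
    have w4 : 0 ≤ 2 * Real.pi * CD := by positivity
    have hW0 : 0 < W := by rw [hWd]; linarith
    refine ⟨min (min τ0 (εs / 4)) (ε / 512 / W), by positivity, (min_le_left _ _).trans (min_le_left _ _),
      (min_le_left _ _).trans (min_le_right _ _), ?_, ?_, ?_, ?_⟩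
    all_goals
      have h1 : min (min τ0 (εs / 4)) (ε / 512 / W) ≤ ε / 512 / W := min_le_right _ _
      have h0 : 0 < min (min τ0 (εs / 4)) (ε / 512 / W) := by positivity
      have h2 : min (min τ0 (εs / 4)) (ε / 512 / W) * W ≤ ε / 512 := by
        rwa [le_div_iff₀ hW0] at h1
      refine le_trans (mul_le_mul_of_nonneg_left ?_ h0.le) h2
      rw [hWd]
      linarith
  have hτle1 : τ ≤ 1 := by
    refine hτb.trans ?_
    rw [hεs]; linarith
  refine ⟨τ, hτ, hτle1, fun cc C0 hcc => ?_⟩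
  -- the eventual facts
  have he1 : e < 1 := by linarith
  have hlog := Real.tendsto_log_atTop
  obtain ⟨C1, hC1, hEF⟩ := hEFU εs hεs0 hεs2
  have hEF := hEF cc C0
  have hSM := hSM cc C0
  have hVDQ := hVDQ Rf Rf_cont (fun x _ => Rf_nonneg x) κ c A εs τ (ε / 64) hc0 hc1 hεs0 hεs2 hτ hτb (by positivity)
  have hDFR := hDFR εs τ (4 * τ) C e hεs0 hεs2 hτ hτb le_rfl (by rw [hεs] at hτb; linarith) hC he0 he8
  have hCOST1 := hCOST1 C τ hC hτ hτa
  have hCNT1 := hCNT1 (e / 4) D cc C0 (by positivity) (by linarith) hD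
  have v1 := ev_pow_ge (8 / τ) (1 - e) (by linarith)
  have v2 := ev_pow_ge ((6 * Cc + 1) / (Cc * η1)) (e / 4) (by positivity)
  have v3 := ev_pow_ge C (1 - e) (by linarith)
  have v4 := ev_pow_ge (C / τ) (1 - e - c) (by linarith)
  have v5 := ev_pow_ge (2 * (C1 * (1 + |C0|) * C / τ)) (1 - e) (by linarith)
  have v6 := ev_pow_ge (128 * (C * Real.pi / τ) / ε) (1 - e) (by linarith)
  have v7 := ev_pow_ge (4 / ε) (e / 2) (by positivity)
  have v8 : ∀ᶠ T : ℝ in atTop, 2 * Real.exp (-(τ * Real.log T) ^ 2 / 4) ≤ ε / 128 := by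
    have h1 : Tendsto (fun L : ℝ => 2 * Real.exp (-(τ * L) ^ 2 / 4)) atTop (𝓝 (2 * 0)) := by
      refine Tendsto.const_mul _ ?_
      have h2 : Tendsto (fun L : ℝ => -(τ * L) ^ 2 / 4) atTop atBot := by
        have h3 : Tendsto (fun L : ℝ => (τ * L) ^ 2) atTop atTop :=
          (tendsto_pow_atTop (two_ne_zero)).comp (tendsto_id.const_mul_atTop hτ)
        have h4 := (h3.atTop_div_const (show (0:ℝ) < 4 by norm_num))
        have h5 := tendsto_neg_atTop_atBot.comp h4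
        refine h5.congr fun L => ?_
        simp only [Function.comp]
        ring
      exact Real.tendsto_exp_atBot.comp h2
    rw [mul_zero] at h1
    exact hlog.eventually (h1.eventually_le_const (by positivity))
  have v9 : ∀ᶠ T : ℝ in atTop, 2 * (C * Real.log T) * (Real.log T * Real.exp (-(τ * Real.log T) ^ 2 / 2)) ≤ 1 / 2 :=
    hlog.eventually (tail_ev2 C τ hC0.le hτ)
  have v10 := hlog.eventually_ge_atTop (1 / τ)
  filter_upwards [hEF, hSM, hVDQ, hDFR, hCOST1, hCNT1, v1, v2, v3, v4, v5, v6, v7, v8, v9, v10, ev_int,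
    hlog.eventually_ge_atTop 10, eventually_ge_atTop 1]
    with T tEF tSM tVDQ tDF tCOST tCNT w1 w2 w3 w4 w5 w6 w7 w8 w9 w10 tT tL tT1
  intro hmeas U1 U2 hefd G hG hGG hGV
  set L := Real.log T with hL
  have hL0 : 0 < L := by linarith
  have hL1 : 1 ≤ L := by linarith
  have hT0 : 0 < T := by linarith
  have hI0 : 0 ≤ IV κ c A T := IV_nonneg κ c A hT0.le
  -- powers
  set x := L ^ (e / 4) with hx
  have hx1 : 1 ≤ x := Real.one_le_rpow hL1 (by positivity)
  have hx0 : 0 < x := by linarith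
  have hx4 : L ^ e = x ^ 4 := by
    rw [hx, ← Real.rpow_natCast, ← Real.rpow_mul hL0.le]
    congr 1; push_cast; ring
  have hx2 : L ^ (e / 2) = x ^ 2 := by
    rw [hx, ← Real.rpow_natCast, ← Real.rpow_mul hL0.le]
    congr 1; push_cast; ring
  have hxh : L ^ (e / 4 - 1) = x / L := by
    rw [hx, Real.rpow_sub hL0, Real.rpow_one]
  have hL1e : L ^ (1 - e) * L ^ e = L := by
    rw [← Real.rpow_add hL0, sub_add_cancel, Real.rpow_one]
  set N := L ^ e with hN
  have hN1 : 1 ≤ N := Real.one_le_rpow hL1 he0.le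
  have hN0 : 0 < N := by linarith
  -- consequences of the choice of `T`: multiples of `N` are small against `L`
  have hmulN : ∀ K : ℝ, K ≤ L ^ (1 - e) → K * N ≤ L := fun K hK => by
    calc K * N ≤ L ^ (1 - e) * N := mul_le_mul_of_nonneg_right hK hN0.le
      _ = L := hL1e
  have hτL : 0 < τ * L := mul_pos hτ hL0
  have hτL1 : 1 ≤ τ * L := by
    rw [div_le_iff₀ hτ] at w10
    linarith
  have z1 : 8 * N ≤ τ * L := by
    have := hmulN _ w1
    rw [div_mul_eq_mul_div, div_le_iff₀ hτ] at this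
    linarith
  have z3 : C * N ≤ L := hmulN _ w3
  have z4 : C * N * L ^ c / (τ * L) ≤ 1 := by
    rw [div_le_one hτL]
    rw [div_le_iff₀ hτ] at w4
    have h1 : L ^ (1 - e - c) * (N * L ^ c) = L := by
      rw [hN, ← Real.rpow_add hL0, ← Real.rpow_add hL0]
      rw [show 1 - e - c + (e + c) = 1 by ring, Real.rpow_one]
    calc C * N * L ^ c = C * (N * L ^ c) := by ring
      _ ≤ (L ^ (1 - e - c) * τ) * (N * L ^ c) := mul_le_mul_of_nonneg_right w4 (by positivity)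
      _ = τ * (L ^ (1 - e - c) * (N * L ^ c)) := by ring
      _ = _ := by rw [h1]
  have z5 : C1 * (1 + |C0|) * (C * N) / (τ * L) ≤ 1 / 2 := by
    have h1 := hmulN _ w5
    rw [div_le_iff₀ hτL]
    have e1 : 2 * (C1 * (1 + |C0|) * C / τ) * N = 2 * (C1 * (1 + |C0|) * (C * N)) / τ := by ring
    rw [e1, div_le_iff₀ hτ] at h1
    linarith
  have z6 : C * Real.pi * N / (τ * L) ≤ ε / 128 := by
    have h1 := hmulN _ w6
    rw [div_mul_eq_mul_div, div_le_iff₀ hε] at h1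
    rw [div_le_div_iff₀ hτL (by norm_num)]
    have e1 : 128 * (C * Real.pi / τ) * N = C * Real.pi * N * 128 / τ := by ring
    rw [e1, div_le_iff₀ hτ] at h1
    linarith
  have z7 : x ^ 2 ≤ ε / 4 * N := by
    rw [hx4]
    rw [hx2] at w7
    rw [div_le_iff₀ hε] at w7
    have : 0 ≤ x ^ 2 := by positivity
    nlinarith
  -- the window function
  obtain ⟨B, hW, hlip⟩ := hB N hN1
  have hGI : G ⊆ Set.Icc (T + 2 * L) (2 * T - 2 * L) := hGG.trans Set.inter_subset_right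
  have hGT : G ⊆ Set.Icc T (2 * T) := hGI.trans (Set.Icc_subset_Icc (by linarith) (by linarith))
  have hS : G1 1 D T ∩ Set.Icc (T + 2 * L) (2 * T - 2 * L) ⊆ Set.Icc (T + 2 * L) (2 * T - 2 * L) :=
    Set.inter_subset_right
  -- the cost
  have hEcost := cost_avg (κ := κ) (c := c) (A := A) (T := T) (U1 := U1) (U2 := U2) (τ := τ) (L := L) (x := x)
    (Cc := Cc) (η1 := η1) (S := G1 1 D T ∩ Set.Icc (T + 2 * L) (2 * T - 2 * L)) (G := G) hS hx1 hτ hτle1 hL0 hCc
    hη10 hT0.le (by rw [← hx4]; exact z1) w2 (by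
      intro w hw
      have := tCNT hmeas U1 U2 hefd w hw
      rw [hxh] at this
      exact this) hG hGG hGT
    (E := fun t => ∑ s ∈ Zf riemannZeta U1 U2, (mult riemannZeta s : ℝ) *
      cost B (τ * L) ((L ^ e + L ^ (e / 2)) / (τ * L)) (δ / L) η1 L t (zz s))
    (costsum_int hW.cont κ c A T (τ * L) ((L ^ e + L ^ (e / 2)) / (τ * L)) (δ / L) η1 L U1 U2 hη10.le hGI)
    (by
      intro t ht
      have h1 := tCOST B hW (δ / L) η1 (by positivity) (by gcongr; linarith) hη10.le hη11 U1 U2 hefd.h1 hefd.h4 t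
        (hGG ht)
      refine h1.trans (le_of_eq ?_)
      rw [hx4, hx2, hx]
      simp only [sub_eq_add_neg])
  -- the block inequality
  have hblk := blockV (B := B) (cc := cc) (κ := κ) (c := c) (A := A) (ε := εs) (τ := τ) (η := η) (T := T) (U1 := U1)
    (U2 := U2) hDI hTRK hMN hζ hW hN1 hεs0 hεs2 hτ hτb hη0 (L := L) (δ := δ) (η1 := η1)
    (th := (L ^ e + L ^ (e / 2)) / (τ * L)) (CS := CS) (ε2 := 4 * Cc * η1)
    (ZZ := 2 * (1 - εs) / (Real.pi * τ) * (∫ x in (0:ℝ)..1, x * Rf x) * N + CD * N) (δ' := ε / 64) hL tL tT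
    (by linarith [hefd.h1]) hδ hδ1 hη10.le hη11 ?_ ?_ ?_ hCS0 ?_ ?_ hG hGI ?_
  · -- final computation
    have hI20 : 0 ≤ ∫ ξ in (-1:ℝ)..1, B ξ ^ 2 :=
      intervalIntegral.integral_nonneg (by norm_num) fun x _ => sq_nonneg _
    have hR1 : 0 ≤ ∫ x in (0:ℝ)..1, x * Rf x :=
      intervalIntegral.integral_nonneg (by norm_num) fun x hx => mul_nonneg hx.1 (Rf_nonneg x)
    have hMu : (1 - ε / 64) * (N / (Real.pi * τ)) ≤ Mu B (τ * L) L 0 := by
      have h1 := Mu_lower hW hC hN1 hlip (a := τ * L) (L := L) hτL1 hL0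
      refine le_trans ?_ h1
      have e1 : N / Real.pi * (L / (τ * L)) = N / (Real.pi * τ) := by field_simp
      have e2 : C * N ^ 2 * (L / (τ * L) ^ 2) = (N / (Real.pi * τ)) * (C * Real.pi * N / (τ * L)) := by
        field_simp
      rw [e1, e2]
      have hM0 : 0 < N / (Real.pi * τ) := by positivity
      have h2 := mul_le_mul_of_nonneg_left z6 hM0.le
      have h3 := mul_le_mul_of_nonneg_left w8 hM0.le
      have e3 : N / (Real.pi * τ) * Real.exp (-(τ * L) ^ 2 / 4) * 2 =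
        N / (Real.pi * τ) * (2 * Real.exp (-(τ * L) ^ 2 / 4)) := by ring
      rw [e3]
      linarith
    have hfin := final_calcV (IG := ∫ t in G, V κ c A T t) (IV' := IV κ c A T) (N := N) (τ := τ) (ε := ε)
      (c := cMTinv) (R0 := Rf 0) (R1 := ∫ x in (0:ℝ)..1, x * Rf x) (CD := CD) (CS := CS) (q := q) (η := η) (εs := εs)
      (δ' := ε / 64) (ε2 := 4 * Cc * η1) (M := N / (Real.pi * τ)) (I2 := ∫ ξ in (-1:ℝ)..1, B ξ ^ 2)
      (Mu0 := Mu B (τ * L) L 0) hI0 hGV hN1 hτ hτle1 hε hε1 Rf_const cMTinv_lt.le (Rf_nonneg 0) hR1 hCS0 rfl rfl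
      rfl rfl hW.sq hMu le_rfl hq0 hτ1 hτ2 hτ3 hτ4 (by
        rw [hη1d]
        refine le_of_eq ?_
        field_simp
        norm_num) hblk
    -- comparison
    have hX0 : 0 ≤ ∑ s ∈ isoS U1 U2 (δ / L), ∫ t in G ∩ Set.Icc (s.im - (L ^ e + L ^ (e / 2)) / (τ * L))
        (s.im + (L ^ e + L ^ (e / 2)) / (τ * L)), V κ c A T t :=
      Finset.sum_nonneg fun s _ => integral_nonneg fun t => V_nonneg κ c A T t
    have hrad : 2 * rad e τ T * (Real.log T / (2 * Real.pi)) * IV κ c A T =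
        (N / (Real.pi * τ)) * IV κ c A T * (1 + x ^ 2 / N) := by
      unfold rad
      rw [← hL, hx2, ← hN]
      field_simp
    rw [hrad]
    have hrr : rad e τ T = (L ^ e + L ^ (e / 2)) / (τ * L) := rfl
    rw [hrr]
    have hP0 : 0 ≤ N / (Real.pi * τ) * IV κ c A T := by positivity
    rcases le_or_gt (2 - cMTinv - ε) 0 with hneg | hpos
    · refine le_trans ?_ hX0
      exact mul_nonpos_of_nonpos_of_nonneg hneg (by positivity)
    · refine le_trans ?_ hfin
      have h7 : x ^ 2 / N ≤ ε / 4 := by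
        rw [div_le_iff₀ hN0]; exact z7
      have hc0 : 0 ≤ cMTinv := by
        rw [← Rf_const]
        have := Rf_nonneg 0
        linarith
      have h8 : (2 - cMTinv - ε) * (1 + x ^ 2 / N) ≤ 2 - cMTinv - ε / 2 := by
        have h9 : (2 - cMTinv - ε) * (x ^ 2 / N) ≤ 2 * (ε / 4) := by
          refine mul_le_mul (by linarith) h7 (by positivity) (by norm_num)
        linarith
      calc (2 - cMTinv - ε) * (N / (Real.pi * τ) * IV κ c A T * (1 + x ^ 2 / N)) =
          ((2 - cMTinv - ε) * (1 + x ^ 2 / N)) * (N / (Real.pi * τ) * IV κ c A T) := by ring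
        _ ≤ _ := mul_le_mul_of_nonneg_right h8 hP0
  · intro u hu
    refine hker _ ?_
    rw [norm_mul, Complex.norm_real, Real.norm_eq_abs, abs_of_nonneg (mul_nonneg (by linarith) hL0.le)]
    have h1 : (1 - εs) * L * ‖u‖ ≤ 1 * L * (6 * (δ / L)) := by
      gcongr
      linarith
    refine h1.trans (le_of_eq ?_)
    field_simp
  · intro t u h1 h2 h3 h4
    have h5 := tEF U1 U2 hefd B (C * N) (τ * L) hW.cont hW.even hW.bd hτL1 (by gcongr) t u h1 h2 h3 h4
    exact h5.trans z5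
  · intro u hu
    have h1 := Mu_small hW.cont hW.bd hτL hL0 hu
    refine h1.trans (le_trans ?_ w9)
    have : N ≤ L := by
      calc N ≤ C * N := le_mul_of_one_le_left hN0.le hC
        _ ≤ L := z3
    gcongr
  · intro u h3 h4
    have h5 := tSM U1 U2 hefd B (C * N) (τ * L) u 0 hW.cont hW.even hW.bd hτL1 (by gcongr) h3 h4 (by simp)
    simp only [add_zero] at h5
    unfold Gd
    refine h5.trans ?_
    have hI2 : 0 ≤ ∫ ξ in (-1:ℝ)..1, B ξ ^ 2 :=
      intervalIntegral.integral_nonneg (by norm_num) fun x _ => sq_nonneg _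
    have h6 : (C * N * L ^ c / (τ * L)) ^ 2 ≤ 1 := pow_le_one₀ (by positivity) z4
    have h7 : (1 + u / (τ * L)) * (∫ ξ in (-1:ℝ)..1, B ξ ^ 2) ≤ (1 + u / (τ * L)) * N := by
      refine mul_le_mul_of_nonneg_left (hW.sq.trans ?_) (by positivity)
      rw [div_le_iff₀ hpi]
      nlinarith [Real.pi_gt_three]
    have h8 : 1 ≤ (1 + u / (τ * L)) * N := by
      have : 0 ≤ u / (τ * L) := by positivity
      nlinarith
    calc CV * IV κ c A T * ((1 + u / (τ * L)) * (∫ ξ in (-1:ℝ)..1, B ξ ^ 2) + (C * N * L ^ c / (τ * L)) ^ 2)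
        ≤ CV * IV κ c A T * (2 * ((1 + u / (τ * L)) * N)) := by
          refine mul_le_mul_of_nonneg_left (by linarith) (by positivity)
      _ = _ := by rw [hCS]; ring
  · have h1 := tVDQ B cc hW.cont (fun ξ => (hW.bd ξ).trans z3) hcc
    refine h1.trans ?_
    have h2 := tDF B N hW.cont hW.even hN1 le_rfl hW.bd hlip hW.sq
    refine mul_le_mul_of_nonneg_left ?_ (by positivity)
    linarith
  · refine hEcost.trans (le_of_eq ?_)
    rw [hx4]

end

end Pool.Agent.Y745.LD
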